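import Pool.Agent.Q257.ZQ.Corner

/-!
# Canonical quasi-uniformities
-/

set_option maxHeartbeats 1000000
set_option linter.all false
set_option synthInstance.maxSize 2000

namespace Pool.Agent.Q257.ZQ

open FirstOrder FirstOrder.Language
open Pool.Agent.Helper672.ZFA hiding Mem El IsOrdPair IsPair
open Pool.Agent.Helper672.Plain (LSet Mem IsOrdPair El)
open Pool.Agent.Helper672.ZFA.H635 (toL plainN_ordPair plainN_graph plainN_opGraph)
open Pool.Agent.H635Amen (IsReals)
open Pool.Agent.H310 (appN mem_cp extN instPEl)
open Pool.Agent.Q301.TM
open Pool.Agent.Q301.QM (HS exists_hs)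

universe u u₁

attribute [local instance] toL instPEl

section

variable {N : Type u} [LSet.Structure N] [hM : IsModel N] {j : N} {α : Type u} [ITy N α]
variable {r : N} [Field (El r)] [LinearOrder (El r)] [IsStrictOrderedRing (El r)]

theorem compare {O : IPow N α → Prop} {D D' : α × α → El r} (h : QD O D) (h' : QD O D')
    {q : INat N → El r} (hq : HS q) (hr : IsReals r) (x : α) (n : INat N) :
    ∃ k, ∀ y, D (x, y) < q k → D' (x, y) < q n := by
  have hlt := int_lt hr
  have hD := h'.int
  have hI : Int N (fun b => D' (x, b) < q n) := by (repeat' (first | with_reducible apply memPE | with_reducible apply memPE' | with_reducible apply memPE'' | with_reducible apply memCode | with_reducible apply memCodeP | with_reducible apply memCode₂ | with_reducible apply eqPE | with_reducible apply eqPE' | with_reducible exact IntF.id | with_reducible exact IntF.fst' | with_reducible exact IntF.snd' | with_reducible exact IntF.const _ | with_reducible exact Int.const _ | assumption | with_reducible apply Int.and | with_reducible apply Int.or | with_reducible apply Int.not | with_reducible apply Int.imp | with_reducible apply Int.iff | with_reducible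 apply Int.ne | with_reducible apply Int.eq | with_reducible apply Int.mem | with_reducible apply Int.subset | with_reducible apply Int.ltN | with_reducible apply Int.leN | with_reducible_and_instances apply Int.le | with_reducible_and_instances apply Int.lt | with_reducible apply Int.all | with_reducible apply Int.ex | with_reducible apply IntF.fst | with_reducible apply IntF.snd | with_reducible apply IntF.app | with_reducible apply IntF.inl | with_reducible apply IntF.inr | with_reducible_and_instances apply IntF.mul | with_reducible_and_instances apply IntF.inv | with_reducible_and_instances apply IntF.add | with_reducible_and_instances apply IntF.sub | with_reducible_and_instances apply IntF.neg | with_reducible_and_instances apply IntF.smul | with_reducible apply Int.fin | with_reducible apply IntF.sep | with_reducible apply IntF.lam | with_reducible apply IntF.insert | with_reducible apply IntF.singleton | with_reducible apply IntF.union | with_reducible apply IntF.iimage | with_reducible apply IntF.ite | with_reducible apply IntF.the | with_reducible apply IntF.irec | with_reducible apply IntF.succ | with_reducible apply IntF.val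 | with_reducible apply IntF.mk | (with_reducible refine Int.comp ?_ ?_; assumption) | (with_reducible refine Int.comp₂ ?_ ?_ ?_; assumption) | (with_reducible refine Int.comp₃ ?_ ?_ ?_ ?_; assumption) | (with_reducible refine Int.comp₄ ?_ ?_ ?_ ?_ ?_; assumption) | (with_reducible refine IntF.comp ?_ ?_; assumption) | (with_reducible refine IntF.comp₂ ?_ ?_ ?_; assumption) | (with_reducible refine IntF.comp₃ ?_ ?_ ?_ ?_; assumption) | with_reducible apply IntF.pair))
  obtain ⟨ε, h1, h2⟩ := (h.top _).1 (ball_open h' hr x (q n)) x ((mem_sep hI).2 (by
    rw [h'.self]
    exact hq.pos n))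
  obtain ⟨k, hk⟩ := hq.lim ε h1
  exact ⟨k, fun y hy => (mem_sep hI).1 (h2 y (hy.trans hk))⟩

/-- The distances `D1` and `D2` have the topologies of `ρ` and of its conjugate. -/
structure CR (q : INat N → El r) (D1 D2 : α × α → El r) (ρ : α × α → El r) : Prop where
  int : IntF N ρ
  tri : ∀ a b c, ρ (a, c) ≤ ρ (a, b) + ρ (b, c)
  c1 : ∀ x n, ∃ k, ∀ y, D1 (x, y) < q k → ρ (x, y) < q n
  c2 : ∀ x n, ∃ k, ∀ y, D2 (x, y) < q k → ρ (y, x) < q n
  c3 : ∀ x n, ∃ k, ∀ y, ρ (x, y) < q k → D1 (x, y) < q n
  c4 : ∀ x n, ∃ k, ∀ y, ρ (y, x) < q k → D2 (x, y) < q n

theorem CR.of {O1 O2 : IPow N α → Prop} {D1 D2 ρ : α × α → El r} (h1 : QD O1 D1) (h2 : QD O2 D2)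
    (h3 : QD O1 ρ) (h4 : QD O2 (fun p => ρ (p.2, p.1))) {q : INat N → El r} (hq : HS q)
    (hr : IsReals r) : CR q D1 D2 ρ :=
  ⟨h3.int, h3.tri, compare h1 h3 hq hr, compare h2 h4 hq hr, compare h3 h1 hq hr,
    compare h4 h2 hq hr⟩

variable {q : INat N → El r} (hq : HS q) (hr : IsReals r) (hc : CPQM r) (hj : IsCountable j)
variable {D1 D2 : El j × (α × α) → El r} (hD1 : IntF N D1) (hD2 : IntF N D2)
  (h : ∀ i, ∃ ρ : α × α → El r, CR q (fun p => D1 (i, p)) (fun p => D2 (i, p)) ρ)

include hq hr hc hj hD1 hD2 h in
theorem exists_V : ∃ H : El j × (α × INat N) → INat N, IntF N H ∧ ∀ i x n u m, H (i, (u, m)) ≤ n →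
    ∀ z, (D2 (i, (x, u)) < q (H (i, (x, n))) → D1 (i, (x, z)) < q (H (i, (x, n))) →
      D1 (i, (u, z)) < q m) ∧ (D2 (i, (x, z)) < q (H (i, (x, n))) →
      D1 (i, (x, u)) < q (H (i, (x, n))) → D2 (i, (u, z)) < q m) := by
  have hlt := int_lt hr
  have hqi := hq.int
  obtain ⟨P, hP, hPe⟩ : ∃ P : El j × (((α × INat N) × (α × INat N)) × (INat N × INat N)) → Prop,
      Int N P ∧ ∀ i x n u m a b, P (i, (((x, n), (u, m)), (a, b))) ↔ (b ≤ n → ∀ z,
        (D2 (i, (x, u)) < q a → D1 (i, (x, z)) < q a → D1 (i, (u, z)) < q m) ∧
          (D2 (i, (x, z)) < q a → D1 (i, (x, u)) < q a → D2 (i, (u, z)) < q m)) := by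
    refine ⟨fun c => c.2.2.2 ≤ c.2.1.1.2 → ∀ z,
      (D2 (c.1, (c.2.1.1.1, c.2.1.2.1)) < q c.2.2.1 → D1 (c.1, (c.2.1.1.1, z)) < q c.2.2.1 →
        D1 (c.1, (c.2.1.2.1, z)) < q c.2.1.2.2) ∧ (D2 (c.1, (c.2.1.1.1, z)) < q c.2.2.1 →
        D1 (c.1, (c.2.1.1.1, c.2.1.2.1)) < q c.2.2.1 →
          D2 (c.1, (c.2.1.2.1, z)) < q c.2.1.2.2), ?_, fun i x n u m a b => Iff.rfl⟩
    (repeat' (first | with_reducible apply memPE | with_reducible apply memPE' | with_reducible apply memPE'' | with_reducible apply memCode | with_reducible apply memCodeP | with_reducible apply memCode₂ | with_reducible apply eqPE | with_reducible apply eqPE' | with_reducible exact IntF.id | with_reducible exact IntF.fst' | with_reducible exact IntF.snd' | with_reducible exact IntF.const _ | with_reducible exact Int.const _ | assumption | with_reducible apply Int.and | with_reducible apply Int.or | with_reducible apply Int.not | with_reducible apply Int.imp | with_reducible apply Int.iff | with_reducible apply Int.ne | with_reducible apply Int.eq | with_reducible apply Int.mem | with_reducible apply Int.subset | with_reducible apply Int.ltN | with_reducible apply Int.leN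 | with_reducible_and_instances apply Int.le | with_reducible_and_instances apply Int.lt | with_reducible apply Int.all | with_reducible apply Int.ex | with_reducible apply IntF.fst | with_reducible apply IntF.snd | with_reducible apply IntF.app | with_reducible apply IntF.inl | with_reducible apply IntF.inr | with_reducible_and_instances apply IntF.mul | with_reducible_and_instances apply IntF.inv | with_reducible_and_instances apply IntF.add | with_reducible_and_instances apply IntF.sub | with_reducible_and_instances apply IntF.neg | with_reducible_and_instances apply IntF.smul | with_reducible apply Int.fin | with_reducible apply IntF.sep | with_reducible apply IntF.lam | with_reducible apply IntF.insert | with_reducible apply IntF.singleton | with_reducible apply IntF.union | with_reducible apply IntF.iimage | with_reducible apply IntF.ite | with_reducible apply IntF.the | with_reducible apply IntF.irec | with_reducible apply IntF.succ | with_reducible apply IntF.val | with_reducible apply IntF.mk | (with_reducible refine Int.comp ?_ ?_; assumption) | (with_reducible refine Int.comp₂ ?_ ?_ ?_; assumption) | (with_reducible refine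 Int.comp₃ ?_ ?_ ?_ ?_; assumption) | (with_reducible refine Int.comp₄ ?_ ?_ ?_ ?_ ?_; assumption) | (with_reducible refine IntF.comp ?_ ?_; assumption) | (with_reducible refine IntF.comp₂ ?_ ?_ ?_; assumption) | (with_reducible refine IntF.comp₃ ?_ ?_ ?_ ?_; assumption) | with_reducible apply IntF.pair))
  have hPu : ∀ i x n u m a b a' b', a ≤ a' → b ≤ b' → P (i, (((x, n), (u, m)), (a, b))) →
      P (i, (((x, n), (u, m)), (a', b'))) := by
    intro i x n u m a b a' b' haa hbb hp
    rw [hPe] at hp ⊢
    intro hbn z
    obtain ⟨h1, h2⟩ := hp (hbb.trans hbn) z
    have h3 := hq.anti hr haa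
    exact ⟨fun g1 g2 => h1 (g1.trans_le h3) (g2.trans_le h3),
      fun g1 g2 => h2 (g1.trans_le h3) (g2.trans_le h3)⟩
  obtain ⟨H, hH, hH1⟩ := pairwise hr hc hj (S := α × INat N)
    (G := fun c => P (c.1, ((c.2.1.1, c.2.1.2), (c.2.2.1, c.2.2.2))) ∧
      P (c.1, ((c.2.1.2, c.2.1.1), (c.2.2.2, c.2.2.1)))) (by (repeat' (first | with_reducible apply memPE | with_reducible apply memPE' | with_reducible apply memPE'' | with_reducible apply memCode | with_reducible apply memCodeP | with_reducible apply memCode₂ | with_reducible apply eqPE | with_reducible apply eqPE' | with_reducible exact IntF.id | with_reducible exact IntF.fst' | with_reducible exact IntF.snd' | with_reducible exact IntF.const _ | with_reducible exact Int.const _ | assumption | with_reducible apply Int.and | with_reducible apply Int.or | with_reducible apply Int.not | with_reducible apply Int.imp | with_reducible apply Int.iff | with_reducible apply Int.ne | with_reducible apply Int.eq | with_reducible apply Int.mem | with_reducible apply Int.subset | with_reducible apply Int.ltN | with_reducible apply Int.leN | with_reducible_and_instances apply Int.le | with_reducible_and_instances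 apply Int.lt | with_reducible apply Int.all | with_reducible apply Int.ex | with_reducible apply IntF.fst | with_reducible apply IntF.snd | with_reducible apply IntF.app | with_reducible apply IntF.inl | with_reducible apply IntF.inr | with_reducible_and_instances apply IntF.mul | with_reducible_and_instances apply IntF.inv | with_reducible_and_instances apply IntF.add | with_reducible_and_instances apply IntF.sub | with_reducible_and_instances apply IntF.neg | with_reducible_and_instances apply IntF.smul | with_reducible apply Int.fin | with_reducible apply IntF.sep | with_reducible apply IntF.lam | with_reducible apply IntF.insert | with_reducible apply IntF.singleton | with_reducible apply IntF.union | with_reducible apply IntF.iimage | with_reducible apply IntF.ite | with_reducible apply IntF.the | with_reducible apply IntF.irec | with_reducible apply IntF.succ | with_reducible apply IntF.val | with_reducible apply IntF.mk | (with_reducible refine Int.comp ?_ ?_; assumption) | (with_reducible refine Int.comp₂ ?_ ?_ ?_; assumption) | (with_reducible refine Int.comp₃ ?_ ?_ ?_ ?_; assumption) | (with_reducible refine Int.comp₄ ?_ ?_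 ?_ ?_ ?_; assumption) | (with_reducible refine IntF.comp ?_ ?_; assumption) | (with_reducible refine IntF.comp₂ ?_ ?_ ?_; assumption) | (with_reducible refine IntF.comp₃ ?_ ?_ ?_ ?_; assumption) | with_reducible apply IntF.pair)))
    (fun i s s' a b a' b' ha hb ⟨h1, h2⟩ => ⟨hPu _ _ _ _ _ _ _ _ _ ha hb h1,
      hPu _ _ _ _ _ _ _ _ _ hb ha h2⟩) (fun i s s' a b ⟨h1, h2⟩ => ⟨h2, h1⟩) fun i => by
    obtain ⟨ρ, hρ⟩ := h i
    have hρi := hρ.int
    obtain ⟨f, hf, hf1⟩ := exists_mu (γ := α × INat N) (R := fun c k =>
      (∀ y, D1 (i, (c.1, y)) < q k → ρ (c.1, y) < q c.2.succ) ∧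
      (∀ y, D2 (i, (c.1, y)) < q k → ρ (y, c.1) < q c.2.succ) ∧
      (∀ y, ρ (c.1, y) < q k → D1 (i, (c.1, y)) < q c.2) ∧
      (∀ y, ρ (y, c.1) < q k → D2 (i, (c.1, y)) < q c.2)) (by (repeat' (first | with_reducible apply memPE | with_reducible apply memPE' | with_reducible apply memPE'' | with_reducible apply memCode | with_reducible apply memCodeP | with_reducible apply memCode₂ | with_reducible apply eqPE | with_reducible apply eqPE' | with_reducible exact IntF.id | with_reducible exact IntF.fst' | with_reducible exact IntF.snd' | with_reducible exact IntF.const _ | with_reducible exact Int.const _ | assumption | with_reducible apply Int.and | with_reducible apply Int.or | with_reducible apply Int.not | with_reducible apply Int.imp | with_reducible apply Int.iff | with_reducible apply Int.ne | with_reducible apply Int.eq | with_reducible apply Int.mem | with_reducible apply Int.subset | with_reducible apply Int.ltN | with_reducible apply Int.leN | with_reducible_and_instances apply Int.le | with_reducible_and_instances apply Int.lt | with_reducible apply Int.all | with_reducible apply Int.ex | with_reducible apply IntF.fst | with_reducible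 apply IntF.snd | with_reducible apply IntF.app | with_reducible apply IntF.inl | with_reducible apply IntF.inr | with_reducible_and_instances apply IntF.mul | with_reducible_and_instances apply IntF.inv | with_reducible_and_instances apply IntF.add | with_reducible_and_instances apply IntF.sub | with_reducible_and_instances apply IntF.neg | with_reducible_and_instances apply IntF.smul | with_reducible apply Int.fin | with_reducible apply IntF.sep | with_reducible apply IntF.lam | with_reducible apply IntF.insert | with_reducible apply IntF.singleton | with_reducible apply IntF.union | with_reducible apply IntF.iimage | with_reducible apply IntF.ite | with_reducible apply IntF.the | with_reducible apply IntF.irec | with_reducible apply IntF.succ | with_reducible apply IntF.val | with_reducible apply IntF.mk | (with_reducible refine Int.comp ?_ ?_; assumption) | (with_reducible refine Int.comp₂ ?_ ?_ ?_; assumption) | (with_reducible refine Int.comp₃ ?_ ?_ ?_ ?_; assumption) | (with_reducible refine Int.comp₄ ?_ ?_ ?_ ?_ ?_; assumption) | (with_reducible refine IntF.comp ?_ ?_; assumption) | (with_reducible refine IntF.comp₂ ?_ ?_ ?_;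 assumption) | (with_reducible refine IntF.comp₃ ?_ ?_ ?_ ?_; assumption) | with_reducible apply IntF.pair))) fun c => by
        obtain ⟨k1, h1⟩ := hρ.c1 c.1 c.2.succ
        obtain ⟨k2, h2⟩ := hρ.c2 c.1 c.2.succ
        obtain ⟨k3, h3⟩ := hρ.c3 c.1 c.2
        obtain ⟨k4, h4⟩ := hρ.c4 c.1 c.2
        exact ⟨max (max k1 k2) (max k3 k4),
          fun y hy => h1 y (hy.trans_le (hq.anti hr ((le_max_left _ _).trans (le_max_left _ _)))),
          fun y hy => h2 y (hy.trans_le (hq.anti hr ((le_max_right _ _).trans (le_max_left _ _)))),
          fun y hy => h3 y (hy.trans_le (hq.anti hr ((le_max_left _ _).trans (le_max_right _ _)))),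
          fun y hy => h4 y (hy.trans_le (hq.anti hr ((le_max_right _ _).trans (le_max_right _ _))))⟩
    refine ⟨f, hf, ?_⟩
    have key : ∀ x n u m, P (i, (((x, n), (u, m)), (f (x, n), f (u, m)))) := by
      intro x n u m
      rw [hPe]
      intro hn z
      obtain ⟨a1, a2, -, -⟩ := (hf1 (x, n)).1
      obtain ⟨-, -, a3, a4⟩ := (hf1 (u, m)).1
      have h1 := hq.anti hr hn
      have h2 := hq.succ n
      constructor
      · intro g1 g2
        have g3 := a2 _ g1
        have g4 := a1 _ g2
        have g5 := hρ.tri u x z
        refine a3 z ?_
        dsimp only at g3 g4 g5 ⊢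
        linarith
      · intro g1 g2
        have g3 := a2 _ g1
        have g4 := a1 _ g2
        have g5 := hρ.tri z x u
        refine a4 z ?_
        dsimp only at g3 g4 g5 ⊢
        linarith
    rintro ⟨x, n⟩ ⟨u, m⟩
    exact ⟨key x n u m, key u m x n⟩
  refine ⟨H, hH, fun i x n u m hn z => ?_⟩
  exact (hPe _ _ _ _ _ _ _).1 (hH1 i (x, n) (u, m)).1 hn z

/-- `R` is a neighbourhood of the diagonal. -/
def Nb (q : INat N → El r) (D1 D2 : El j × (α × α) → El r) (c : El j × IPow N (α × α)) : Prop :=
  ∀ x, ∃ k, ∀ u z, D2 (c.1, (x, u)) < q k → D1 (c.1, (x, z)) < q k → (u, z) ∈ c.2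

include hq hr hc hj hD1 hD2 h in
theorem exists_Phi : ∃ Φ : El j × IPow N (α × α) → IPow N (α × α), IntF N Φ ∧
    (∀ i R, Nb q D1 D2 (i, Φ (i, R))) ∧ ∀ i R, Nb q D1 D2 (i, R) → ∀ u z w,
      (u, z) ∈ Φ (i, R) → (z, w) ∈ Φ (i, R) → (u, w) ∈ R := by
  have hlt := int_lt hr
  have hqi := hq.int
  have hNb : Int N (Nb q D1 D2) := by
    unfold Nb
    (repeat' (first | with_reducible apply memPE | with_reducible apply memPE' | with_reducible apply memPE'' | with_reducible apply memCode | with_reducible apply memCodeP | with_reducible apply memCode₂ | with_reducible apply eqPE | with_reducible apply eqPE' | with_reducible exact IntF.id | with_reducible exact IntF.fst' | with_reducible exact IntF.snd' | with_reducible exact IntF.const _ | with_reducible exact Int.const _ | assumption | with_reducible apply Int.and | with_reducible apply Int.or | with_reducible apply Int.not | with_reducible apply Int.imp | with_reducible apply Int.iff | with_reducible apply Int.ne | with_reducible apply Int.eq | with_reducible apply Int.mem | with_reducible apply Int.subset | with_reducible apply Int.ltN | with_reducible apply Int.leN | with_reducible_and_instances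 apply Int.le | with_reducible_and_instances apply Int.lt | with_reducible apply Int.all | with_reducible apply Int.ex | with_reducible apply IntF.fst | with_reducible apply IntF.snd | with_reducible apply IntF.app | with_reducible apply IntF.inl | with_reducible apply IntF.inr | with_reducible_and_instances apply IntF.mul | with_reducible_and_instances apply IntF.inv | with_reducible_and_instances apply IntF.add | with_reducible_and_instances apply IntF.sub | with_reducible_and_instances apply IntF.neg | with_reducible_and_instances apply IntF.smul | with_reducible apply Int.fin | with_reducible apply IntF.sep | with_reducible apply IntF.lam | with_reducible apply IntF.insert | with_reducible apply IntF.singleton | with_reducible apply IntF.union | with_reducible apply IntF.iimage | with_reducible apply IntF.ite | with_reducible apply IntF.the | with_reducible apply IntF.irec | with_reducible apply IntF.succ | with_reducible apply IntF.val | with_reducible apply IntF.mk | (with_reducible refine Int.comp ?_ ?_; assumption) | (with_reducible refine Int.comp₂ ?_ ?_ ?_; assumption) | (with_reducible refine Int.comp₃ ?_ ?_ ?_ ?_; assumption)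 | (with_reducible refine Int.comp₄ ?_ ?_ ?_ ?_ ?_; assumption) | (with_reducible refine IntF.comp ?_ ?_; assumption) | (with_reducible refine IntF.comp₂ ?_ ?_ ?_; assumption) | (with_reducible refine IntF.comp₃ ?_ ?_ ?_ ?_; assumption) | with_reducible apply IntF.pair))
  obtain ⟨P, hP, hPe⟩ : ∃ P : El j × (((IPow N (α × α) × α) × (IPow N (α × α) × α)) ×
      (INat N × INat N)) → Prop, Int N P ∧ ∀ i R x R' y a b,
      P (i, (((R, x), (R', y)), (a, b))) ↔ ∀ u z w, D2 (i, (x, u)) < q a → D1 (i, (x, z)) < q a →
        D2 (i, (y, z)) < q b → D1 (i, (y, w)) < q b → (u, w) ∈ R := by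
    refine ⟨fun c => ∀ u z w, D2 (c.1, (c.2.1.1.2, u)) < q c.2.2.1 →
      D1 (c.1, (c.2.1.1.2, z)) < q c.2.2.1 → D2 (c.1, (c.2.1.2.2, z)) < q c.2.2.2 →
      D1 (c.1, (c.2.1.2.2, w)) < q c.2.2.2 → (u, w) ∈ c.2.1.1.1, ?_,
      fun i R x R' y a b => Iff.rfl⟩
    (repeat' (first | with_reducible apply memPE | with_reducible apply memPE' | with_reducible apply memPE'' | with_reducible apply memCode | with_reducible apply memCodeP | with_reducible apply memCode₂ | with_reducible apply eqPE | with_reducible apply eqPE' | with_reducible exact IntF.id | with_reducible exact IntF.fst' | with_reducible exact IntF.snd' | with_reducible exact IntF.const _ | with_reducible exact Int.const _ | assumption | with_reducible apply Int.and | with_reducible apply Int.or | with_reducible apply Int.not | with_reducible apply Int.imp | with_reducible apply Int.iff | with_reducible apply Int.ne | with_reducible apply Int.eq | with_reducible apply Int.mem | with_reducible apply Int.subset | with_reducible apply Int.ltN | with_reducible apply Int.leN | with_reducible_and_instances apply Int.le | with_reducible_and_instances apply Int.lt | with_reducible apply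 Int.all | with_reducible apply Int.ex | with_reducible apply IntF.fst | with_reducible apply IntF.snd | with_reducible apply IntF.app | with_reducible apply IntF.inl | with_reducible apply IntF.inr | with_reducible_and_instances apply IntF.mul | with_reducible_and_instances apply IntF.inv | with_reducible_and_instances apply IntF.add | with_reducible_and_instances apply IntF.sub | with_reducible_and_instances apply IntF.neg | with_reducible_and_instances apply IntF.smul | with_reducible apply Int.fin | with_reducible apply IntF.sep | with_reducible apply IntF.lam | with_reducible apply IntF.insert | with_reducible apply IntF.singleton | with_reducible apply IntF.union | with_reducible apply IntF.iimage | with_reducible apply IntF.ite | with_reducible apply IntF.the | with_reducible apply IntF.irec | with_reducible apply IntF.succ | with_reducible apply IntF.val | with_reducible apply IntF.mk | (with_reducible refine Int.comp ?_ ?_; assumption) | (with_reducible refine Int.comp₂ ?_ ?_ ?_; assumption) | (with_reducible refine Int.comp₃ ?_ ?_ ?_ ?_; assumption) | (with_reducible refine Int.comp₄ ?_ ?_ ?_ ?_ ?_; assumption) | (with_reducible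 refine IntF.comp ?_ ?_; assumption) | (with_reducible refine IntF.comp₂ ?_ ?_ ?_; assumption) | (with_reducible refine IntF.comp₃ ?_ ?_ ?_ ?_; assumption) | with_reducible apply IntF.pair))
  have hPu : ∀ i R x R' y a b a' b', a ≤ a' → b ≤ b' → P (i, (((R, x), (R', y)), (a, b))) →
      P (i, (((R, x), (R', y)), (a', b'))) := by
    intro i R x R' y a b a' b' haa hbb hp
    rw [hPe] at hp ⊢
    intro u z w g1 g2 g3 g4
    have h3 := hq.anti hr haa
    have h4 := hq.anti hr hbb
    exact hp u z w (g1.trans_le h3) (g2.trans_le h3) (g3.trans_le h4) (g4.trans_le h4)
  obtain ⟨H, hH, hH1⟩ := pairwise hr hc hj (S := IPow N (α × α) × α)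
    (G := fun c => c.2.1.1.1 = c.2.1.2.1 → Nb q D1 D2 (c.1, c.2.1.1.1) →
      P (c.1, ((c.2.1.1, c.2.1.2), (c.2.2.1, c.2.2.2))) ∧
      P (c.1, ((c.2.1.2, c.2.1.1), (c.2.2.2, c.2.2.1)))) (by (repeat' (first | with_reducible apply memPE | with_reducible apply memPE' | with_reducible apply memPE'' | with_reducible apply memCode | with_reducible apply memCodeP | with_reducible apply memCode₂ | with_reducible apply eqPE | with_reducible apply eqPE' | with_reducible exact IntF.id | with_reducible exact IntF.fst' | with_reducible exact IntF.snd' | with_reducible exact IntF.const _ | with_reducible exact Int.const _ | assumption | with_reducible apply Int.and | with_reducible apply Int.or | with_reducible apply Int.not | with_reducible apply Int.imp | with_reducible apply Int.iff | with_reducible apply Int.ne | with_reducible apply Int.eq | with_reducible apply Int.mem | with_reducible apply Int.subset | with_reducible apply Int.ltN | with_reducible apply Int.leN | with_reducible_and_instances apply Int.le | with_reducible_and_instances apply Int.lt | with_reducible apply Int.all | with_reducible apply Int.ex | with_reducible apply IntF.fst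 | with_reducible apply IntF.snd | with_reducible apply IntF.app | with_reducible apply IntF.inl | with_reducible apply IntF.inr | with_reducible_and_instances apply IntF.mul | with_reducible_and_instances apply IntF.inv | with_reducible_and_instances apply IntF.add | with_reducible_and_instances apply IntF.sub | with_reducible_and_instances apply IntF.neg | with_reducible_and_instances apply IntF.smul | with_reducible apply Int.fin | with_reducible apply IntF.sep | with_reducible apply IntF.lam | with_reducible apply IntF.insert | with_reducible apply IntF.singleton | with_reducible apply IntF.union | with_reducible apply IntF.iimage | with_reducible apply IntF.ite | with_reducible apply IntF.the | with_reducible apply IntF.irec | with_reducible apply IntF.succ | with_reducible apply IntF.val | with_reducible apply IntF.mk | (with_reducible refine Int.comp ?_ ?_; assumption) | (with_reducible refine Int.comp₂ ?_ ?_ ?_; assumption) | (with_reducible refine Int.comp₃ ?_ ?_ ?_ ?_; assumption) | (with_reducible refine Int.comp₄ ?_ ?_ ?_ ?_ ?_; assumption) | (with_reducible refine IntF.comp ?_ ?_; assumption) | (with_reducible refine IntF.comp₂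 ?_ ?_ ?_; assumption) | (with_reducible refine IntF.comp₃ ?_ ?_ ?_ ?_; assumption) | with_reducible apply IntF.pair)))
    (fun i s s' a b a' b' ha hb hh e n => ⟨hPu _ _ _ _ _ _ _ _ _ ha hb (hh e n).1,
      hPu _ _ _ _ _ _ _ _ _ hb ha (hh e n).2⟩)
    (fun i s s' a b hh e n => by
      dsimp only at e n hh ⊢
      rw [e] at n
      exact ⟨(hh e.symm n).2, (hh e.symm n).1⟩) fun i => by
    obtain ⟨ρ, hρ⟩ := h i
    have hρi := hρ.int
    obtain ⟨f, hf, hf1⟩ := exists_mu (γ := IPow N (α × α) × α) (R := fun c k =>
      Nb q D1 D2 (i, c.1) → ∃ m : INat N,
        (∀ y z, ρ (y, c.2) < q m → ρ (c.2, z) < q m → (y, z) ∈ c.1) ∧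
        (∀ y, D1 (i, (c.2, y)) < q k → ρ (c.2, y) < q m.succ.succ) ∧
        (∀ y, D2 (i, (c.2, y)) < q k → ρ (y, c.2) < q m.succ.succ)) (by (repeat' (first | with_reducible apply memPE | with_reducible apply memPE' | with_reducible apply memPE'' | with_reducible apply memCode | with_reducible apply memCodeP | with_reducible apply memCode₂ | with_reducible apply eqPE | with_reducible apply eqPE' | with_reducible exact IntF.id | with_reducible exact IntF.fst' | with_reducible exact IntF.snd' | with_reducible exact IntF.const _ | with_reducible exact Int.const _ | assumption | with_reducible apply Int.and | with_reducible apply Int.or | with_reducible apply Int.not | with_reducible apply Int.imp | with_reducible apply Int.iff | with_reducible apply Int.ne | with_reducible apply Int.eq | with_reducible apply Int.mem | with_reducible apply Int.subset | with_reducible apply Int.ltN | with_reducible apply Int.leN | with_reducible_and_instances apply Int.le | with_reducible_and_instances apply Int.lt | with_reducible apply Int.all | with_reducible apply Int.ex | with_reducible apply IntF.fst | with_reducible apply IntF.snd | with_reducible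 apply IntF.app | with_reducible apply IntF.inl | with_reducible apply IntF.inr | with_reducible_and_instances apply IntF.mul | with_reducible_and_instances apply IntF.inv | with_reducible_and_instances apply IntF.add | with_reducible_and_instances apply IntF.sub | with_reducible_and_instances apply IntF.neg | with_reducible_and_instances apply IntF.smul | with_reducible apply Int.fin | with_reducible apply IntF.sep | with_reducible apply IntF.lam | with_reducible apply IntF.insert | with_reducible apply IntF.singleton | with_reducible apply IntF.union | with_reducible apply IntF.iimage | with_reducible apply IntF.ite | with_reducible apply IntF.the | with_reducible apply IntF.irec | with_reducible apply IntF.succ | with_reducible apply IntF.val | with_reducible apply IntF.mk | (with_reducible refine Int.comp ?_ ?_; assumption) | (with_reducible refine Int.comp₂ ?_ ?_ ?_; assumption) | (with_reducible refine Int.comp₃ ?_ ?_ ?_ ?_; assumption) | (with_reducible refine Int.comp₄ ?_ ?_ ?_ ?_ ?_; assumption) | (with_reducible refine IntF.comp ?_ ?_; assumption) | (with_reducible refine IntF.comp₂ ?_ ?_ ?_; assumption) | (with_reducible refine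 IntF.comp₃ ?_ ?_ ?_ ?_; assumption) | with_reducible apply IntF.pair))) fun c => by
        by_cases hn : Nb q D1 D2 (i, c.1)
        swap
        · exact ⟨0, fun hn' => absurd hn' hn⟩
        obtain ⟨k0, h0⟩ := hn c.2
        obtain ⟨m1, h1⟩ := hρ.c3 c.2 k0
        obtain ⟨m2, h2⟩ := hρ.c4 c.2 k0
        obtain ⟨k1, h3⟩ := hρ.c1 c.2 (max m1 m2).succ.succ
        obtain ⟨k2, h4⟩ := hρ.c2 c.2 (max m1 m2).succ.succ
        refine ⟨max k1 k2, fun _ => ⟨max m1 m2, fun y z hy hz => ?_,
          fun y hy => h3 y (hy.trans_le (hq.anti hr (le_max_left _ _))),
          fun y hy => h4 y (hy.trans_le (hq.anti hr (le_max_right _ _)))⟩⟩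
        exact h0 y z (h2 y (hy.trans_le (hq.anti hr (le_max_right _ _))))
          (h1 z (hz.trans_le (hq.anti hr (le_max_left _ _))))
    refine ⟨f, hf, ?_⟩
    have key : ∀ R x y, Nb q D1 D2 (i, R) →
        P (i, (((R, x), (R, y)), (f (R, x), f (R, y)))) := by
      intro R x y hn
      rw [hPe]
      intro u z w g1 g2 g3 g4
      obtain ⟨m, a1, a2, a3⟩ := (hf1 (R, x)).1 hn
      obtain ⟨m', b1, b2, b3⟩ := (hf1 (R, y)).1 hn
      have l1 := a3 _ g1
      have l2 := a2 _ g2
      have l3 := b3 _ g3
      have l4 := b2 _ g4
      have t1 := hρ.tri x z w
      have t2 := hρ.tri z y w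
      have t3 := hρ.tri u x y
      have t4 := hρ.tri x z y
      have p1 := hq.pos m.succ.succ
      have p2 := hq.pos m'.succ.succ
      dsimp only at l1 l2 l3 l4
      rcases le_total m m' with hmm | hmm
      · have s1 := hq.anti hr (INat.succ_le_iff.2 (INat.lt_succ_iff.2
          (INat.succ_le_iff.2 (INat.lt_succ_iff.2 hmm))))
        have s2 := hq.succ m
        have s3 := hq.succ m.succ
        refine a1 _ _ ?_ ?_
        · dsimp only
          linarith
        · dsimp only
          linarith
      · have s1 := hq.anti hr (INat.succ_le_iff.2 (INat.lt_succ_iff.2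
          (INat.succ_le_iff.2 (INat.lt_succ_iff.2 hmm))))
        have s2 := hq.succ m'
        have s3 := hq.succ m'.succ
        refine b1 _ _ ?_ ?_
        · dsimp only
          linarith
        · dsimp only
          linarith
    rintro ⟨R, x⟩ ⟨R', y⟩ hRR hn
    dsimp only at hRR hn
    subst hRR
    exact ⟨key R x y hn, key R y x hn⟩
  have hI : Int N (fun c : (El j × IPow N (α × α)) × (α × α) =>
      ∃ x, D2 (c.1.1, (x, c.2.1)) < q (H (c.1.1, (c.1.2, x))) ∧
        D1 (c.1.1, (x, c.2.2)) < q (H (c.1.1, (c.1.2, x)))) := by (repeat' (first | with_reducible apply memPE | with_reducible apply memPE' | with_reducible apply memPE'' | with_reducible apply memCode | with_reducible apply memCodeP | with_reducible apply memCode₂ | with_reducible apply eqPE | with_reducible apply eqPE' | with_reducible exact IntF.id | with_reducible exact IntF.fst' | with_reducible exact IntF.snd' | with_reducible exact IntF.const _ | with_reducible exact Int.const _ | assumption | with_reducible apply Int.and | with_reducible apply Int.or | with_reducible apply Int.not | with_reducible apply Int.imp | with_reducible apply Int.iff | with_reducible apply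 Int.ne | with_reducible apply Int.eq | with_reducible apply Int.mem | with_reducible apply Int.subset | with_reducible apply Int.ltN | with_reducible apply Int.leN | with_reducible_and_instances apply Int.le | with_reducible_and_instances apply Int.lt | with_reducible apply Int.all | with_reducible apply Int.ex | with_reducible apply IntF.fst | with_reducible apply IntF.snd | with_reducible apply IntF.app | with_reducible apply IntF.inl | with_reducible apply IntF.inr | with_reducible_and_instances apply IntF.mul | with_reducible_and_instances apply IntF.inv | with_reducible_and_instances apply IntF.add | with_reducible_and_instances apply IntF.sub | with_reducible_and_instances apply IntF.neg | with_reducible_and_instances apply IntF.smul | with_reducible apply Int.fin | with_reducible apply IntF.sep | with_reducible apply IntF.lam | with_reducible apply IntF.insert | with_reducible apply IntF.singleton | with_reducible apply IntF.union | with_reducible apply IntF.iimage | with_reducible apply IntF.ite | with_reducible apply IntF.the | with_reducible apply IntF.irec | with_reducible apply IntF.succ | with_reducible apply IntF.val |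 with_reducible apply IntF.mk | (with_reducible refine Int.comp ?_ ?_; assumption) | (with_reducible refine Int.comp₂ ?_ ?_ ?_; assumption) | (with_reducible refine Int.comp₃ ?_ ?_ ?_ ?_; assumption) | (with_reducible refine Int.comp₄ ?_ ?_ ?_ ?_ ?_; assumption) | (with_reducible refine IntF.comp ?_ ?_; assumption) | (with_reducible refine IntF.comp₂ ?_ ?_ ?_; assumption) | (with_reducible refine IntF.comp₃ ?_ ?_ ?_ ?_; assumption) | with_reducible apply IntF.pair))
  have hI' : ∀ (i : El j) (R : IPow N (α × α)), Int N (fun c : α × α =>
      ∃ x, D2 (i, (x, c.1)) < q (H (i, (R, x))) ∧ D1 (i, (x, c.2)) < q (H (i, (R, x)))) := by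
    intro i R
    (repeat' (first | with_reducible apply memPE | with_reducible apply memPE' | with_reducible apply memPE'' | with_reducible apply memCode | with_reducible apply memCodeP | with_reducible apply memCode₂ | with_reducible apply eqPE | with_reducible apply eqPE' | with_reducible exact IntF.id | with_reducible exact IntF.fst' | with_reducible exact IntF.snd' | with_reducible exact IntF.const _ | with_reducible exact Int.const _ | assumption | with_reducible apply Int.and | with_reducible apply Int.or | with_reducible apply Int.not | with_reducible apply Int.imp | with_reducible apply Int.iff | with_reducible apply Int.ne | with_reducible apply Int.eq | with_reducible apply Int.mem | with_reducible apply Int.subset | with_reducible apply Int.ltN | with_reducible apply Int.leN | with_reducible_and_instances apply Int.le | with_reducible_and_instances apply Int.lt | with_reducible apply Int.all | with_reducible apply Int.ex | with_reducible apply IntF.fst | with_reducible apply IntF.snd | with_reducible apply IntF.app | with_reducible apply IntF.inl | with_reducible apply IntF.inr | with_reducible_and_instances apply IntF.mul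 | with_reducible_and_instances apply IntF.inv | with_reducible_and_instances apply IntF.add | with_reducible_and_instances apply IntF.sub | with_reducible_and_instances apply IntF.neg | with_reducible_and_instances apply IntF.smul | with_reducible apply Int.fin | with_reducible apply IntF.sep | with_reducible apply IntF.lam | with_reducible apply IntF.insert | with_reducible apply IntF.singleton | with_reducible apply IntF.union | with_reducible apply IntF.iimage | with_reducible apply IntF.ite | with_reducible apply IntF.the | with_reducible apply IntF.irec | with_reducible apply IntF.succ | with_reducible apply IntF.val | with_reducible apply IntF.mk | (with_reducible refine Int.comp ?_ ?_; assumption) | (with_reducible refine Int.comp₂ ?_ ?_ ?_; assumption) | (with_reducible refine Int.comp₃ ?_ ?_ ?_ ?_; assumption) | (with_reducible refine Int.comp₄ ?_ ?_ ?_ ?_ ?_; assumption) | (with_reducible refine IntF.comp ?_ ?_; assumption) | (with_reducible refine IntF.comp₂ ?_ ?_ ?_; assumption) | (with_reducible refine IntF.comp₃ ?_ ?_ ?_ ?_; assumption) | with_reducible apply IntF.pair))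
  refine ⟨fun b => sep N fun c : α × α =>
      ∃ x, D2 (b.1, (x, c.1)) < q (H (b.1, (b.2, x))) ∧ D1 (b.1, (x, c.2)) < q (H (b.1, (b.2, x))),
    IntF.sep hI, fun i R x => ⟨H (i, (R, x)), fun u z h1 h2 => ?_⟩, fun i R hn u z w h1 h2 => ?_⟩
  · exact (mem_sep (hI' i R)).2 ⟨x, h1, h2⟩
  · obtain ⟨x, g1, g2⟩ := (mem_sep (hI' i R)).1 h1
    obtain ⟨y, g3, g4⟩ := (mem_sep (hI' i R)).1 h2
    exact (hPe _ _ _ _ _ _ _).1 (hH1 i (R, x) (R, y) rfl hn).1 u z w g1 g2 g3 g4

include hr hc hj in
/-- **Canonical quasi-uniformities.** -/
theorem exists_base {O1 O2 : El j × IPow N α → Prop} (hO1 : Int N O1) (hO2 : Int N O2)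
    (hb : ∀ i, ∃ ρ : α × α → El r, QD (fun U => O1 (i, U)) ρ ∧
      QD (fun U => O2 (i, U)) (fun p => ρ (p.2, p.1))) :
    ∃ W : El j × (INat N × (α × α)) → Prop, Int N W ∧ ∀ i, (∀ a b, W (i, (0, (a, b)))) ∧
      (∀ n a, W (i, (n, (a, a)))) ∧
      (∀ n a b c e, W (i, (n.succ, (a, b))) → W (i, (n.succ, (b, c))) → W (i, (n.succ, (c, e))) →
        W (i, (n, (a, e)))) ∧
      (∀ a b, (∀ n, W (i, (n, (a, b)))) → a = b) ∧
      (∀ U, O1 (i, U) ↔ ∀ a, a ∈ U → ∃ n, ∀ b, W (i, (n, (a, b))) → b ∈ U) ∧
      ∀ U, O2 (i, U) ↔ ∀ a, a ∈ U → ∃ n, ∀ b, W (i, (n, (b, a))) → b ∈ U := by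
  obtain ⟨q, hq⟩ := exists_hs hr
  have hlt := int_lt hr
  have hqi := hq.int
  obtain ⟨D1, hD1, hQ1⟩ := ucp hr hc hj hO1 fun i => (hb i).imp fun ρ h => h.1
  obtain ⟨D2, hD2, hQ2⟩ := ucp hr hc hj hO2 fun i => by
    obtain ⟨ρ, h1, h2⟩ := hb i
    exact ⟨_, h2⟩
  have hCR : ∀ i, ∃ ρ : α × α → El r, CR q (fun p => D1 (i, p)) (fun p => D2 (i, p)) ρ := fun i => by
    obtain ⟨ρ, h1, h2⟩ := hb i
    exact ⟨ρ, CR.of (hQ1 i) (hQ2 i) h1 h2 hq hr⟩
  obtain ⟨H, hH, hH1⟩ := exists_V hq hr hc hj hD1 hD2 hCR
  obtain ⟨Φ, hΦ, hΦ0, hΦ1⟩ := exists_Phi hq hr hc hj hD1 hD2 hCR
  have s1 : ∀ i a, D1 (i, (a, a)) = 0 := fun i a => (hQ1 i).self a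
  have s2 : ∀ i a, D2 (i, (a, a)) = 0 := fun i a => (hQ2 i).self a
  have hrefl : ∀ i R, Nb q D1 D2 (i, R) → ∀ a, (a, a) ∈ R := by
    intro i R hn a
    obtain ⟨k, hk⟩ := hn a
    exact hk a a (by rw [s2]; exact hq.pos _) (by rw [s1]; exact hq.pos _)
  -- the intersection with the relation `V`
  obtain ⟨J, hJ, hJ1⟩ : ∃ J : (El j × INat N) × IPow N (α × α) → IPow N (α × α), IntF N J ∧
      ∀ i n R u z, (u, z) ∈ J ((i, n), R) ↔ (u, z) ∈ R ∧ ∃ x,
        D2 (i, (x, u)) < q (H (i, (x, n))) ∧ D1 (i, (x, z)) < q (H (i, (x, n))) := by
    have hI : Int N (fun c : ((El j × INat N) × IPow N (α × α)) × (α × α) => c.2 ∈ c.1.2 ∧ ∃ x,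
        D2 (c.1.1.1, (x, c.2.1)) < q (H (c.1.1.1, (x, c.1.1.2))) ∧
          D1 (c.1.1.1, (x, c.2.2)) < q (H (c.1.1.1, (x, c.1.1.2)))) := by (repeat' (first | with_reducible apply memPE | with_reducible apply memPE' | with_reducible apply memPE'' | with_reducible apply memCode | with_reducible apply memCodeP | with_reducible apply memCode₂ | with_reducible apply eqPE | with_reducible apply eqPE' | with_reducible exact IntF.id | with_reducible exact IntF.fst' | with_reducible exact IntF.snd' | with_reducible exact IntF.const _ | with_reducible exact Int.const _ | assumption | with_reducible apply Int.and | with_reducible apply Int.or | with_reducible apply Int.not | with_reducible apply Int.imp | with_reducible apply Int.iff | with_reducible apply Int.ne | with_reducible apply Int.eq | with_reducible apply Int.mem | with_reducible apply Int.subset | with_reducible apply Int.ltN | with_reducible apply Int.leN | with_reducible_and_instances apply Int.le | with_reducible_and_instances apply Int.lt | with_reducible apply Int.all | with_reducible apply Int.ex | with_reducible apply IntF.fst | with_reducible apply IntF.snd | with_reducible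 apply IntF.app | with_reducible apply IntF.inl | with_reducible apply IntF.inr | with_reducible_and_instances apply IntF.mul | with_reducible_and_instances apply IntF.inv | with_reducible_and_instances apply IntF.add | with_reducible_and_instances apply IntF.sub | with_reducible_and_instances apply IntF.neg | with_reducible_and_instances apply IntF.smul | with_reducible apply Int.fin | with_reducible apply IntF.sep | with_reducible apply IntF.lam | with_reducible apply IntF.insert | with_reducible apply IntF.singleton | with_reducible apply IntF.union | with_reducible apply IntF.iimage | with_reducible apply IntF.ite | with_reducible apply IntF.the | with_reducible apply IntF.irec | with_reducible apply IntF.succ | with_reducible apply IntF.val | with_reducible apply IntF.mk | (with_reducible refine Int.comp ?_ ?_; assumption) | (with_reducible refine Int.comp₂ ?_ ?_ ?_; assumption) | (with_reducible refine Int.comp₃ ?_ ?_ ?_ ?_; assumption) | (with_reducible refine Int.comp₄ ?_ ?_ ?_ ?_ ?_; assumption) | (with_reducible refine IntF.comp ?_ ?_; assumption) | (with_reducible refine IntF.comp₂ ?_ ?_ ?_; assumption) | (with_reducible refine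 IntF.comp₃ ?_ ?_ ?_ ?_; assumption) | with_reducible apply IntF.pair))
    refine ⟨fun b => sep N fun c : α × α => c ∈ b.2 ∧ ∃ x,
        D2 (b.1.1, (x, c.1)) < q (H (b.1.1, (x, b.1.2))) ∧
          D1 (b.1.1, (x, c.2)) < q (H (b.1.1, (x, b.1.2))), IntF.sep hI, fun i n R u z => ?_⟩
    exact mem_sep (Int.slice (p := fun (b : (El j × INat N) × IPow N (α × α)) (c : α × α) =>
      c ∈ b.2 ∧ ∃ x, D2 (b.1.1, (x, c.1)) < q (H (b.1.1, (x, b.1.2))) ∧
          D1 (b.1.1, (x, c.2)) < q (H (b.1.1, (x, b.1.2)))) hI ((i, n), R))
  have hJN : ∀ i n R, Nb q D1 D2 (i, R) → Nb q D1 D2 (i, J ((i, n), R)) := by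
    intro i n R hn x
    obtain ⟨k, hk⟩ := hn x
    refine ⟨max k (H (i, (x, n))), fun u z h1 h2 => (hJ1 _ _ _ _ _).2 ⟨hk u z ?_ ?_, x, ?_, ?_⟩⟩
    · exact h1.trans_le (hq.anti hr (le_max_left _ _))
    · exact h2.trans_le (hq.anti hr (le_max_left _ _))
    · exact h1.trans_le (hq.anti hr (le_max_right _ _))
    · exact h2.trans_le (hq.anti hr (le_max_right _ _))
  have hZ : IntF N (fun c : El j × INat N => irec (sep N fun _ : α × α => True)
      (fun n R => Φ (c.1, Φ (c.1, J ((c.1, n), R)))) c.2) := by (repeat' (first | with_reducible apply memPE | with_reducible apply memPE' | with_reducible apply memPE'' | with_reducible apply memCode | with_reducible apply memCodeP | with_reducible apply memCode₂ | with_reducible apply eqPE | with_reducible apply eqPE' | with_reducible exact IntF.id | with_reducible exact IntF.fst' | with_reducible exact IntF.snd' | with_reducible exact IntF.const _ | with_reducible exact Int.const _ | assumption | with_reducible apply Int.and | with_reducible apply Int.or | with_reducible apply Int.not | with_reducible apply Int.imp | with_reducible apply Int.iff | with_reducible apply Int.ne | with_reducible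 apply Int.eq | with_reducible apply Int.mem | with_reducible apply Int.subset | with_reducible apply Int.ltN | with_reducible apply Int.leN | with_reducible_and_instances apply Int.le | with_reducible_and_instances apply Int.lt | with_reducible apply Int.all | with_reducible apply Int.ex | with_reducible apply IntF.fst | with_reducible apply IntF.snd | with_reducible apply IntF.app | with_reducible apply IntF.inl | with_reducible apply IntF.inr | with_reducible_and_instances apply IntF.mul | with_reducible_and_instances apply IntF.inv | with_reducible_and_instances apply IntF.add | with_reducible_and_instances apply IntF.sub | with_reducible_and_instances apply IntF.neg | with_reducible_and_instances apply IntF.smul | with_reducible apply Int.fin | with_reducible apply IntF.sep | with_reducible apply IntF.lam | with_reducible apply IntF.insert | with_reducible apply IntF.singleton | with_reducible apply IntF.union | with_reducible apply IntF.iimage | with_reducible apply IntF.ite | with_reducible apply IntF.the | with_reducible apply IntF.irec | with_reducible apply IntF.succ | with_reducible apply IntF.val | with_reducible apply IntF.mk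 | (with_reducible refine Int.comp ?_ ?_; assumption) | (with_reducible refine Int.comp₂ ?_ ?_ ?_; assumption) | (with_reducible refine Int.comp₃ ?_ ?_ ?_ ?_; assumption) | (with_reducible refine Int.comp₄ ?_ ?_ ?_ ?_ ?_; assumption) | (with_reducible refine IntF.comp ?_ ?_; assumption) | (with_reducible refine IntF.comp₂ ?_ ?_ ?_; assumption) | (with_reducible refine IntF.comp₃ ?_ ?_ ?_ ?_; assumption) | with_reducible apply IntF.pair))
  obtain ⟨Z, hZI, hZ0, hZs⟩ : ∃ Z : El j × INat N → IPow N (α × α), IntF N Z ∧
      (∀ i a b, (a, b) ∈ Z (i, 0)) ∧ ∀ i n, Z (i, n.succ) = Φ (i, Φ (i, J ((i, n), Z (i, n)))) := by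
    refine ⟨_, hZ, fun i a b => ?_, fun i n => irec_succ (by (repeat' (first | with_reducible apply memPE | with_reducible apply memPE' | with_reducible apply memPE'' | with_reducible apply memCode | with_reducible apply memCodeP | with_reducible apply memCode₂ | with_reducible apply eqPE | with_reducible apply eqPE' | with_reducible exact IntF.id | with_reducible exact IntF.fst' | with_reducible exact IntF.snd' | with_reducible exact IntF.const _ | with_reducible exact Int.const _ | assumption | with_reducible apply Int.and | with_reducible apply Int.or | with_reducible apply Int.not | with_reducible apply Int.imp | with_reducible apply Int.iff | with_reducible apply Int.ne | with_reducible apply Int.eq | with_reducible apply Int.mem | with_reducible apply Int.subset | with_reducible apply Int.ltN | with_reducible apply Int.leN | with_reducible_and_instances apply Int.le | with_reducible_and_instances apply Int.lt | with_reducible apply Int.all | with_reducible apply Int.ex | with_reducible apply IntF.fst | with_reducible apply IntF.snd | with_reducible apply IntF.app | with_reducible apply IntF.inl | with_reducible apply IntF.inr |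 with_reducible_and_instances apply IntF.mul | with_reducible_and_instances apply IntF.inv | with_reducible_and_instances apply IntF.add | with_reducible_and_instances apply IntF.sub | with_reducible_and_instances apply IntF.neg | with_reducible_and_instances apply IntF.smul | with_reducible apply Int.fin | with_reducible apply IntF.sep | with_reducible apply IntF.lam | with_reducible apply IntF.insert | with_reducible apply IntF.singleton | with_reducible apply IntF.union | with_reducible apply IntF.iimage | with_reducible apply IntF.ite | with_reducible apply IntF.the | with_reducible apply IntF.irec | with_reducible apply IntF.succ | with_reducible apply IntF.val | with_reducible apply IntF.mk | (with_reducible refine Int.comp ?_ ?_; assumption) | (with_reducible refine Int.comp₂ ?_ ?_ ?_; assumption) | (with_reducible refine Int.comp₃ ?_ ?_ ?_ ?_; assumption) | (with_reducible refine Int.comp₄ ?_ ?_ ?_ ?_ ?_; assumption) | (with_reducible refine IntF.comp ?_ ?_; assumption) | (with_reducible refine IntF.comp₂ ?_ ?_ ?_; assumption) | (with_reducible refine IntF.comp₃ ?_ ?_ ?_ ?_; assumption) | with_reducible apply IntF.pair))) n⟩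
    change (a, b) ∈ irec (sep N fun _ : α × α => True)
      (fun n R => Φ (i, Φ (i, J ((i, n), R)))) 0
    rw [irec_zero (by (repeat' (first | with_reducible apply memPE | with_reducible apply memPE' | with_reducible apply memPE'' | with_reducible apply memCode | with_reducible apply memCodeP | with_reducible apply memCode₂ | with_reducible apply eqPE | with_reducible apply eqPE' | with_reducible exact IntF.id | with_reducible exact IntF.fst' | with_reducible exact IntF.snd' | with_reducible exact IntF.const _ | with_reducible exact Int.const _ | assumption | with_reducible apply Int.and | with_reducible apply Int.or | with_reducible apply Int.not | with_reducible apply Int.imp | with_reducible apply Int.iff | with_reducible apply Int.ne | with_reducible apply Int.eq | with_reducible apply Int.mem | with_reducible apply Int.subset | with_reducible apply Int.ltN | with_reducible apply Int.leN | with_reducible_and_instances apply Int.le | with_reducible_and_instances apply Int.lt | with_reducible apply Int.all | with_reducible apply Int.ex | with_reducible apply IntF.fst | with_reducible apply IntF.snd | with_reducible apply IntF.app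 | with_reducible apply IntF.inl | with_reducible apply IntF.inr | with_reducible_and_instances apply IntF.mul | with_reducible_and_instances apply IntF.inv | with_reducible_and_instances apply IntF.add | with_reducible_and_instances apply IntF.sub | with_reducible_and_instances apply IntF.neg | with_reducible_and_instances apply IntF.smul | with_reducible apply Int.fin | with_reducible apply IntF.sep | with_reducible apply IntF.lam | with_reducible apply IntF.insert | with_reducible apply IntF.singleton | with_reducible apply IntF.union | with_reducible apply IntF.iimage | with_reducible apply IntF.ite | with_reducible apply IntF.the | with_reducible apply IntF.irec | with_reducible apply IntF.succ | with_reducible apply IntF.val | with_reducible apply IntF.mk | (with_reducible refine Int.comp ?_ ?_; assumption) | (with_reducible refine Int.comp₂ ?_ ?_ ?_; assumption) | (with_reducible refine Int.comp₃ ?_ ?_ ?_ ?_; assumption) | (with_reducible refine Int.comp₄ ?_ ?_ ?_ ?_ ?_; assumption) | (with_reducible refine IntF.comp ?_ ?_; assumption) | (with_reducible refine IntF.comp₂ ?_ ?_ ?_; assumption) | (with_reducible refine IntF.comp₃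 ?_ ?_ ?_ ?_; assumption) | with_reducible apply IntF.pair)))]
    exact (mem_sep (Int.const True)).2 trivial
  have hZN : ∀ i n, Nb q D1 D2 (i, Z (i, n)) := by
    intro i n
    rcases INat.eq_zero_or_succ n with rfl | ⟨m, rfl⟩
    · exact fun x => ⟨0, fun u z _ _ => hZ0 i u z⟩
    · rw [hZs]
      exact hΦ0 _ _
  have hstep : ∀ i n a b c e, (a, b) ∈ Z (i, n.succ) → (b, c) ∈ Z (i, n.succ) →
      (c, e) ∈ Z (i, n.succ) → (a, e) ∈ J ((i, n), Z (i, n)) := by
    intro i n a b c e h1 h2 h3
    rw [hZs] at h1 h2 h3
    have n1 := hJN i n _ (hZN i n)
    have n2 := hΦ0 i (J ((i, n), Z (i, n)))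
    have g1 := hΦ1 i _ n2 a b c h1 h2
    have g2 := hΦ1 i _ n2 c e e h3 (hrefl i _ (hΦ0 _ _) e)
    exact hΦ1 i _ n1 a c e g1 g2
  have hdn : ∀ i n a b, (a, b) ∈ Z (i, n.succ) → (a, b) ∈ J ((i, n), Z (i, n)) :=
    fun i n a b h1 => hstep i n a a a b (hrefl i _ (hZN _ _) a) (hrefl i _ (hZN _ _) a) h1
  have hV1 : ∀ i a m b, (a, b) ∈ Z (i, (H (i, (a, m))).succ) → D1 (i, (a, b)) < q m := by
    intro i a m b h1
    obtain ⟨-, x, g1, g2⟩ := (hJ1 _ _ _ _ _).1 (hdn _ _ _ _ h1)
    exact (hH1 i x (H (i, (a, m))) a m le_rfl b).1 g1 g2
  have hV2 : ∀ i a m b, (b, a) ∈ Z (i, (H (i, (a, m))).succ) → D2 (i, (a, b)) < q m := by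
    intro i a m b h1
    obtain ⟨-, x, g1, g2⟩ := (hJ1 _ _ _ _ _).1 (hdn _ _ _ _ h1)
    exact (hH1 i x (H (i, (a, m))) a m le_rfl b).2 g1 g2
  refine ⟨fun c => c.2.2 ∈ Z (c.1, c.2.1), by (repeat' (first | with_reducible apply memPE | with_reducible apply memPE' | with_reducible apply memPE'' | with_reducible apply memCode | with_reducible apply memCodeP | with_reducible apply memCode₂ | with_reducible apply eqPE | with_reducible apply eqPE' | with_reducible exact IntF.id | with_reducible exact IntF.fst' | with_reducible exact IntF.snd' | with_reducible exact IntF.const _ | with_reducible exact Int.const _ | assumption | with_reducible apply Int.and | with_reducible apply Int.or | with_reducible apply Int.not | with_reducible apply Int.imp | with_reducible apply Int.iff | with_reducible apply Int.ne | with_reducible apply Int.eq | with_reducible apply Int.mem | with_reducible apply Int.subset | with_reducible apply Int.ltN | with_reducible apply Int.leN | with_reducible_and_instances apply Int.le | with_reducible_and_instances apply Int.lt | with_reducible apply Int.all | with_reducible apply Int.ex | with_reducible apply IntF.fst |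 with_reducible apply IntF.snd | with_reducible apply IntF.app | with_reducible apply IntF.inl | with_reducible apply IntF.inr | with_reducible_and_instances apply IntF.mul | with_reducible_and_instances apply IntF.inv | with_reducible_and_instances apply IntF.add | with_reducible_and_instances apply IntF.sub | with_reducible_and_instances apply IntF.neg | with_reducible_and_instances apply IntF.smul | with_reducible apply Int.fin | with_reducible apply IntF.sep | with_reducible apply IntF.lam | with_reducible apply IntF.insert | with_reducible apply IntF.singleton | with_reducible apply IntF.union | with_reducible apply IntF.iimage | with_reducible apply IntF.ite | with_reducible apply IntF.the | with_reducible apply IntF.irec | with_reducible apply IntF.succ | with_reducible apply IntF.val | with_reducible apply IntF.mk | (with_reducible refine Int.comp ?_ ?_; assumption) | (with_reducible refine Int.comp₂ ?_ ?_ ?_; assumption) | (with_reducible refine Int.comp₃ ?_ ?_ ?_ ?_; assumption) | (with_reducible refine Int.comp₄ ?_ ?_ ?_ ?_ ?_; assumption) | (with_reducible refine IntF.comp ?_ ?_; assumption) | (with_reducible refine IntF.comp₂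 ?_ ?_ ?_; assumption) | (with_reducible refine IntF.comp₃ ?_ ?_ ?_ ?_; assumption) | with_reducible apply IntF.pair)), fun i => ⟨hZ0 i,
    fun n a => hrefl i _ (hZN i n) a, fun n a b c e h1 h2 h3 =>
      ((hJ1 _ _ _ _ _).1 (hstep i n a b c e h1 h2 h3)).1, fun a b hab => ?_, fun U => ⟨?_, ?_⟩,
    fun U => ⟨?_, ?_⟩⟩⟩
  · refine (hQ1 i).sep a b (le_antisymm ?_ ((hQ1 i).nonneg a b))
    by_contra hcon
    obtain ⟨m, hm⟩ := hq.lim _ (not_le.1 hcon)
    exact absurd (hV1 i a m b (hab _)) (not_lt.2 hm.le)
  · intro hU a ha
    obtain ⟨ε, h1, h2⟩ := ((hQ1 i).top U).1 hU a ha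
    obtain ⟨m, hm⟩ := hq.lim ε h1
    exact ⟨_, fun b hb => h2 b ((hV1 i a m b hb).trans hm)⟩
  · intro hU
    refine ((hQ1 i).top U).2 fun a ha => ?_
    obtain ⟨n, hn⟩ := hU a ha
    obtain ⟨k, hk⟩ := hZN i n a
    exact ⟨q k, hq.pos k, fun b hb => hn b (hk a b (by rw [s2]; exact hq.pos _) hb)⟩
  · intro hU a ha
    obtain ⟨ε, h1, h2⟩ := ((hQ2 i).top U).1 hU a ha
    obtain ⟨m, hm⟩ := hq.lim ε h1
    exact ⟨_, fun b hb => h2 b ((hV2 i a m b hb).trans hm)⟩
  · intro hU
    refine ((hQ2 i).top U).2 fun a ha => ?_
    obtain ⟨n, hn⟩ := hU a ha
    obtain ⟨k, hk⟩ := hZN i n a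
    exact ⟨q k, hq.pos k, fun b hb => hn b (hk b a hb (by rw [s1]; exact hq.pos _))⟩

end

end Pool.Agent.Q257.ZQ
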