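import Pool.Agent.Q301.QM.Chain

/-!
# The metrization lemma for sequences of relations that are not symmetric, on an internal type
-/

set_option maxHeartbeats 1000000
set_option linter.all false
set_option synthInstance.maxSize 2000

namespace Pool.Agent.Q257.ZQ

open FirstOrder FirstOrder.Language
open Pool.Agent.Helper672.ZFA hiding Mem El IsOrdPair IsPair
open Pool.Agent.Helper672.Plain (LSet Mem El)
open Pool.Agent.Helper672.ZFA.H635 (toL)
open Pool.Agent.H635Amen (IsReals)
open Pool.Agent.H310 (instPEl)
open Pool.Agent.Q301.TM
open Pool.Agent.Q301.QM (HS)

universe u u₁

attribute [local instance] toL instPEl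

section

variable {N : Type u} [LSet.Structure N] [hM : IsModel N] {α : Type u} [ITy N α]
variable {r : N} [Field (El r)] [LinearOrder (El r)] [IsStrictOrderedRing (El r)]
variable {q : INat N → El r} (hq : HS q)

/-- A sequence of relations as in the metrization lemma. -/
structure US (U : INat N × (α × α) → Prop) : Prop where
  int : Int N U
  zero : ∀ a b, U (0, (a, b))
  refl : ∀ n a, U (n, (a, a))
  step : ∀ n a b c e, U (n.succ, (a, b)) → U (n.succ, (b, c)) → U (n.succ, (c, e)) → U (n, (a, e))
  sep : ∀ a b, (∀ n, U (n, (a, b))) → a = b

variable {U : INat N × (α × α) → Prop} (hU : US U)

include hU in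
theorem US.mono {m n : INat N} (h : m ≤ n) {a b : α} : U (n, (a, b)) → U (m, (a, b)) := by
  have hI := hU.int
  revert h
  refine INat.ind (p := fun n => m ≤ n → U (n, (a, b)) → U (m, (a, b))) (by (repeat' (first | with_reducible apply memPE | with_reducible apply memPE' | with_reducible apply memPE'' | with_reducible apply memCode | with_reducible apply memCodeP | with_reducible apply memCode₂ | with_reducible apply eqPE | with_reducible apply eqPE' | with_reducible exact IntF.id | with_reducible exact IntF.fst' | with_reducible exact IntF.snd' | with_reducible exact IntF.const _ | with_reducible exact Int.const _ | assumption | with_reducible apply Int.and | with_reducible apply Int.or | with_reducible apply Int.not | with_reducible apply Int.imp | with_reducible apply Int.iff | with_reducible apply Int.ne | with_reducible apply Int.eq | with_reducible apply Int.mem | with_reducible apply Int.subset | with_reducible apply Int.ltN | with_reducible apply Int.leN | with_reducible_and_instances apply Int.le | with_reducible_and_instances apply Int.lt | with_reducible apply Int.all | with_reducible apply Int.ex | with_reducible apply IntF.fst | with_reducible apply IntF.snd | with_reducible apply IntF.app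 | with_reducible apply IntF.inl | with_reducible apply IntF.inr | with_reducible_and_instances apply IntF.mul | with_reducible_and_instances apply IntF.inv | with_reducible_and_instances apply IntF.add | with_reducible_and_instances apply IntF.sub | with_reducible_and_instances apply IntF.neg | with_reducible_and_instances apply IntF.smul | with_reducible apply Int.fin | with_reducible apply IntF.sep | with_reducible apply IntF.lam | with_reducible apply IntF.insert | with_reducible apply IntF.singleton | with_reducible apply IntF.union | with_reducible apply IntF.iimage | with_reducible apply IntF.ite | with_reducible apply IntF.the | with_reducible apply IntF.irec | with_reducible apply IntF.succ | with_reducible apply IntF.val | with_reducible apply IntF.mk | (with_reducible refine Int.comp ?_ ?_; assumption) | (with_reducible refine Int.comp₂ ?_ ?_ ?_; assumption) | (with_reducible refine Int.comp₃ ?_ ?_ ?_ ?_; assumption) | (with_reducible refine Int.comp₄ ?_ ?_ ?_ ?_ ?_; assumption) | (with_reducible refine IntF.comp ?_ ?_; assumption) | (with_reducible refine IntF.comp₂ ?_ ?_ ?_; assumption) | (with_reducible refine IntF.comp₃ ?_ ?_ ?_ ?_; assumption) | with_reducible apply IntF.pair))) ?_ ?_ n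
  · intro h h1
    rcases h.lt_or_eq with h2 | rfl
    · exact absurd h2 INat.not_lt_zero
    · exact h1
  · intro n ih h h1
    rcases h.lt_or_eq with h2 | rfl
    · exact ih (INat.lt_succ_iff.1 h2) (hU.step n a a a b (hU.refl _ _) (hU.refl _ _) h1)
    · exact h1

/-- The value is at most `s`. -/
def Fl (q : INat N → El r) (U : INat N × (α × α) → Prop) (c : (α × α) × El r) : Prop :=
  0 ≤ c.2 ∧ ∀ n : INat N, ¬ U (n.succ, c.1) → q n ≤ c.2

include hq hU in
theorem int_Fl (hr : IsReals r) : Int N (Fl q U) := by
  have hle := int_le hr
  have hqi := hq.int
  have hI := hU.int
  unfold Fl
  (repeat' (first | with_reducible apply memPE | with_reducible apply memPE' | with_reducible apply memPE'' | with_reducible apply memCode | with_reducible apply memCodeP | with_reducible apply memCode₂ | with_reducible apply eqPE | with_reducible apply eqPE' | with_reducible exact IntF.id | with_reducible exact IntF.fst' | with_reducible exact IntF.snd' | with_reducible exact IntF.const _ | with_reducible exact Int.const _ | assumption | with_reducible apply Int.and | with_reducible apply Int.or | with_reducible apply Int.not | with_reducible apply Int.imp | with_reducible apply Int.iff | with_reducible apply Int.ne | with_reducible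 apply Int.eq | with_reducible apply Int.mem | with_reducible apply Int.subset | with_reducible apply Int.ltN | with_reducible apply Int.leN | with_reducible_and_instances apply Int.le | with_reducible_and_instances apply Int.lt | with_reducible apply Int.all | with_reducible apply Int.ex | with_reducible apply IntF.fst | with_reducible apply IntF.snd | with_reducible apply IntF.app | with_reducible apply IntF.inl | with_reducible apply IntF.inr | with_reducible_and_instances apply IntF.mul | with_reducible_and_instances apply IntF.inv | with_reducible_and_instances apply IntF.add | with_reducible_and_instances apply IntF.sub | with_reducible_and_instances apply IntF.neg | with_reducible_and_instances apply IntF.smul | with_reducible apply Int.fin | with_reducible apply IntF.sep | with_reducible apply IntF.lam | with_reducible apply IntF.insert | with_reducible apply IntF.singleton | with_reducible apply IntF.union | with_reducible apply IntF.iimage | with_reducible apply IntF.ite | with_reducible apply IntF.the | with_reducible apply IntF.irec | with_reducible apply IntF.succ | with_reducible apply IntF.val | with_reducible apply IntF.mk | (with_reducible refine Int.comp ?_ ?_; assumption) | (with_reducible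 refine Int.comp₂ ?_ ?_ ?_; assumption) | (with_reducible refine Int.comp₃ ?_ ?_ ?_ ?_; assumption) | (with_reducible refine Int.comp₄ ?_ ?_ ?_ ?_ ?_; assumption) | (with_reducible refine IntF.comp ?_ ?_; assumption) | (with_reducible refine IntF.comp₂ ?_ ?_ ?_; assumption) | (with_reducible refine IntF.comp₃ ?_ ?_ ?_ ?_; assumption) | with_reducible apply IntF.pair))

omit [IsStrictOrderedRing (El r)] in
theorem Fl.mono {a b : α} {s s' : El r} (h : Fl q U ((a, b), s)) (hs : s ≤ s') :
    Fl q U ((a, b), s') := ⟨h.1.trans hs, fun n hn => (h.2 n hn).trans hs⟩

include hU in
omit [IsStrictOrderedRing (El r)] in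
theorem Fl.self (a : α) : Fl q U ((a, a), 0) := ⟨le_rfl, fun n hn => absurd (hU.refl _ _) hn⟩

include hq hU in
theorem Fl.three {a b c e : α} {s : El r} (h1 : Fl q U ((a, b), s)) (h2 : Fl q U ((b, c), s))
    (h3 : Fl q U ((c, e), s)) : Fl q U ((a, e), s + s) := by
  refine ⟨add_nonneg h1.1 h1.1, fun n hn => ?_⟩
  have key : q n.succ ≤ s := by
    by_cases g1 : U (n.succ.succ, (a, b))
    · by_cases g2 : U (n.succ.succ, (b, c))
      · by_cases g3 : U (n.succ.succ, (c, e))
        · exact absurd (hU.step _ _ _ _ _ g1 g2 g3) hn
        · exact h3.2 _ g3
      · exact h2.2 _ g2
    · exact h1.2 _ g1
  have h4 := hq.succ n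
  change q n ≤ s + s
  linarith

include hq hU in
theorem Fl.one (hr : IsReals r) (a b : α) : Fl q U ((a, b), 1) :=
  ⟨zero_le_one, fun n _ => by
    have h := hq.anti hr (INat.zero_le n)
    rw [hq.zero] at h
    exact h⟩

include hq hU in
theorem Fl.of (hr : IsReals r) {n : INat N} {a b : α} (h : U (n, (a, b))) :
    Fl q U ((a, b), q n) :=
  ⟨(hq.pos n).le, fun k hk => hq.anti hr (by
    by_contra hc
    exact hk (hU.mono (INat.succ_le_iff.2 (not_le.1 hc)) h))⟩

/-- The step. -/
noncomputable def GS (q : INat N → El r) (U : INat N × (α × α) → Prop)
    (S : IPow N ((α × α) × El r)) : IPow N ((α × α) × El r) :=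
  sep N fun c => ∃ (d : α) (s s' : El r), ((c.1.1, d), s) ∈ S ∧ Fl q U ((d, c.1.2), s') ∧
    s + s' ≤ c.2

/-- The start. -/
noncomputable def G0 (N : Type u) [LSet.Structure N] [IsModel N] (α : Type u) [ITy N α] (r : N) [Field (El r)]
    [LinearOrder (El r)] : IPow N ((α × α) × El r) :=
  sep N fun c => c.1.1 = c.1.2 ∧ 0 ≤ c.2

/-- Chains. -/
def Ch (q : INat N → El r) (U : INat N × (α × α) → Prop)
    (c : INat N × ((α × α) × El r)) : Prop :=
  c.2 ∈ irec (G0 N α r) (fun _ S => GS q U S) c.1

include hq hU in
theorem int_GS (hr : IsReals r) : IntF N (fun S => GS q U S) := by
  have hle := int_le hr
  have ha := int_add hr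
  have hF := int_Fl hq hU hr
  unfold GS
  (repeat' (first | with_reducible apply memPE | with_reducible apply memPE' | with_reducible apply memPE'' | with_reducible apply memCode | with_reducible apply memCodeP | with_reducible apply memCode₂ | with_reducible apply eqPE | with_reducible apply eqPE' | with_reducible exact IntF.id | with_reducible exact IntF.fst' | with_reducible exact IntF.snd' | with_reducible exact IntF.const _ | with_reducible exact Int.const _ | assumption | with_reducible apply Int.and | with_reducible apply Int.or | with_reducible apply Int.not | with_reducible apply Int.imp | with_reducible apply Int.iff | with_reducible apply Int.ne | with_reducible apply Int.eq | with_reducible apply Int.mem | with_reducible apply Int.subset | with_reducible apply Int.ltN | with_reducible apply Int.leN | with_reducible_and_instances apply Int.le | with_reducible_and_instances apply Int.lt | with_reducible apply Int.all | with_reducible apply Int.ex | with_reducible apply IntF.fst | with_reducible apply IntF.snd | with_reducible apply IntF.app | with_reducible apply IntF.inl | with_reducible apply IntF.inr | with_reducible_and_instances apply IntF.mul | with_reducible_and_instances apply IntF.inv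 | with_reducible_and_instances apply IntF.add | with_reducible_and_instances apply IntF.sub | with_reducible_and_instances apply IntF.neg | with_reducible_and_instances apply IntF.smul | with_reducible apply Int.fin | with_reducible apply IntF.sep | with_reducible apply IntF.lam | with_reducible apply IntF.insert | with_reducible apply IntF.singleton | with_reducible apply IntF.union | with_reducible apply IntF.iimage | with_reducible apply IntF.ite | with_reducible apply IntF.the | with_reducible apply IntF.irec | with_reducible apply IntF.succ | with_reducible apply IntF.val | with_reducible apply IntF.mk | (with_reducible refine Int.comp ?_ ?_; assumption) | (with_reducible refine Int.comp₂ ?_ ?_ ?_; assumption) | (with_reducible refine Int.comp₃ ?_ ?_ ?_ ?_; assumption) | (with_reducible refine Int.comp₄ ?_ ?_ ?_ ?_ ?_; assumption) | (with_reducible refine IntF.comp ?_ ?_; assumption) | (with_reducible refine IntF.comp₂ ?_ ?_ ?_; assumption) | (with_reducible refine IntF.comp₃ ?_ ?_ ?_ ?_; assumption) | with_reducible apply IntF.pair))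

include hq hU in
theorem int_Ch (hr : IsReals r) : Int N (Ch q U) := by
  have h := int_GS hq hU hr
  unfold Ch
  (repeat' (first | with_reducible apply memPE | with_reducible apply memPE' | with_reducible apply memPE'' | with_reducible apply memCode | with_reducible apply memCodeP | with_reducible apply memCode₂ | with_reducible apply eqPE | with_reducible apply eqPE' | with_reducible exact IntF.id | with_reducible exact IntF.fst' | with_reducible exact IntF.snd' | with_reducible exact IntF.const _ | with_reducible exact Int.const _ | assumption | with_reducible apply Int.and | with_reducible apply Int.or | with_reducible apply Int.not | with_reducible apply Int.imp | with_reducible apply Int.iff | with_reducible apply Int.ne | with_reducible apply Int.eq | with_reducible apply Int.mem | with_reducible apply Int.subset | with_reducible apply Int.ltN | with_reducible apply Int.leN | with_reducible_and_instances apply Int.le | with_reducible_and_instances apply Int.lt | with_reducible apply Int.all | with_reducible apply Int.ex | with_reducible apply IntF.fst | with_reducible apply IntF.snd | with_reducible apply IntF.app | with_reducible apply IntF.inl | with_reducible apply IntF.inr | with_reducible_and_instances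 apply IntF.mul | with_reducible_and_instances apply IntF.inv | with_reducible_and_instances apply IntF.add | with_reducible_and_instances apply IntF.sub | with_reducible_and_instances apply IntF.neg | with_reducible_and_instances apply IntF.smul | with_reducible apply Int.fin | with_reducible apply IntF.sep | with_reducible apply IntF.lam | with_reducible apply IntF.insert | with_reducible apply IntF.singleton | with_reducible apply IntF.union | with_reducible apply IntF.iimage | with_reducible apply IntF.ite | with_reducible apply IntF.the | with_reducible apply IntF.irec | with_reducible apply IntF.succ | with_reducible apply IntF.val | with_reducible apply IntF.mk | (with_reducible refine Int.comp ?_ ?_; assumption) | (with_reducible refine Int.comp₂ ?_ ?_ ?_; assumption) | (with_reducible refine Int.comp₃ ?_ ?_ ?_ ?_; assumption) | (with_reducible refine Int.comp₄ ?_ ?_ ?_ ?_ ?_; assumption) | (with_reducible refine IntF.comp ?_ ?_; assumption) | (with_reducible refine IntF.comp₂ ?_ ?_ ?_; assumption) | (with_reducible refine IntF.comp₃ ?_ ?_ ?_ ?_; assumption) | with_reducible apply IntF.pair))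

include hq hU in
theorem Ch.zero (hr : IsReals r) {a b : α} {s : El r} :
    Ch q U (0, ((a, b), s)) ↔ a = b ∧ 0 ≤ s := by
  have h := int_GS hq hU hr
  have hle := int_le hr
  unfold Ch
  rw [irec_zero (by (repeat' (first | with_reducible apply memPE | with_reducible apply memPE' | with_reducible apply memPE'' | with_reducible apply memCode | with_reducible apply memCodeP | with_reducible apply memCode₂ | with_reducible apply eqPE | with_reducible apply eqPE' | with_reducible exact IntF.id | with_reducible exact IntF.fst' | with_reducible exact IntF.snd' | with_reducible exact IntF.const _ | with_reducible exact Int.const _ | assumption | with_reducible apply Int.and | with_reducible apply Int.or | with_reducible apply Int.not | with_reducible apply Int.imp | with_reducible apply Int.iff | with_reducible apply Int.ne | with_reducible apply Int.eq | with_reducible apply Int.mem | with_reducible apply Int.subset | with_reducible apply Int.ltN | with_reducible apply Int.leN | with_reducible_and_instances apply Int.le | with_reducible_and_instances apply Int.lt | with_reducible apply Int.all | with_reducible apply Int.ex | with_reducible apply IntF.fst | with_reducible apply IntF.snd | with_reducible apply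 IntF.app | with_reducible apply IntF.inl | with_reducible apply IntF.inr | with_reducible_and_instances apply IntF.mul | with_reducible_and_instances apply IntF.inv | with_reducible_and_instances apply IntF.add | with_reducible_and_instances apply IntF.sub | with_reducible_and_instances apply IntF.neg | with_reducible_and_instances apply IntF.smul | with_reducible apply Int.fin | with_reducible apply IntF.sep | with_reducible apply IntF.lam | with_reducible apply IntF.insert | with_reducible apply IntF.singleton | with_reducible apply IntF.union | with_reducible apply IntF.iimage | with_reducible apply IntF.ite | with_reducible apply IntF.the | with_reducible apply IntF.irec | with_reducible apply IntF.succ | with_reducible apply IntF.val | with_reducible apply IntF.mk | (with_reducible refine Int.comp ?_ ?_; assumption) | (with_reducible refine Int.comp₂ ?_ ?_ ?_; assumption) | (with_reducible refine Int.comp₃ ?_ ?_ ?_ ?_; assumption) | (with_reducible refine Int.comp₄ ?_ ?_ ?_ ?_ ?_; assumption) | (with_reducible refine IntF.comp ?_ ?_; assumption) | (with_reducible refine IntF.comp₂ ?_ ?_ ?_; assumption) | (with_reducible refine IntF.comp₃ ?_ ?_ ?_ ?_; assumption) | with_reducible apply IntF.pair)))]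
  exact mem_sep (p := fun c : (α × α) × El r => c.1.1 = c.1.2 ∧ 0 ≤ c.2) (by (repeat' (first | with_reducible apply memPE | with_reducible apply memPE' | with_reducible apply memPE'' | with_reducible apply memCode | with_reducible apply memCodeP | with_reducible apply memCode₂ | with_reducible apply eqPE | with_reducible apply eqPE' | with_reducible exact IntF.id | with_reducible exact IntF.fst' | with_reducible exact IntF.snd' | with_reducible exact IntF.const _ | with_reducible exact Int.const _ | assumption | with_reducible apply Int.and | with_reducible apply Int.or | with_reducible apply Int.not | with_reducible apply Int.imp | with_reducible apply Int.iff | with_reducible apply Int.ne | with_reducible apply Int.eq | with_reducible apply Int.mem | with_reducible apply Int.subset | with_reducible apply Int.ltN | with_reducible apply Int.leN | with_reducible_and_instances apply Int.le | with_reducible_and_instances apply Int.lt | with_reducible apply Int.all | with_reducible apply Int.ex | with_reducible apply IntF.fst | with_reducible apply IntF.snd | with_reducible apply IntF.app | with_reducible apply IntF.inl | with_reducible apply IntF.inr | with_reducible_and_instances apply IntF.mul | with_reducible_and_instances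 apply IntF.inv | with_reducible_and_instances apply IntF.add | with_reducible_and_instances apply IntF.sub | with_reducible_and_instances apply IntF.neg | with_reducible_and_instances apply IntF.smul | with_reducible apply Int.fin | with_reducible apply IntF.sep | with_reducible apply IntF.lam | with_reducible apply IntF.insert | with_reducible apply IntF.singleton | with_reducible apply IntF.union | with_reducible apply IntF.iimage | with_reducible apply IntF.ite | with_reducible apply IntF.the | with_reducible apply IntF.irec | with_reducible apply IntF.succ | with_reducible apply IntF.val | with_reducible apply IntF.mk | (with_reducible refine Int.comp ?_ ?_; assumption) | (with_reducible refine Int.comp₂ ?_ ?_ ?_; assumption) | (with_reducible refine Int.comp₃ ?_ ?_ ?_ ?_; assumption) | (with_reducible refine Int.comp₄ ?_ ?_ ?_ ?_ ?_; assumption) | (with_reducible refine IntF.comp ?_ ?_; assumption) | (with_reducible refine IntF.comp₂ ?_ ?_ ?_; assumption) | (with_reducible refine IntF.comp₃ ?_ ?_ ?_ ?_; assumption) | with_reducible apply IntF.pair)))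

include hq hU in
theorem Ch.succ (hr : IsReals r) {n : INat N} {a b : α} {s : El r} :
    Ch q U (n.succ, ((a, b), s)) ↔ ∃ (d : α) (s' s'' : El r), Ch q U (n, ((a, d), s')) ∧
      Fl q U ((d, b), s'') ∧ s' + s'' ≤ s := by
  have h := int_GS hq hU hr
  have hle := int_le hr
  have ha := int_add hr
  have hF := int_Fl hq hU hr
  unfold Ch
  rw [irec_succ (by (repeat' (first | with_reducible apply memPE | with_reducible apply memPE' | with_reducible apply memPE'' | with_reducible apply memCode | with_reducible apply memCodeP | with_reducible apply memCode₂ | with_reducible apply eqPE | with_reducible apply eqPE' | with_reducible exact IntF.id | with_reducible exact IntF.fst' | with_reducible exact IntF.snd' | with_reducible exact IntF.const _ | with_reducible exact Int.const _ | assumption | with_reducible apply Int.and | with_reducible apply Int.or | with_reducible apply Int.not | with_reducible apply Int.imp | with_reducible apply Int.iff | with_reducible apply Int.ne | with_reducible apply Int.eq | with_reducible apply Int.mem | with_reducible apply Int.subset | with_reducible apply Int.ltN | with_reducible apply Int.leN | with_reducible_and_instances apply Int.le | with_reducible_and_instances apply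 Int.lt | with_reducible apply Int.all | with_reducible apply Int.ex | with_reducible apply IntF.fst | with_reducible apply IntF.snd | with_reducible apply IntF.app | with_reducible apply IntF.inl | with_reducible apply IntF.inr | with_reducible_and_instances apply IntF.mul | with_reducible_and_instances apply IntF.inv | with_reducible_and_instances apply IntF.add | with_reducible_and_instances apply IntF.sub | with_reducible_and_instances apply IntF.neg | with_reducible_and_instances apply IntF.smul | with_reducible apply Int.fin | with_reducible apply IntF.sep | with_reducible apply IntF.lam | with_reducible apply IntF.insert | with_reducible apply IntF.singleton | with_reducible apply IntF.union | with_reducible apply IntF.iimage | with_reducible apply IntF.ite | with_reducible apply IntF.the | with_reducible apply IntF.irec | with_reducible apply IntF.succ | with_reducible apply IntF.val | with_reducible apply IntF.mk | (with_reducible refine Int.comp ?_ ?_; assumption) | (with_reducible refine Int.comp₂ ?_ ?_ ?_; assumption) | (with_reducible refine Int.comp₃ ?_ ?_ ?_ ?_; assumption) | (with_reducible refine Int.comp₄ ?_ ?_ ?_ ?_ ?_; assumption) | (with_reducible refine IntF.comp ?_ ?_; assumption)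 | (with_reducible refine IntF.comp₂ ?_ ?_ ?_; assumption) | (with_reducible refine IntF.comp₃ ?_ ?_ ?_ ?_; assumption) | with_reducible apply IntF.pair)))]
  exact mem_sep (by (repeat' (first | with_reducible apply memPE | with_reducible apply memPE' | with_reducible apply memPE'' | with_reducible apply memCode | with_reducible apply memCodeP | with_reducible apply memCode₂ | with_reducible apply eqPE | with_reducible apply eqPE' | with_reducible exact IntF.id | with_reducible exact IntF.fst' | with_reducible exact IntF.snd' | with_reducible exact IntF.const _ | with_reducible exact Int.const _ | assumption | with_reducible apply Int.and | with_reducible apply Int.or | with_reducible apply Int.not | with_reducible apply Int.imp | with_reducible apply Int.iff | with_reducible apply Int.ne | with_reducible apply Int.eq | with_reducible apply Int.mem | with_reducible apply Int.subset | with_reducible apply Int.ltN | with_reducible apply Int.leN | with_reducible_and_instances apply Int.le | with_reducible_and_instances apply Int.lt | with_reducible apply Int.all | with_reducible apply Int.ex | with_reducible apply IntF.fst | with_reducible apply IntF.snd | with_reducible apply IntF.app | with_reducible apply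 IntF.inl | with_reducible apply IntF.inr | with_reducible_and_instances apply IntF.mul | with_reducible_and_instances apply IntF.inv | with_reducible_and_instances apply IntF.add | with_reducible_and_instances apply IntF.sub | with_reducible_and_instances apply IntF.neg | with_reducible_and_instances apply IntF.smul | with_reducible apply Int.fin | with_reducible apply IntF.sep | with_reducible apply IntF.lam | with_reducible apply IntF.insert | with_reducible apply IntF.singleton | with_reducible apply IntF.union | with_reducible apply IntF.iimage | with_reducible apply IntF.ite | with_reducible apply IntF.the | with_reducible apply IntF.irec | with_reducible apply IntF.succ | with_reducible apply IntF.val | with_reducible apply IntF.mk | (with_reducible refine Int.comp ?_ ?_; assumption) | (with_reducible refine Int.comp₂ ?_ ?_ ?_; assumption) | (with_reducible refine Int.comp₃ ?_ ?_ ?_ ?_; assumption) | (with_reducible refine Int.comp₄ ?_ ?_ ?_ ?_ ?_; assumption) | (with_reducible refine IntF.comp ?_ ?_; assumption) | (with_reducible refine IntF.comp₂ ?_ ?_ ?_; assumption) | (with_reducible refine IntF.comp₃ ?_ ?_ ?_ ?_; assumption) | with_reducible apply IntF.pair)))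

include hq hU in
theorem Ch.mono (hr : IsReals r) {n : INat N} {a b : α} {s s' : El r}
    (h : Ch q U (n, ((a, b), s))) (hs : s ≤ s') : Ch q U (n, ((a, b), s')) := by
  rcases INat.eq_zero_or_succ n with rfl | ⟨m, rfl⟩
  · obtain ⟨h1, h2⟩ := (Ch.zero hq hU hr).1 h
    exact (Ch.zero hq hU hr).2 ⟨h1, h2.trans hs⟩
  · obtain ⟨d, s1, s2, h1, h2, h3⟩ := (Ch.succ hq hU hr).1 h
    exact (Ch.succ hq hU hr).2 ⟨d, s1, s2, h1, h2, h3.trans hs⟩

include hq hU in
theorem Ch.nonneg (hr : IsReals r) {n : INat N} {a b : α} {s : El r} :
    Ch q U (n, ((a, b), s)) → 0 ≤ s := by
  have hC := int_Ch hq hU hr
  have hle := int_le hr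
  revert a b s
  refine INat.ind (p := fun n => ∀ {a b : α} {s : El r}, Ch q U (n, ((a, b), s)) → 0 ≤ s)
    (by (repeat' (first | with_reducible apply memPE | with_reducible apply memPE' | with_reducible apply memPE'' | with_reducible apply memCode | with_reducible apply memCodeP | with_reducible apply memCode₂ | with_reducible apply eqPE | with_reducible apply eqPE' | with_reducible exact IntF.id | with_reducible exact IntF.fst' | with_reducible exact IntF.snd' | with_reducible exact IntF.const _ | with_reducible exact Int.const _ | assumption | with_reducible apply Int.and | with_reducible apply Int.or | with_reducible apply Int.not | with_reducible apply Int.imp | with_reducible apply Int.iff | with_reducible apply Int.ne | with_reducible apply Int.eq | with_reducible apply Int.mem | with_reducible apply Int.subset | with_reducible apply Int.ltN | with_reducible apply Int.leN | with_reducible_and_instances apply Int.le | with_reducible_and_instances apply Int.lt | with_reducible apply Int.all | with_reducible apply Int.ex | with_reducible apply IntF.fst | with_reducible apply IntF.snd | with_reducible apply IntF.app | with_reducible apply IntF.inl | with_reducible apply IntF.inr | with_reducible_and_instances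 apply IntF.mul | with_reducible_and_instances apply IntF.inv | with_reducible_and_instances apply IntF.add | with_reducible_and_instances apply IntF.sub | with_reducible_and_instances apply IntF.neg | with_reducible_and_instances apply IntF.smul | with_reducible apply Int.fin | with_reducible apply IntF.sep | with_reducible apply IntF.lam | with_reducible apply IntF.insert | with_reducible apply IntF.singleton | with_reducible apply IntF.union | with_reducible apply IntF.iimage | with_reducible apply IntF.ite | with_reducible apply IntF.the | with_reducible apply IntF.irec | with_reducible apply IntF.succ | with_reducible apply IntF.val | with_reducible apply IntF.mk | (with_reducible refine Int.comp ?_ ?_; assumption) | (with_reducible refine Int.comp₂ ?_ ?_ ?_; assumption) | (with_reducible refine Int.comp₃ ?_ ?_ ?_ ?_; assumption) | (with_reducible refine Int.comp₄ ?_ ?_ ?_ ?_ ?_; assumption) | (with_reducible refine IntF.comp ?_ ?_; assumption) | (with_reducible refine IntF.comp₂ ?_ ?_ ?_; assumption) | (with_reducible refine IntF.comp₃ ?_ ?_ ?_ ?_; assumption) | with_reducible apply IntF.pair))) ?_ ?_ n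
  · intro a b s h
    exact ((Ch.zero hq hU hr).1 h).2
  · intro n ih a b s h
    obtain ⟨d, s1, s2, h1, h2, h3⟩ := (Ch.succ hq hU hr).1 h
    exact (add_nonneg (ih h1) h2.1).trans h3

include hq hU in
theorem Ch.len (hr : IsReals r) {n : INat N} {a b : α} {s : El r}
    (h : Ch q U (n, ((a, b), s))) : Ch q U (n.succ, ((a, b), s)) :=
  (Ch.succ hq hU hr).2 ⟨b, s, 0, h, Fl.self hU b, by rw [add_zero]⟩

include hq hU in
theorem Ch.lenz (hr : IsReals r) (n : INat N) {a : α} {s : El r} (hs : 0 ≤ s) :
    Ch q U (n, ((a, a), s)) := by
  have hC := int_Ch hq hU hr
  refine INat.ind (p := fun n => Ch q U (n, ((a, a), s))) (by (repeat' (first | with_reducible apply memPE | with_reducible apply memPE' | with_reducible apply memPE'' | with_reducible apply memCode | with_reducible apply memCodeP | with_reducible apply memCode₂ | with_reducible apply eqPE | with_reducible apply eqPE' | with_reducible exact IntF.id | with_reducible exact IntF.fst' | with_reducible exact IntF.snd' | with_reducible exact IntF.const _ | with_reducible exact Int.const _ | assumption | with_reducible apply Int.and | with_reducible apply Int.or | with_reducible apply Int.not | with_reducible apply Int.imp | with_reducible apply Int.iff |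 with_reducible apply Int.ne | with_reducible apply Int.eq | with_reducible apply Int.mem | with_reducible apply Int.subset | with_reducible apply Int.ltN | with_reducible apply Int.leN | with_reducible_and_instances apply Int.le | with_reducible_and_instances apply Int.lt | with_reducible apply Int.all | with_reducible apply Int.ex | with_reducible apply IntF.fst | with_reducible apply IntF.snd | with_reducible apply IntF.app | with_reducible apply IntF.inl | with_reducible apply IntF.inr | with_reducible_and_instances apply IntF.mul | with_reducible_and_instances apply IntF.inv | with_reducible_and_instances apply IntF.add | with_reducible_and_instances apply IntF.sub | with_reducible_and_instances apply IntF.neg | with_reducible_and_instances apply IntF.smul | with_reducible apply Int.fin | with_reducible apply IntF.sep | with_reducible apply IntF.lam | with_reducible apply IntF.insert | with_reducible apply IntF.singleton | with_reducible apply IntF.union | with_reducible apply IntF.iimage | with_reducible apply IntF.ite | with_reducible apply IntF.the | with_reducible apply IntF.irec | with_reducible apply IntF.succ | with_reducible apply IntF.val | with_reducible apply IntF.mk | (with_reducible refine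 Int.comp ?_ ?_; assumption) | (with_reducible refine Int.comp₂ ?_ ?_ ?_; assumption) | (with_reducible refine Int.comp₃ ?_ ?_ ?_ ?_; assumption) | (with_reducible refine Int.comp₄ ?_ ?_ ?_ ?_ ?_; assumption) | (with_reducible refine IntF.comp ?_ ?_; assumption) | (with_reducible refine IntF.comp₂ ?_ ?_ ?_; assumption) | (with_reducible refine IntF.comp₃ ?_ ?_ ?_ ?_; assumption) | with_reducible apply IntF.pair))) ?_ ?_ n
  · exact (Ch.zero hq hU hr).2 ⟨rfl, hs⟩
  · intro n ih
    exact ih.len hq hU hr

include hq hU in
theorem Ch.append (hr : IsReals r) {m : INat N} {a b : α} {s : El r}
    (h : Ch q U (m, ((a, b), s))) (n : INat N) : ∀ (c : α) (s' : El r),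
    Ch q U (n, ((b, c), s')) → ∃ k, Ch q U (k, ((a, c), s + s')) := by
  have hC := int_Ch hq hU hr
  have ha := int_add hr
  refine INat.ind (p := fun n => ∀ (c : α) (s' : El r),
    Ch q U (n, ((b, c), s')) → ∃ k, Ch q U (k, ((a, c), s + s'))) (by (repeat' (first | with_reducible apply memPE | with_reducible apply memPE' | with_reducible apply memPE'' | with_reducible apply memCode | with_reducible apply memCodeP | with_reducible apply memCode₂ | with_reducible apply eqPE | with_reducible apply eqPE' | with_reducible exact IntF.id | with_reducible exact IntF.fst' | with_reducible exact IntF.snd' | with_reducible exact IntF.const _ | with_reducible exact Int.const _ | assumption | with_reducible apply Int.and | with_reducible apply Int.or | with_reducible apply Int.not | with_reducible apply Int.imp | with_reducible apply Int.iff | with_reducible apply Int.ne | with_reducible apply Int.eq | with_reducible apply Int.mem | with_reducible apply Int.subset | with_reducible apply Int.ltN | with_reducible apply Int.leN | with_reducible_and_instances apply Int.le | with_reducible_and_instances apply Int.lt | with_reducible apply Int.all | with_reducible apply Int.ex | with_reducible apply IntF.fst | with_reducible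 apply IntF.snd | with_reducible apply IntF.app | with_reducible apply IntF.inl | with_reducible apply IntF.inr | with_reducible_and_instances apply IntF.mul | with_reducible_and_instances apply IntF.inv | with_reducible_and_instances apply IntF.add | with_reducible_and_instances apply IntF.sub | with_reducible_and_instances apply IntF.neg | with_reducible_and_instances apply IntF.smul | with_reducible apply Int.fin | with_reducible apply IntF.sep | with_reducible apply IntF.lam | with_reducible apply IntF.insert | with_reducible apply IntF.singleton | with_reducible apply IntF.union | with_reducible apply IntF.iimage | with_reducible apply IntF.ite | with_reducible apply IntF.the | with_reducible apply IntF.irec | with_reducible apply IntF.succ | with_reducible apply IntF.val | with_reducible apply IntF.mk | (with_reducible refine Int.comp ?_ ?_; assumption) | (with_reducible refine Int.comp₂ ?_ ?_ ?_; assumption) | (with_reducible refine Int.comp₃ ?_ ?_ ?_ ?_; assumption) | (with_reducible refine Int.comp₄ ?_ ?_ ?_ ?_ ?_; assumption) | (with_reducible refine IntF.comp ?_ ?_; assumption) | (with_reducible refine IntF.comp₂ ?_ ?_ ?_; assumption) | (with_reducible refine IntF.comp₃ ?_ ?_ ?_ ?_; assumption)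 | with_reducible apply IntF.pair))) ?_ ?_ n
  · intro c s' h1
    obtain ⟨rfl, h2⟩ := (Ch.zero hq hU hr).1 h1
    exact ⟨m, h.mono hq hU hr (by linarith)⟩
  · intro n ih c s' h1
    obtain ⟨d, s1, s2, h2, h3, h4⟩ := (Ch.succ hq hU hr).1 h1
    obtain ⟨k, hk⟩ := ih d s1 h2
    exact ⟨k.succ, (Ch.succ hq hU hr).2 ⟨d, s + s1, s2, hk, h3, by linarith⟩⟩

include hq hU in
theorem Ch.split (hr : IsReals r) (n : INat N) : ∀ (a b : α) (s : El r),
    Ch q U (n.succ, ((a, b), s)) → ∀ c : El r, 0 ≤ c → c ≤ s → ∃ (u v : α) (e : El r), c + e = s ∧
      Ch q U (n, ((a, u), c)) ∧ Fl q U ((u, v), s) ∧ Ch q U (n, ((v, b), e)) := by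
  have hC := int_Ch hq hU hr
  have ha := int_add hr
  have hle := int_le hr
  have hF := int_Fl hq hU hr
  refine INat.ind (p := fun n => ∀ (a b : α) (s : El r),
    Ch q U (n.succ, ((a, b), s)) → ∀ c : El r, 0 ≤ c → c ≤ s → ∃ (u v : α) (e : El r), c + e = s ∧
      Ch q U (n, ((a, u), c)) ∧ Fl q U ((u, v), s) ∧ Ch q U (n, ((v, b), e))) (by (repeat' (first | with_reducible apply memPE | with_reducible apply memPE' | with_reducible apply memPE'' | with_reducible apply memCode | with_reducible apply memCodeP | with_reducible apply memCode₂ | with_reducible apply eqPE | with_reducible apply eqPE' | with_reducible exact IntF.id | with_reducible exact IntF.fst' | with_reducible exact IntF.snd' | with_reducible exact IntF.const _ | with_reducible exact Int.const _ | assumption | with_reducible apply Int.and | with_reducible apply Int.or | with_reducible apply Int.not | with_reducible apply Int.imp | with_reducible apply Int.iff | with_reducible apply Int.ne | with_reducible apply Int.eq | with_reducible apply Int.mem | with_reducible apply Int.subset | with_reducible apply Int.ltN | with_reducible apply Int.leN | with_reducible_and_instances apply Int.le | with_reducible_and_instances apply Int.lt | with_reducible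 apply Int.all | with_reducible apply Int.ex | with_reducible apply IntF.fst | with_reducible apply IntF.snd | with_reducible apply IntF.app | with_reducible apply IntF.inl | with_reducible apply IntF.inr | with_reducible_and_instances apply IntF.mul | with_reducible_and_instances apply IntF.inv | with_reducible_and_instances apply IntF.add | with_reducible_and_instances apply IntF.sub | with_reducible_and_instances apply IntF.neg | with_reducible_and_instances apply IntF.smul | with_reducible apply Int.fin | with_reducible apply IntF.sep | with_reducible apply IntF.lam | with_reducible apply IntF.insert | with_reducible apply IntF.singleton | with_reducible apply IntF.union | with_reducible apply IntF.iimage | with_reducible apply IntF.ite | with_reducible apply IntF.the | with_reducible apply IntF.irec | with_reducible apply IntF.succ | with_reducible apply IntF.val | with_reducible apply IntF.mk | (with_reducible refine Int.comp ?_ ?_; assumption) | (with_reducible refine Int.comp₂ ?_ ?_ ?_; assumption) | (with_reducible refine Int.comp₃ ?_ ?_ ?_ ?_; assumption) | (with_reducible refine Int.comp₄ ?_ ?_ ?_ ?_ ?_; assumption) | (with_reducible refine IntF.comp ?_ ?_; assumption) | (with_reducible refine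 IntF.comp₂ ?_ ?_ ?_; assumption) | (with_reducible refine IntF.comp₃ ?_ ?_ ?_ ?_; assumption) | with_reducible apply IntF.pair))) ?_ ?_ n
  · intro a b s h c hc hcs
    obtain ⟨d, s1, s2, h2, h3, h4⟩ := (Ch.succ hq hU hr).1 h
    obtain ⟨rfl, h5⟩ := (Ch.zero hq hU hr).1 h2
    exact ⟨a, b, s - c, by linarith, (Ch.zero hq hU hr).2 ⟨rfl, hc⟩, h3.mono (by linarith),
      (Ch.zero hq hU hr).2 ⟨rfl, by linarith⟩⟩
  · intro n ih a b s h c hc hcs
    obtain ⟨d, s1, s2, h2, h3, h4⟩ := (Ch.succ hq hU hr).1 h
    have h2' := Ch.nonneg hq hU hr h2
    have h3' := h3.1
    replace h3' : 0 ≤ s2 := h3'
    rcases le_or_gt s1 c with h5 | h5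
    · exact ⟨d, b, s - c, by linarith, h2.mono hq hU hr h5, h3.mono (by linarith),
        Ch.lenz hq hU hr _ (by linarith)⟩
    · obtain ⟨u, v, e, h6, h7, h8, h9⟩ := ih a d s1 h2 c hc h5.le
      refine ⟨u, v, s - c, by linarith, h7.len hq hU hr, h8.mono (by linarith),
        (Ch.succ hq hU hr).2 ⟨d, e, s2, h9, h3, by linarith⟩⟩

include hq hU in
theorem Ch.frink (hr : IsReals r) (n : INat N) : ∀ (a b : α) (s : El r),
    Ch q U (n, ((a, b), s)) → Fl q U ((a, b), s + s) := by
  have hC := int_Ch hq hU hr
  have ha := int_add hr
  have hF := int_Fl hq hU hr
  refine INat.ind (p := fun n => ∀ (a b : α) (s : El r),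
    Ch q U (n, ((a, b), s)) → Fl q U ((a, b), s + s)) (by (repeat' (first | with_reducible apply memPE | with_reducible apply memPE' | with_reducible apply memPE'' | with_reducible apply memCode | with_reducible apply memCodeP | with_reducible apply memCode₂ | with_reducible apply eqPE | with_reducible apply eqPE' | with_reducible exact IntF.id | with_reducible exact IntF.fst' | with_reducible exact IntF.snd' | with_reducible exact IntF.const _ | with_reducible exact Int.const _ | assumption | with_reducible apply Int.and | with_reducible apply Int.or | with_reducible apply Int.not | with_reducible apply Int.imp | with_reducible apply Int.iff | with_reducible apply Int.ne | with_reducible apply Int.eq | with_reducible apply Int.mem | with_reducible apply Int.subset | with_reducible apply Int.ltN | with_reducible apply Int.leN | with_reducible_and_instances apply Int.le | with_reducible_and_instances apply Int.lt | with_reducible apply Int.all | with_reducible apply Int.ex | with_reducible apply IntF.fst | with_reducible apply IntF.snd | with_reducible apply IntF.app | with_reducible apply IntF.inl | with_reducible apply IntF.inr | with_reducible_and_instances apply IntF.mul | with_reducible_and_instances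 apply IntF.inv | with_reducible_and_instances apply IntF.add | with_reducible_and_instances apply IntF.sub | with_reducible_and_instances apply IntF.neg | with_reducible_and_instances apply IntF.smul | with_reducible apply Int.fin | with_reducible apply IntF.sep | with_reducible apply IntF.lam | with_reducible apply IntF.insert | with_reducible apply IntF.singleton | with_reducible apply IntF.union | with_reducible apply IntF.iimage | with_reducible apply IntF.ite | with_reducible apply IntF.the | with_reducible apply IntF.irec | with_reducible apply IntF.succ | with_reducible apply IntF.val | with_reducible apply IntF.mk | (with_reducible refine Int.comp ?_ ?_; assumption) | (with_reducible refine Int.comp₂ ?_ ?_ ?_; assumption) | (with_reducible refine Int.comp₃ ?_ ?_ ?_ ?_; assumption) | (with_reducible refine Int.comp₄ ?_ ?_ ?_ ?_ ?_; assumption) | (with_reducible refine IntF.comp ?_ ?_; assumption) | (with_reducible refine IntF.comp₂ ?_ ?_ ?_; assumption) | (with_reducible refine IntF.comp₃ ?_ ?_ ?_ ?_; assumption) | with_reducible apply IntF.pair))) ?_ ?_ n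
  · intro a b s h
    obtain ⟨rfl, h5⟩ := (Ch.zero hq hU hr).1 h
    exact (Fl.self hU a).mono (by linarith)
  · intro n ih a b s h
    have h0 := Ch.nonneg hq hU hr h
    obtain ⟨u, v, e, h1, h2, h3, h4⟩ := Ch.split hq hU hr n a b s h (s / 2) (by linarith)
      (by linarith)
    exact Fl.three hq hU ((ih _ _ _ h2).mono (by linarith)) h3 ((ih _ _ _ h4).mono (by linarith))

include hq hU in
/-- The metrization lemma. -/
theorem exists_dist (hr : IsReals r) : ∃ d : α → α → El r,
    IntF N (fun c : α × α => d c.1 c.2) ∧ (∀ a b, 0 ≤ d a b) ∧ (∀ a, d a a = 0) ∧
      (∀ a b c, d a c ≤ d a b + d b c) ∧ (∀ n a b, U (n, (a, b)) → d a b ≤ q n) ∧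
      ∀ (n : INat N) (a b : α), d a b < q n.succ → U (n.succ, (a, b)) := by
  have hC := int_Ch hq hU hr
  have hle := int_le hr
  let D : (α × α) → El r → Prop := fun c z =>
    (∀ (s : El r) (n : INat N), Ch q U (n, (c, s)) → z ≤ s) ∧
      ∀ z' : El r, (∀ (s : El r) (n : INat N), Ch q U (n, (c, s)) → z' ≤ s) → z' ≤ z
  have hD : Int N (fun p : (α × α) × El r => D p.1 p.2) := by
    change Int N (fun p : (α × α) × El r =>
      (∀ (s : El r) (n : INat N), Ch q U (n, (p.1, s)) → p.2 ≤ s) ∧
      ∀ z' : El r, (∀ (s : El r) (n : INat N), Ch q U (n, (p.1, s)) → z' ≤ s) → z' ≤ p.2)
    (repeat' (first | with_reducible apply memPE | with_reducible apply memPE' | with_reducible apply memPE'' | with_reducible apply memCode | with_reducible apply memCodeP | with_reducible apply memCode₂ | with_reducible apply eqPE | with_reducible apply eqPE' | with_reducible exact IntF.id | with_reducible exact IntF.fst' | with_reducible exact IntF.snd' | with_reducible exact IntF.const _ | with_reducible exact Int.const _ | assumption | with_reducible apply Int.and | with_reducible apply Int.or | with_reducible apply Int.not | with_reducible apply Int.imp | with_reducible apply Int.iff | with_reducible apply Int.ne | with_reducible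 apply Int.eq | with_reducible apply Int.mem | with_reducible apply Int.subset | with_reducible apply Int.ltN | with_reducible apply Int.leN | with_reducible_and_instances apply Int.le | with_reducible_and_instances apply Int.lt | with_reducible apply Int.all | with_reducible apply Int.ex | with_reducible apply IntF.fst | with_reducible apply IntF.snd | with_reducible apply IntF.app | with_reducible apply IntF.inl | with_reducible apply IntF.inr | with_reducible_and_instances apply IntF.mul | with_reducible_and_instances apply IntF.inv | with_reducible_and_instances apply IntF.add | with_reducible_and_instances apply IntF.sub | with_reducible_and_instances apply IntF.neg | with_reducible_and_instances apply IntF.smul | with_reducible apply Int.fin | with_reducible apply IntF.sep | with_reducible apply IntF.lam | with_reducible apply IntF.insert | with_reducible apply IntF.singleton | with_reducible apply IntF.union | with_reducible apply IntF.iimage | with_reducible apply IntF.ite | with_reducible apply IntF.the | with_reducible apply IntF.irec | with_reducible apply IntF.succ | with_reducible apply IntF.val | with_reducible apply IntF.mk | (with_reducible refine Int.comp ?_ ?_; assumption) | (with_reducible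 refine Int.comp₂ ?_ ?_ ?_; assumption) | (with_reducible refine Int.comp₃ ?_ ?_ ?_ ?_; assumption) | (with_reducible refine Int.comp₄ ?_ ?_ ?_ ?_ ?_; assumption) | (with_reducible refine IntF.comp ?_ ?_; assumption) | (with_reducible refine IntF.comp₂ ?_ ?_ ?_; assumption) | (with_reducible refine IntF.comp₃ ?_ ?_ ?_ ?_; assumption) | with_reducible apply IntF.pair))
  have h1 : ∀ a b : α, Ch q U ((0 : INat N).succ, ((a, b), 1)) := fun a b =>
    (Ch.succ hq hU hr).2 ⟨a, 0, 1, (Ch.zero hq hU hr).2 ⟨rfl, le_rfl⟩, Fl.one hq hU hr a b,
      by rw [zero_add]⟩
  have hex : ∀ c : α × α, ∃ z, D c z := by
    rintro ⟨a, b⟩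
    have hS : Int N (fun z : El r => ∀ (s : El r) (n : INat N), Ch q U (n, ((a, b), s)) → z ≤ s) := by
      (repeat' (first | with_reducible apply memPE | with_reducible apply memPE' | with_reducible apply memPE'' | with_reducible apply memCode | with_reducible apply memCodeP | with_reducible apply memCode₂ | with_reducible apply eqPE | with_reducible apply eqPE' | with_reducible exact IntF.id | with_reducible exact IntF.fst' | with_reducible exact IntF.snd' | with_reducible exact IntF.const _ | with_reducible exact Int.const _ | assumption | with_reducible apply Int.and | with_reducible apply Int.or | with_reducible apply Int.not | with_reducible apply Int.imp | with_reducible apply Int.iff | with_reducible apply Int.ne | with_reducible apply Int.eq | with_reducible apply Int.mem | with_reducible apply Int.subset | with_reducible apply Int.ltN | with_reducible apply Int.leN | with_reducible_and_instances apply Int.le | with_reducible_and_instances apply Int.lt | with_reducible apply Int.all | with_reducible apply Int.ex | with_reducible apply IntF.fst | with_reducible apply IntF.snd | with_reducible apply IntF.app | with_reducible apply IntF.inl | with_reducible apply IntF.inr | with_reducible_and_instances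 apply IntF.mul | with_reducible_and_instances apply IntF.inv | with_reducible_and_instances apply IntF.add | with_reducible_and_instances apply IntF.sub | with_reducible_and_instances apply IntF.neg | with_reducible_and_instances apply IntF.smul | with_reducible apply Int.fin | with_reducible apply IntF.sep | with_reducible apply IntF.lam | with_reducible apply IntF.insert | with_reducible apply IntF.singleton | with_reducible apply IntF.union | with_reducible apply IntF.iimage | with_reducible apply IntF.ite | with_reducible apply IntF.the | with_reducible apply IntF.irec | with_reducible apply IntF.succ | with_reducible apply IntF.val | with_reducible apply IntF.mk | (with_reducible refine Int.comp ?_ ?_; assumption) | (with_reducible refine Int.comp₂ ?_ ?_ ?_; assumption) | (with_reducible refine Int.comp₃ ?_ ?_ ?_ ?_; assumption) | (with_reducible refine Int.comp₄ ?_ ?_ ?_ ?_ ?_; assumption) | (with_reducible refine IntF.comp ?_ ?_; assumption) | (with_reducible refine IntF.comp₂ ?_ ?_ ?_; assumption) | (with_reducible refine IntF.comp₃ ?_ ?_ ?_ ?_; assumption) | with_reducible apply IntF.pair))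
    obtain ⟨S, hS1⟩ := exists_set hS
    obtain ⟨z, h2, h3⟩ := hr.complete ⟨S, fun z hz => ((hS1 z).1 hz).1⟩
      ⟨(0 : El r).1, (hS1 _).2 ⟨(0 : El r).2, fun s n h => Ch.nonneg hq hU hr h⟩⟩
      ⟨1, fun w hw => by
        obtain ⟨_, hn⟩ := (hS1 w.1).1 hw
        exact hn 1 _ (h1 a b)⟩
    refine ⟨z, fun s n h => h3 fun w hw => ?_, fun z' hz' => h2 ((hS1 _).2 ⟨z'.2, hz'⟩)⟩
    obtain ⟨_, hn⟩ := (hS1 w.1).1 hw
    exact hn s n h
  choose d' hd' using hex
  have hdI : IntF N d' := IntF.of_unique hD hd' fun c z z' h h' =>
    le_antisymm (h'.2 z h.1) (h.2 z' h'.1)
  refine ⟨fun a b => d' (a, b), by (repeat' (first | with_reducible apply memPE | with_reducible apply memPE' | with_reducible apply memPE'' | with_reducible apply memCode | with_reducible apply memCodeP | with_reducible apply memCode₂ | with_reducible apply eqPE | with_reducible apply eqPE' | with_reducible exact IntF.id | with_reducible exact IntF.fst' | with_reducible exact IntF.snd' | with_reducible exact IntF.const _ | with_reducible exact Int.const _ | assumption | with_reducible apply Int.and | with_reducible apply Int.or | with_reducible apply Int.not | with_reducible apply Int.imp | with_reducible apply Int.iff | with_reducible apply Int.ne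 | with_reducible apply Int.eq | with_reducible apply Int.mem | with_reducible apply Int.subset | with_reducible apply Int.ltN | with_reducible apply Int.leN | with_reducible_and_instances apply Int.le | with_reducible_and_instances apply Int.lt | with_reducible apply Int.all | with_reducible apply Int.ex | with_reducible apply IntF.fst | with_reducible apply IntF.snd | with_reducible apply IntF.app | with_reducible apply IntF.inl | with_reducible apply IntF.inr | with_reducible_and_instances apply IntF.mul | with_reducible_and_instances apply IntF.inv | with_reducible_and_instances apply IntF.add | with_reducible_and_instances apply IntF.sub | with_reducible_and_instances apply IntF.neg | with_reducible_and_instances apply IntF.smul | with_reducible apply Int.fin | with_reducible apply IntF.sep | with_reducible apply IntF.lam | with_reducible apply IntF.insert | with_reducible apply IntF.singleton | with_reducible apply IntF.union | with_reducible apply IntF.iimage | with_reducible apply IntF.ite | with_reducible apply IntF.the | with_reducible apply IntF.irec | with_reducible apply IntF.succ | with_reducible apply IntF.val | with_reducible apply IntF.mk | (with_reducible refine Int.comp ?_ ?_; assumption)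 | (with_reducible refine Int.comp₂ ?_ ?_ ?_; assumption) | (with_reducible refine Int.comp₃ ?_ ?_ ?_ ?_; assumption) | (with_reducible refine Int.comp₄ ?_ ?_ ?_ ?_ ?_; assumption) | (with_reducible refine IntF.comp ?_ ?_; assumption) | (with_reducible refine IntF.comp₂ ?_ ?_ ?_; assumption) | (with_reducible refine IntF.comp₃ ?_ ?_ ?_ ?_; assumption) | with_reducible apply IntF.pair)), fun a b => (hd' (a, b)).2 0 fun s n h =>
    Ch.nonneg hq hU hr h, fun a => ?_, fun a b c => ?_, fun n a b h => ?_, fun n a b h => ?_⟩
  · exact le_antisymm ((hd' (a, a)).1 0 0 ((Ch.zero hq hU hr).2 ⟨rfl, le_rfl⟩))
      ((hd' (a, a)).2 0 fun s n h => Ch.nonneg hq hU hr h)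
  · have h2 : ∀ (s : El r) (n : INat N), Ch q U (n, ((a, b), s)) → d' (a, c) - s ≤ d' (b, c) := by
      intro s n h
      refine (hd' (b, c)).2 _ fun s' n' h' => ?_
      obtain ⟨k, hk⟩ := Ch.append hq hU hr h n' c s' h'
      have := (hd' (a, c)).1 _ _ hk
      linarith
    have h3 := (hd' (a, b)).2 (d' (a, c) - d' (b, c)) fun s n h => by
      have := h2 s n h
      linarith
    linarith
  · exact (hd' (a, b)).1 _ _ ((Ch.succ hq hU hr (n := 0)).2 ⟨a, 0, q n,
      (Ch.zero hq hU hr).2 ⟨rfl, le_rfl⟩, Fl.of hq hU hr h, by rw [zero_add]⟩)
  · by_contra hc
    have h2 : q n.succ ≤ d' (a, b) := (hd' (a, b)).2 _ fun s k hk => by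
      have h3 := (Ch.frink hq hU hr k a b s hk).2 n hc
      have h4 := hq.succ n
      replace h3 : q n ≤ s + s := h3
      linarith
    exact absurd h (not_lt.2 h2)

end

end Pool.Agent.Q257.ZQ

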