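import Pool.Agent.Q257.ZQ.Ucp
import Pool.Agent.Q257.ZQ.Met

/-!
# Canonical solutions of pairwise constraints
-/

set_option maxHeartbeats 1000000
set_option linter.all false
set_option synthInstance.maxSize 2000

namespace Pool.Agent.Q257.ZQ

open FirstOrder FirstOrder.Language
open Pool.Agent.Helper672.ZFA hiding Mem El IsOrdPair IsPair
open Pool.Agent.Helper672.Plain (LSet Mem IsOrdPair El)
open Pool.Agent.Helper672.ZFA.H635 (toL plainN_ordPair plainN_graph plainN_opGraph)
open Pool.Agent.H635Amen (IsReals)
open Pool.Agent.H310 (appN mem_cp extN instPEl)
open Pool.Agent.Q301.TM
open Pool.Agent.Q301.QM (HS exists_hs)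

universe u u₁

attribute [local instance] toL instPEl

section

variable {N : Type u} [LSet.Structure N] [hM : IsModel N] {j : N} {α : Type u} [ITy N α]
variable {γ : Type u} [ITy N γ]

theorem exists_mu {R : γ → INat N → Prop} (hR : Int N (fun q : γ × INat N => R q.1 q.2))
    (h : ∀ c, ∃ n, R c n) : ∃ μ : γ → INat N, IntF N μ ∧ ∀ c, R c (μ c) ∧ ∀ n, R c n → μ c ≤ n := by
  have h1 : ∀ c, ∃ n, R c n ∧ ∀ m, R c m → n ≤ m := fun c =>
    INat.exists_least (p := fun n => R c n) (by (repeat' (first | with_reducible apply memPE | with_reducible apply memPE' | with_reducible apply memPE'' | with_reducible apply memCode | with_reducible apply memCodeP | with_reducible apply memCode₂ | with_reducible apply eqPE | with_reducible apply eqPE' | with_reducible exact IntF.id | with_reducible exact IntF.fst' | with_reducible exact IntF.snd' | with_reducible exact IntF.const _ | with_reducible exact Int.const _ | assumption | with_reducible apply Int.and | with_reducible apply Int.or | with_reducible apply Int.not | with_reducible apply Int.imp | with_reducible apply Int.iff | with_reducible apply Int.ne | with_reducible apply Int.eq | with_reducible apply Int.mem | with_reducible apply Int.subset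 | with_reducible apply Int.ltN | with_reducible apply Int.leN | with_reducible_and_instances apply Int.le | with_reducible_and_instances apply Int.lt | with_reducible apply Int.all | with_reducible apply Int.ex | with_reducible apply IntF.fst | with_reducible apply IntF.snd | with_reducible apply IntF.app | with_reducible apply IntF.inl | with_reducible apply IntF.inr | with_reducible_and_instances apply IntF.mul | with_reducible_and_instances apply IntF.inv | with_reducible_and_instances apply IntF.add | with_reducible_and_instances apply IntF.sub | with_reducible_and_instances apply IntF.neg | with_reducible_and_instances apply IntF.smul | with_reducible apply Int.fin | with_reducible apply IntF.sep | with_reducible apply IntF.lam | with_reducible apply IntF.insert | with_reducible apply IntF.singleton | with_reducible apply IntF.union | with_reducible apply IntF.iimage | with_reducible apply IntF.ite | with_reducible apply IntF.the | with_reducible apply IntF.irec | with_reducible apply IntF.succ | with_reducible apply IntF.val | with_reducible apply IntF.mk | (with_reducible refine Int.comp ?_ ?_; assumption) | (with_reducible refine Int.comp₂ ?_ ?_ ?_; assumption) | (with_reducible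 refine Int.comp₃ ?_ ?_ ?_ ?_; assumption) | (with_reducible refine Int.comp₄ ?_ ?_ ?_ ?_ ?_; assumption) | (with_reducible refine IntF.comp ?_ ?_; assumption) | (with_reducible refine IntF.comp₂ ?_ ?_ ?_; assumption) | (with_reducible refine IntF.comp₃ ?_ ?_ ?_ ?_; assumption) | with_reducible apply IntF.pair))) (h c)
  choose μ hμ using h1
  exact ⟨μ, IntF.of_unique (p := fun c n => R c n ∧ ∀ m, R c m → n ≤ m) (by (repeat' (first | with_reducible apply memPE | with_reducible apply memPE' | with_reducible apply memPE'' | with_reducible apply memCode | with_reducible apply memCodeP | with_reducible apply memCode₂ | with_reducible apply eqPE | with_reducible apply eqPE' | with_reducible exact IntF.id | with_reducible exact IntF.fst' | with_reducible exact IntF.snd' | with_reducible exact IntF.const _ | with_reducible exact Int.const _ | assumption | with_reducible apply Int.and | with_reducible apply Int.or | with_reducible apply Int.not | with_reducible apply Int.imp | with_reducible apply Int.iff | with_reducible apply Int.ne | with_reducible apply Int.eq | with_reducible apply Int.mem | with_reducible apply Int.subset | with_reducible apply Int.ltN | with_reducible apply Int.leN |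 with_reducible_and_instances apply Int.le | with_reducible_and_instances apply Int.lt | with_reducible apply Int.all | with_reducible apply Int.ex | with_reducible apply IntF.fst | with_reducible apply IntF.snd | with_reducible apply IntF.app | with_reducible apply IntF.inl | with_reducible apply IntF.inr | with_reducible_and_instances apply IntF.mul | with_reducible_and_instances apply IntF.inv | with_reducible_and_instances apply IntF.add | with_reducible_and_instances apply IntF.sub | with_reducible_and_instances apply IntF.neg | with_reducible_and_instances apply IntF.smul | with_reducible apply Int.fin | with_reducible apply IntF.sep | with_reducible apply IntF.lam | with_reducible apply IntF.insert | with_reducible apply IntF.singleton | with_reducible apply IntF.union | with_reducible apply IntF.iimage | with_reducible apply IntF.ite | with_reducible apply IntF.the | with_reducible apply IntF.irec | with_reducible apply IntF.succ | with_reducible apply IntF.val | with_reducible apply IntF.mk | (with_reducible refine Int.comp ?_ ?_; assumption) | (with_reducible refine Int.comp₂ ?_ ?_ ?_; assumption) | (with_reducible refine Int.comp₃ ?_ ?_ ?_ ?_; assumption) | (with_reducible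 refine Int.comp₄ ?_ ?_ ?_ ?_ ?_; assumption) | (with_reducible refine IntF.comp ?_ ?_; assumption) | (with_reducible refine IntF.comp₂ ?_ ?_ ?_; assumption) | (with_reducible refine IntF.comp₃ ?_ ?_ ?_ ?_; assumption) | with_reducible apply IntF.pair))) hμ
    fun c n n' h1 h2 => le_antisymm (h1.2 _ h2.1) (h2.2 _ h1.1), hμ⟩

theorem exists_bd {f : INat N → INat N} (hf : IntF N f) (n : INat N) :
    ∃ B, ∀ m, m < n → f m ≤ B := by
  refine INat.ind (p := fun n => ∃ B, ∀ m, m < n → f m ≤ B) (by (repeat' (first | with_reducible apply memPE | with_reducible apply memPE' | with_reducible apply memPE'' | with_reducible apply memCode | with_reducible apply memCodeP | with_reducible apply memCode₂ | with_reducible apply eqPE | with_reducible apply eqPE' | with_reducible exact IntF.id | with_reducible exact IntF.fst' | with_reducible exact IntF.snd' | with_reducible exact IntF.const _ | with_reducible exact Int.const _ | assumption | with_reducible apply Int.and | with_reducible apply Int.or | with_reducible apply Int.not | with_reducible apply Int.imp | with_reducible apply Int.iff | with_reducible apply Int.ne | with_reducible apply Int.eq | with_reducible apply Int.mem | with_reducible apply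 Int.subset | with_reducible apply Int.ltN | with_reducible apply Int.leN | with_reducible_and_instances apply Int.le | with_reducible_and_instances apply Int.lt | with_reducible apply Int.all | with_reducible apply Int.ex | with_reducible apply IntF.fst | with_reducible apply IntF.snd | with_reducible apply IntF.app | with_reducible apply IntF.inl | with_reducible apply IntF.inr | with_reducible_and_instances apply IntF.mul | with_reducible_and_instances apply IntF.inv | with_reducible_and_instances apply IntF.add | with_reducible_and_instances apply IntF.sub | with_reducible_and_instances apply IntF.neg | with_reducible_and_instances apply IntF.smul | with_reducible apply Int.fin | with_reducible apply IntF.sep | with_reducible apply IntF.lam | with_reducible apply IntF.insert | with_reducible apply IntF.singleton | with_reducible apply IntF.union | with_reducible apply IntF.iimage | with_reducible apply IntF.ite | with_reducible apply IntF.the | with_reducible apply IntF.irec | with_reducible apply IntF.succ | with_reducible apply IntF.val | with_reducible apply IntF.mk | (with_reducible refine Int.comp ?_ ?_; assumption) | (with_reducible refine Int.comp₂ ?_ ?_ ?_; assumption) |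 (with_reducible refine Int.comp₃ ?_ ?_ ?_ ?_; assumption) | (with_reducible refine Int.comp₄ ?_ ?_ ?_ ?_ ?_; assumption) | (with_reducible refine IntF.comp ?_ ?_; assumption) | (with_reducible refine IntF.comp₂ ?_ ?_ ?_; assumption) | (with_reducible refine IntF.comp₃ ?_ ?_ ?_ ?_; assumption) | with_reducible apply IntF.pair))) ?_ ?_ n
  · exact ⟨0, fun m hm => absurd hm INat.not_lt_zero⟩
  · rintro n ⟨B, hB⟩
    refine ⟨max B (f n), fun m hm => ?_⟩
    rcases (INat.lt_succ_iff.1 hm).lt_or_eq with h | rfl
    · exact (hB m h).trans (le_max_left _ _)
    · exact le_max_right _ _

variable {r : N} [Field (El r)] [LinearOrder (El r)] [IsStrictOrderedRing (El r)]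

theorem ball_open {O : IPow N α → Prop} {D : α × α → El r} (h : QD O D) (hr : IsReals r) (a : α)
    (ε : El r) : O (sep N fun b => D (a, b) < ε) := by
  have hlt := int_lt hr
  have hD := h.int
  have hI : Int N (fun b => D (a, b) < ε) := by (repeat' (first | with_reducible apply memPE | with_reducible apply memPE' | with_reducible apply memPE'' | with_reducible apply memCode | with_reducible apply memCodeP | with_reducible apply memCode₂ | with_reducible apply eqPE | with_reducible apply eqPE' | with_reducible exact IntF.id | with_reducible exact IntF.fst' | with_reducible exact IntF.snd' | with_reducible exact IntF.const _ | with_reducible exact Int.const _ | assumption | with_reducible apply Int.and | with_reducible apply Int.or | with_reducible apply Int.not | with_reducible apply Int.imp | with_reducible apply Int.iff | with_reducible apply Int.ne | with_reducible apply Int.eq | with_reducible apply Int.mem | with_reducible apply Int.subset | with_reducible apply Int.ltN | with_reducible apply Int.leN | with_reducible_and_instances apply Int.le | with_reducible_and_instances apply Int.lt | with_reducible apply Int.all | with_reducible apply Int.ex | with_reducible apply IntF.fst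 | with_reducible apply IntF.snd | with_reducible apply IntF.app | with_reducible apply IntF.inl | with_reducible apply IntF.inr | with_reducible_and_instances apply IntF.mul | with_reducible_and_instances apply IntF.inv | with_reducible_and_instances apply IntF.add | with_reducible_and_instances apply IntF.sub | with_reducible_and_instances apply IntF.neg | with_reducible_and_instances apply IntF.smul | with_reducible apply Int.fin | with_reducible apply IntF.sep | with_reducible apply IntF.lam | with_reducible apply IntF.insert | with_reducible apply IntF.singleton | with_reducible apply IntF.union | with_reducible apply IntF.iimage | with_reducible apply IntF.ite | with_reducible apply IntF.the | with_reducible apply IntF.irec | with_reducible apply IntF.succ | with_reducible apply IntF.val | with_reducible apply IntF.mk | (with_reducible refine Int.comp ?_ ?_; assumption) | (with_reducible refine Int.comp₂ ?_ ?_ ?_; assumption) | (with_reducible refine Int.comp₃ ?_ ?_ ?_ ?_; assumption) | (with_reducible refine Int.comp₄ ?_ ?_ ?_ ?_ ?_; assumption) | (with_reducible refine IntF.comp ?_ ?_; assumption) | (with_reducible refine IntF.comp₂ ?_ ?_ ?_; assumption) | (with_reducible refine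 IntF.comp₃ ?_ ?_ ?_ ?_; assumption) | with_reducible apply IntF.pair))
  refine (h.top _).2 fun b hb => ?_
  have h1 := (mem_sep hI).1 hb
  refine ⟨ε - D (a, b), by linarith, fun c hc => (mem_sep hI).2 ?_⟩
  have := h.tri a b c
  linarith

open Classical in
/-- Quasi-metrics from a transitive relation with weights. -/
theorem QD.of_rel (hr : IsReals r) {O : IPow N α → Prop} {E : α × α → Prop} {w : α × α → INat N}
    (hE : Int N E) (hw : IntF N w)
    (htr : ∀ x y z, E (x, y) → E (y, z) → E (x, z) ∧ w (x, y) ≤ w (x, z))
    (hO : ∀ U, O U ↔ ∀ x, x ∈ U → ∃ m, ∀ y, E (x, y) → m ≤ w (x, y) → y ∈ U) :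
    ∃ D : α × α → El r, QD O D := by
  obtain ⟨q, hq⟩ := exists_hs hr
  have hqi := hq.int
  have hq1 : ∀ n, q n ≤ 1 := fun n => by
    have h := hq.anti hr (INat.zero_le n)
    rwa [hq.zero] at h
  obtain ⟨D, hD⟩ : ∃ D : α × α → El r, D = fun p => if p.1 = p.2 then 0 else
    if E p then q (w p) else 1 := ⟨_, rfl⟩
  have hDI : IntF N D := by
    rw [hD]
    (repeat' (first | with_reducible apply memPE | with_reducible apply memPE' | with_reducible apply memPE'' | with_reducible apply memCode | with_reducible apply memCodeP | with_reducible apply memCode₂ | with_reducible apply eqPE | with_reducible apply eqPE' | with_reducible exact IntF.id | with_reducible exact IntF.fst' | with_reducible exact IntF.snd' | with_reducible exact IntF.const _ | with_reducible exact Int.const _ | assumption | with_reducible apply Int.and | with_reducible apply Int.or | with_reducible apply Int.not | with_reducible apply Int.imp | with_reducible apply Int.iff | with_reducible apply Int.ne | with_reducible apply Int.eq | with_reducible apply Int.mem | with_reducible apply Int.subset | with_reducible apply Int.ltN | with_reducible apply Int.leN | with_reducible_and_instances apply Int.le | with_reducible_and_instances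 apply Int.lt | with_reducible apply Int.all | with_reducible apply Int.ex | with_reducible apply IntF.fst | with_reducible apply IntF.snd | with_reducible apply IntF.app | with_reducible apply IntF.inl | with_reducible apply IntF.inr | with_reducible_and_instances apply IntF.mul | with_reducible_and_instances apply IntF.inv | with_reducible_and_instances apply IntF.add | with_reducible_and_instances apply IntF.sub | with_reducible_and_instances apply IntF.neg | with_reducible_and_instances apply IntF.smul | with_reducible apply Int.fin | with_reducible apply IntF.sep | with_reducible apply IntF.lam | with_reducible apply IntF.insert | with_reducible apply IntF.singleton | with_reducible apply IntF.union | with_reducible apply IntF.iimage | with_reducible apply IntF.ite | with_reducible apply IntF.the | with_reducible apply IntF.irec | with_reducible apply IntF.succ | with_reducible apply IntF.val | with_reducible apply IntF.mk | (with_reducible refine Int.comp ?_ ?_; assumption) | (with_reducible refine Int.comp₂ ?_ ?_ ?_; assumption) | (with_reducible refine Int.comp₃ ?_ ?_ ?_ ?_; assumption) | (with_reducible refine Int.comp₄ ?_ ?_ ?_ ?_ ?_; assumption) | (with_reducible refine IntF.comp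 ?_ ?_; assumption) | (with_reducible refine IntF.comp₂ ?_ ?_ ?_; assumption) | (with_reducible refine IntF.comp₃ ?_ ?_ ?_ ?_; assumption) | with_reducible apply IntF.pair))
  have h0 : ∀ a, D (a, a) = 0 := fun a => by
    rw [hD]
    exact if_pos rfl
  have h1 : ∀ a b, a ≠ b → E (a, b) → D (a, b) = q (w (a, b)) := fun a b hne he => by
    rw [hD]
    exact (if_neg hne).trans (if_pos he)
  have h2 : ∀ a b, a ≠ b → ¬ E (a, b) → D (a, b) = 1 := fun a b hne he => by
    rw [hD]
    exact (if_neg hne).trans (if_neg he)
  have hn : ∀ a b, 0 ≤ D (a, b) := fun a b => by
    by_cases hab : a = b
    · rw [hab, h0]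
    · by_cases he : E (a, b)
      · rw [h1 a b hab he]
        exact (hq.pos _).le
      · rw [h2 a b hab he]
        exact zero_le_one
  have hle : ∀ a b, D (a, b) ≤ 1 := fun a b => by
    by_cases hab : a = b
    · rw [hab, h0]
      exact zero_le_one
    · by_cases he : E (a, b)
      · rw [h1 a b hab he]
        exact hq1 _
      · rw [h2 a b hab he]
  have hE' : ∀ a b, E (a, b) → D (a, b) ≤ q (w (a, b)) := fun a b he => by
    by_cases hab : a = b
    · subst hab
      rw [h0]
      exact (hq.pos _).le
    · rw [h1 a b hab he]
  refine ⟨D, hDI, hn, h0, fun a b c => ?_, fun a b hab => ?_, fun U => (hO U).trans ⟨?_, ?_⟩⟩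
  · by_cases hab : a = b
    · subst hab
      rw [h0, zero_add]
    by_cases hbc : b = c
    · subst hbc
      rw [h0, add_zero]
    by_cases he : E (a, b)
    · by_cases he' : E (b, c)
      · obtain ⟨h3, h4⟩ := htr a b c he he'
        have h5 := hE' a c h3
        have h6 := hq.anti hr h4
        have h7 := hn b c
        rw [h1 a b hab he]
        linarith
      · rw [h2 b c hbc he']
        have := hn a b
        have := hle a c
        linarith
    · rw [h2 a b hab he]
      have := hn b c
      have := hle a c
      linarith
  · by_contra hne
    by_cases he : E (a, b)
    · rw [h1 a b hne he] at hab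
      exact (hq.pos _).ne' hab
    · rw [h2 a b hne he] at hab
      exact one_ne_zero hab
  · intro hU x hx
    obtain ⟨m, hm⟩ := hU x hx
    refine ⟨q m, hq.pos m, fun y hy => ?_⟩
    by_cases hxy : x = y
    · exact hxy ▸ hx
    · by_cases he : E (x, y)
      · rw [h1 x y hxy he] at hy
        refine hm y he (le_of_not_gt fun h => ?_)
        exact absurd hy (not_lt.2 (hq.anti hr h.le))
      · rw [h2 x y hxy he] at hy
        exact absurd hy (not_lt.2 (hq1 m))
  · intro hU x hx
    obtain ⟨ε, hε, h3⟩ := hU x hx
    obtain ⟨n, hn⟩ := hq.lim ε hε
    exact ⟨n, fun y he hy => h3 y (((hE' x y he).trans (hq.anti hr hy)).trans_lt hn)⟩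

variable {S Y : Type u} [ITy N S] [ITy N Y]

/-- The open sets of the corner spaces. -/
def CO (p : El j × (S × Y) → INat N) (C : El j × ((S × Y) × INat N) → Prop)
    (c : El j × IPow N (INat N × (S × (Y × INat N)))) : Prop :=
  (∀ x, x ∈ c.2 → x.1 = 0 → ∃ m, ∀ x' : INat N × (S × (Y × INat N)),
    m ≤ p (c.1, (x.2.1, x'.2.2.1)) → (x'.1 = INat.succ 0 ∨
      (x'.1 = INat.succ (INat.succ 0) ∧ C (c.1, ((x.2.1, x'.2.2.1), x'.2.2.2)))) → x' ∈ c.2) ∧
  ∀ x, x ∈ c.2 → x.1 = INat.succ 0 → ∃ m, ∀ x' : INat N × (S × (Y × INat N)),
    x'.1 = INat.succ (INat.succ 0) → x'.2.2.1 = x.2.2.1 → m ≤ x'.2.2.2 → x' ∈ c.2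

open Classical in
theorem CO.exists_QD (hr : IsReals r) {p : El j × (S × Y) → INat N}
    {C : El j × ((S × Y) × INat N) → Prop} (hp : IntF N p) (hC : Int N C)
    (up : ∀ i s y k k', k ≤ k' → C (i, ((s, y), k)) → C (i, ((s, y), k'))) {i : El j}
    {h1 : S → INat N} {h2 : Y → INat N} (hi1 : IntF N h1) (hi2 : IntF N h2)
    (h : ∀ s y, h1 s ≤ p (i, (s, y)) → C (i, ((s, y), h2 y))) :
    ∃ D : (INat N × (S × (Y × INat N))) × (INat N × (S × (Y × INat N))) → El r,
      QD (fun U => CO p C (i, U)) D := by
  have e1 : (INat.succ 0 : INat N) ≠ 0 := INat.succ_ne_zero _
  have e2 : (INat.succ (INat.succ 0) : INat N) ≠ 0 := INat.succ_ne_zero _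
  have e3 : (INat.succ (INat.succ 0) : INat N) ≠ INat.succ 0 := fun h => e1 (INat.succ_inj h)
  refine QD.of_rel hr (E := fun x : (INat N × (S × (Y × INat N))) × (INat N × (S × (Y × INat N))) =>
    (x.1.1 = 0 ∧ h1 x.1.2.1 ≤ p (i, (x.1.2.1, x.2.2.2.1)) ∧ (x.2.1 = INat.succ 0 ∨
      (x.2.1 = INat.succ (INat.succ 0) ∧ C (i, ((x.1.2.1, x.2.2.2.1), x.2.2.2.2))))) ∨
    (x.1.1 = INat.succ 0 ∧ x.2.1 = INat.succ (INat.succ 0) ∧ x.2.2.2.1 = x.1.2.2.1 ∧
      h2 x.1.2.2.1 ≤ x.2.2.2.2))
    (w := fun x => if x.1.1 = 0 then p (i, (x.1.2.1, x.2.2.2.1)) else x.2.2.2.2)
    (by (repeat' (first | with_reducible apply memPE | with_reducible apply memPE' | with_reducible apply memPE'' | with_reducible apply memCode | with_reducible apply memCodeP | with_reducible apply memCode₂ | with_reducible apply eqPE | with_reducible apply eqPE' | with_reducible exact IntF.id | with_reducible exact IntF.fst' | with_reducible exact IntF.snd' | with_reducible exact IntF.const _ | with_reducible exact Int.const _ | assumption | with_reducible apply Int.and | with_reducible apply Int.or | with_reducible apply Int.not | with_reducible apply Int.imp | with_reducible apply Int.iff | with_reducible apply Int.ne | with_reducible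 apply Int.eq | with_reducible apply Int.mem | with_reducible apply Int.subset | with_reducible apply Int.ltN | with_reducible apply Int.leN | with_reducible_and_instances apply Int.le | with_reducible_and_instances apply Int.lt | with_reducible apply Int.all | with_reducible apply Int.ex | with_reducible apply IntF.fst | with_reducible apply IntF.snd | with_reducible apply IntF.app | with_reducible apply IntF.inl | with_reducible apply IntF.inr | with_reducible_and_instances apply IntF.mul | with_reducible_and_instances apply IntF.inv | with_reducible_and_instances apply IntF.add | with_reducible_and_instances apply IntF.sub | with_reducible_and_instances apply IntF.neg | with_reducible_and_instances apply IntF.smul | with_reducible apply Int.fin | with_reducible apply IntF.sep | with_reducible apply IntF.lam | with_reducible apply IntF.insert | with_reducible apply IntF.singleton | with_reducible apply IntF.union | with_reducible apply IntF.iimage | with_reducible apply IntF.ite | with_reducible apply IntF.the | with_reducible apply IntF.irec | with_reducible apply IntF.succ | with_reducible apply IntF.val | with_reducible apply IntF.mk | (with_reducible refine Int.comp ?_ ?_; assumption)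 | (with_reducible refine Int.comp₂ ?_ ?_ ?_; assumption) | (with_reducible refine Int.comp₃ ?_ ?_ ?_ ?_; assumption) | (with_reducible refine Int.comp₄ ?_ ?_ ?_ ?_ ?_; assumption) | (with_reducible refine IntF.comp ?_ ?_; assumption) | (with_reducible refine IntF.comp₂ ?_ ?_ ?_; assumption) | (with_reducible refine IntF.comp₃ ?_ ?_ ?_ ?_; assumption) | with_reducible apply IntF.pair))) (by (repeat' (first | with_reducible apply memPE | with_reducible apply memPE' | with_reducible apply memPE'' | with_reducible apply memCode | with_reducible apply memCodeP | with_reducible apply memCode₂ | with_reducible apply eqPE | with_reducible apply eqPE' | with_reducible exact IntF.id | with_reducible exact IntF.fst' | with_reducible exact IntF.snd' | with_reducible exact IntF.const _ | with_reducible exact Int.const _ | assumption | with_reducible apply Int.and | with_reducible apply Int.or | with_reducible apply Int.not | with_reducible apply Int.imp | with_reducible apply Int.iff | with_reducible apply Int.ne | with_reducible apply Int.eq | with_reducible apply Int.mem | with_reducible apply Int.subset | with_reducible apply Int.ltN | with_reducible apply Int.leN | with_reducible_and_instances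 apply Int.le | with_reducible_and_instances apply Int.lt | with_reducible apply Int.all | with_reducible apply Int.ex | with_reducible apply IntF.fst | with_reducible apply IntF.snd | with_reducible apply IntF.app | with_reducible apply IntF.inl | with_reducible apply IntF.inr | with_reducible_and_instances apply IntF.mul | with_reducible_and_instances apply IntF.inv | with_reducible_and_instances apply IntF.add | with_reducible_and_instances apply IntF.sub | with_reducible_and_instances apply IntF.neg | with_reducible_and_instances apply IntF.smul | with_reducible apply Int.fin | with_reducible apply IntF.sep | with_reducible apply IntF.lam | with_reducible apply IntF.insert | with_reducible apply IntF.singleton | with_reducible apply IntF.union | with_reducible apply IntF.iimage | with_reducible apply IntF.ite | with_reducible apply IntF.the | with_reducible apply IntF.irec | with_reducible apply IntF.succ | with_reducible apply IntF.val | with_reducible apply IntF.mk | (with_reducible refine Int.comp ?_ ?_; assumption) | (with_reducible refine Int.comp₂ ?_ ?_ ?_; assumption) | (with_reducible refine Int.comp₃ ?_ ?_ ?_ ?_; assumption) | (with_reducible refine Int.comp₄ ?_ ?_ ?_ ?_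 ?_; assumption) | (with_reducible refine IntF.comp ?_ ?_; assumption) | (with_reducible refine IntF.comp₂ ?_ ?_ ?_; assumption) | (with_reducible refine IntF.comp₃ ?_ ?_ ?_ ?_; assumption) | with_reducible apply IntF.pair))) ?_ fun U => ⟨?_, ?_⟩
  · rintro ⟨kx, sx, yx, nx⟩ ⟨ky, sy, yy, ny⟩ ⟨kz, sz, yz, nz⟩ hxy hyz
    dsimp only at hxy hyz ⊢
    rcases hxy with ⟨rfl, g2, g3⟩ | ⟨rfl, rfl, g3, g4⟩
    · rcases hyz with ⟨rfl, g5, g6⟩ | ⟨rfl, rfl, rfl, g7⟩
      · rcases g3 with g3 | ⟨g3, -⟩
        · exact absurd g3.symm e1
        · exact absurd g3.symm e2
      · rw [if_pos rfl, if_pos rfl]
        refine ⟨Or.inl ⟨rfl, g2, Or.inr ⟨rfl, up _ _ _ _ _ g7 (h _ _ g2)⟩⟩, le_rfl⟩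
    · rcases hyz with ⟨g5, -⟩ | ⟨g5, -⟩
      · exact absurd g5 e2
      · exact absurd g5 e3
  · rintro ⟨hU1, hU2⟩ ⟨kx, sx, yx, nx⟩ hx
    by_cases hk : kx = 0
    · obtain ⟨m, hm⟩ := hU1 _ hx hk
      refine ⟨m, fun y hxy hy => ?_⟩
      dsimp only at hxy hy hm
      rw [if_pos hk] at hy
      rcases hxy with ⟨_, _, g3⟩ | ⟨g1, -⟩
      · exact hm y hy g3
      · exact absurd (g1.symm.trans hk) e1
    · by_cases hk1 : kx = INat.succ 0
      · obtain ⟨m, hm⟩ := hU2 _ hx hk1
        refine ⟨m, fun y hxy hy => ?_⟩
        dsimp only at hxy hy hm
        rw [if_neg hk] at hy
        rcases hxy with ⟨g1, -⟩ | ⟨_, g2, g3, g4⟩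
        · exact absurd g1 hk
        · exact hm y g2 g3 hy
      · refine ⟨0, fun y hxy hy => ?_⟩
        rcases hxy with ⟨g1, -⟩ | ⟨g1, -⟩
        · exact absurd g1 hk
        · exact absurd g1 hk1
  · intro hU
    refine ⟨fun x hx hk => ?_, fun x hx hk => ?_⟩
    · obtain ⟨m, hm⟩ := hU x hx
      refine ⟨max m (h1 x.2.1), fun x' h3 h4 => hm x' (Or.inl ⟨hk, (le_max_right _ _).trans h3, h4⟩) ?_⟩
      dsimp only
      rw [if_pos hk]
      exact (le_max_left _ _).trans h3
    · obtain ⟨m, hm⟩ := hU x hx
      refine ⟨max m (h2 x.2.2.1), fun x' h3 h4 h5 => hm x' (Or.inr ⟨hk, h3, h4,
        (le_max_right _ _).trans h5⟩) ?_⟩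
      dsimp only
      rw [if_neg (by rw [hk]; exact e1)]
      exact (le_max_left _ _).trans h5

/-- **The corner lemma.** -/
theorem corner (hr : IsReals r) (hc : CPQM r) (hj : IsCountable j)
    {p : El j × (S × Y) → INat N} {C : El j × ((S × Y) × INat N) → Prop} (hp : IntF N p)
    (hC : Int N C) (up : ∀ i s y k k', k ≤ k' → C (i, ((s, y), k)) → C (i, ((s, y), k')))
    (h : ∀ i, ∃ (h1 : S → INat N) (h2 : Y → INat N), IntF N h1 ∧ IntF N h2 ∧
      ∀ s y, h1 s ≤ p (i, (s, y)) → C (i, ((s, y), h2 y))) :
    ∃ (ν a : El j × S → INat N) (b : El j × (Y × INat N) → INat N), IntF N ν ∧ IntF N a ∧ IntF N b ∧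
      (∀ i y n n', n ≤ n' → b (i, (y, n)) ≤ b (i, (y, n'))) ∧
      ∀ i s y, a (i, s) ≤ p (i, (s, y)) → C (i, ((s, y), b (i, (y, ν (i, s))))) := by
  by_cases hS : Nonempty S
  swap
  · exact ⟨fun _ => 0, fun _ => 0, fun _ => 0, IntF.const _, IntF.const _, IntF.const _,
      fun _ _ _ _ _ => le_rfl, fun i s => absurd ⟨s⟩ hS⟩
  by_cases hY : Nonempty Y
  swap
  · exact ⟨fun _ => 0, fun _ => 0, fun _ => 0, IntF.const _, IntF.const _, IntF.const _,
      fun _ _ _ _ _ => le_rfl, fun i s y => absurd ⟨y⟩ hY⟩
  obtain ⟨s0⟩ := hS
  obtain ⟨y0⟩ := hY
  have e1 : (INat.succ 0 : INat N) ≠ 0 := INat.succ_ne_zero _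
  have e2 : (INat.succ (INat.succ 0) : INat N) ≠ 0 := INat.succ_ne_zero _
  have e3 : (INat.succ (INat.succ 0) : INat N) ≠ INat.succ 0 := fun h => e1 (INat.succ_inj h)
  obtain ⟨q, hq⟩ := exists_hs hr
  have hqi := hq.int
  have hlt := int_lt hr
  have hCO : Int N (CO p C) := by
    unfold CO
    (repeat' (first | with_reducible apply memPE | with_reducible apply memPE' | with_reducible apply memPE'' | with_reducible apply memCode | with_reducible apply memCodeP | with_reducible apply memCode₂ | with_reducible apply eqPE | with_reducible apply eqPE' | with_reducible exact IntF.id | with_reducible exact IntF.fst' | with_reducible exact IntF.snd' | with_reducible exact IntF.const _ | with_reducible exact Int.const _ | assumption | with_reducible apply Int.and | with_reducible apply Int.or | with_reducible apply Int.not | with_reducible apply Int.imp | with_reducible apply Int.iff | with_reducible apply Int.ne | with_reducible apply Int.eq | with_reducible apply Int.mem | with_reducible apply Int.subset | with_reducible apply Int.ltN | with_reducible apply Int.leN | with_reducible_and_instances apply Int.le | with_reducible_and_instances apply Int.lt | with_reducible apply Int.all | with_reducible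 apply Int.ex | with_reducible apply IntF.fst | with_reducible apply IntF.snd | with_reducible apply IntF.app | with_reducible apply IntF.inl | with_reducible apply IntF.inr | with_reducible_and_instances apply IntF.mul | with_reducible_and_instances apply IntF.inv | with_reducible_and_instances apply IntF.add | with_reducible_and_instances apply IntF.sub | with_reducible_and_instances apply IntF.neg | with_reducible_and_instances apply IntF.smul | with_reducible apply Int.fin | with_reducible apply IntF.sep | with_reducible apply IntF.lam | with_reducible apply IntF.insert | with_reducible apply IntF.singleton | with_reducible apply IntF.union | with_reducible apply IntF.iimage | with_reducible apply IntF.ite | with_reducible apply IntF.the | with_reducible apply IntF.irec | with_reducible apply IntF.succ | with_reducible apply IntF.val | with_reducible apply IntF.mk | (with_reducible refine Int.comp ?_ ?_; assumption) | (with_reducible refine Int.comp₂ ?_ ?_ ?_; assumption) | (with_reducible refine Int.comp₃ ?_ ?_ ?_ ?_; assumption) | (with_reducible refine Int.comp₄ ?_ ?_ ?_ ?_ ?_; assumption) | (with_reducible refine IntF.comp ?_ ?_; assumption) | (with_reducible refine IntF.comp₂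 ?_ ?_ ?_; assumption) | (with_reducible refine IntF.comp₃ ?_ ?_ ?_ ?_; assumption) | with_reducible apply IntF.pair))
  obtain ⟨D, hD, hQ⟩ := ucp hr hc hj hCO fun i => by
    obtain ⟨h1, h2, h3, h4, h5⟩ := h i
    exact CO.exists_QD hr hp hC up h3 h4 h5
  have key : ∀ (i : El j) (U : IPow N (INat N × (S × (Y × INat N)))), CO p C (i, U) ↔
      ∀ a, a ∈ U → ∃ ε, 0 < ε ∧ ∀ b, D (i, (a, b)) < ε → b ∈ U := fun i => (hQ i).top
  -- the small neighbourhoods
  have hWI : ∀ (i : El j) (s : S), Int N (fun x : INat N × (S × (Y × INat N)) =>
      x = (0, (s, (y0, 0))) ∨ (x.1 = INat.succ 0 ∧ ∃ k, C (i, ((s, x.2.2.1), k))) ∨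
        (x.1 = INat.succ (INat.succ 0) ∧ C (i, ((s, x.2.2.1), x.2.2.2)))) := by
    intro i s
    (repeat' (first | with_reducible apply memPE | with_reducible apply memPE' | with_reducible apply memPE'' | with_reducible apply memCode | with_reducible apply memCodeP | with_reducible apply memCode₂ | with_reducible apply eqPE | with_reducible apply eqPE' | with_reducible exact IntF.id | with_reducible exact IntF.fst' | with_reducible exact IntF.snd' | with_reducible exact IntF.const _ | with_reducible exact Int.const _ | assumption | with_reducible apply Int.and | with_reducible apply Int.or | with_reducible apply Int.not | with_reducible apply Int.imp | with_reducible apply Int.iff | with_reducible apply Int.ne | with_reducible apply Int.eq | with_reducible apply Int.mem | with_reducible apply Int.subset | with_reducible apply Int.ltN | with_reducible apply Int.leN | with_reducible_and_instances apply Int.le | with_reducible_and_instances apply Int.lt | with_reducible apply Int.all | with_reducible apply Int.ex | with_reducible apply IntF.fst | with_reducible apply IntF.snd | with_reducible apply IntF.app | with_reducible apply IntF.inl | with_reducible apply IntF.inr | with_reducible_and_instances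 apply IntF.mul | with_reducible_and_instances apply IntF.inv | with_reducible_and_instances apply IntF.add | with_reducible_and_instances apply IntF.sub | with_reducible_and_instances apply IntF.neg | with_reducible_and_instances apply IntF.smul | with_reducible apply Int.fin | with_reducible apply IntF.sep | with_reducible apply IntF.lam | with_reducible apply IntF.insert | with_reducible apply IntF.singleton | with_reducible apply IntF.union | with_reducible apply IntF.iimage | with_reducible apply IntF.ite | with_reducible apply IntF.the | with_reducible apply IntF.irec | with_reducible apply IntF.succ | with_reducible apply IntF.val | with_reducible apply IntF.mk | (with_reducible refine Int.comp ?_ ?_; assumption) | (with_reducible refine Int.comp₂ ?_ ?_ ?_; assumption) | (with_reducible refine Int.comp₃ ?_ ?_ ?_ ?_; assumption) | (with_reducible refine Int.comp₄ ?_ ?_ ?_ ?_ ?_; assumption) | (with_reducible refine IntF.comp ?_ ?_; assumption) | (with_reducible refine IntF.comp₂ ?_ ?_ ?_; assumption) | (with_reducible refine IntF.comp₃ ?_ ?_ ?_ ?_; assumption) | with_reducible apply IntF.pair))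
  have hW : ∀ (i : El j) (s : S), ∃ n, ∀ x : INat N × (S × (Y × INat N)),
      D (i, ((0, (s, (y0, 0))), x)) < q n → (x = (0, (s, (y0, 0))) ∨
        (x.1 = INat.succ 0 ∧ ∃ k, C (i, ((s, x.2.2.1), k))) ∨
        (x.1 = INat.succ (INat.succ 0) ∧ C (i, ((s, x.2.2.1), x.2.2.2)))) := by
    intro i s
    obtain ⟨h1, h2, h3, h4, h5⟩ := h i
    have hop : CO p C (i, sep N fun x : INat N × (S × (Y × INat N)) =>
      x = (0, (s, (y0, 0))) ∨ (x.1 = INat.succ 0 ∧ ∃ k, C (i, ((s, x.2.2.1), k))) ∨
        (x.1 = INat.succ (INat.succ 0) ∧ C (i, ((s, x.2.2.1), x.2.2.2)))) := by
      refine ⟨fun x hx hk => ?_, fun x hx hk => ?_⟩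
      · rw [mem_sep (hWI i s)] at hx
        have hxs : x.2.1 = s := by
          rcases hx with rfl | ⟨g1, -⟩ | ⟨g1, -⟩
          · rfl
          · exact absurd (g1.symm.trans hk) e1
          · exact absurd (g1.symm.trans hk) e2
        refine ⟨h1 s, fun x' g1 g2 => (mem_sep (hWI i s)).2 ?_⟩
        change h1 s ≤ p (i, (x.2.1, x'.2.2.1)) at g1
        rw [hxs] at g1
        rcases g2 with g2 | ⟨g2, g3⟩
        · exact Or.inr (Or.inl ⟨g2, _, h5 _ _ g1⟩)
        · change C (i, ((x.2.1, x'.2.2.1), x'.2.2.2)) at g3
          rw [hxs] at g3
          exact Or.inr (Or.inr ⟨g2, g3⟩)
      · rw [mem_sep (hWI i s)] at hx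
        rcases hx with rfl | ⟨-, k, g1⟩ | ⟨g1, -⟩
        · exact absurd hk.symm e1
        · refine ⟨k, fun x' g2 g3 g4 => (mem_sep (hWI i s)).2 (Or.inr (Or.inr ⟨g2, ?_⟩))⟩
          rw [g3]
          exact up _ _ _ _ _ g4 g1
        · exact absurd (g1.symm.trans hk) e3
    obtain ⟨ε, h6, h7⟩ := (key i _).1 hop (0, (s, (y0, 0))) ((mem_sep (hWI i s)).2 (Or.inl rfl))
    obtain ⟨n, hn⟩ := hq.lim ε h6
    exact ⟨n, fun x hx => (mem_sep (hWI i s)).1 (h7 x (hx.trans hn))⟩
  obtain ⟨ν, hν, hν1⟩ := exists_mu (γ := El j × S) (R := fun c n =>
    ∀ x : INat N × (S × (Y × INat N)),
      D (c.1, ((0, (c.2, (y0, 0))), x)) < q n → (x = (0, (c.2, (y0, 0))) ∨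
        (x.1 = INat.succ 0 ∧ ∃ k, C (c.1, ((c.2, x.2.2.1), k))) ∨
        (x.1 = INat.succ (INat.succ 0) ∧ C (c.1, ((c.2, x.2.2.1), x.2.2.2))))) (by (repeat' (first | with_reducible apply memPE | with_reducible apply memPE' | with_reducible apply memPE'' | with_reducible apply memCode | with_reducible apply memCodeP | with_reducible apply memCode₂ | with_reducible apply eqPE | with_reducible apply eqPE' | with_reducible exact IntF.id | with_reducible exact IntF.fst' | with_reducible exact IntF.snd' | with_reducible exact IntF.const _ | with_reducible exact Int.const _ | assumption | with_reducible apply Int.and | with_reducible apply Int.or | with_reducible apply Int.not | with_reducible apply Int.imp | with_reducible apply Int.iff | with_reducible apply Int.ne | with_reducible apply Int.eq | with_reducible apply Int.mem | with_reducible apply Int.subset | with_reducible apply Int.ltN | with_reducible apply Int.leN | with_reducible_and_instances apply Int.le | with_reducible_and_instances apply Int.lt | with_reducible apply Int.all | with_reducible apply Int.ex | with_reducible apply IntF.fst | with_reducible apply IntF.snd | with_reducible apply IntF.app | with_reducible apply IntF.inl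 | with_reducible apply IntF.inr | with_reducible_and_instances apply IntF.mul | with_reducible_and_instances apply IntF.inv | with_reducible_and_instances apply IntF.add | with_reducible_and_instances apply IntF.sub | with_reducible_and_instances apply IntF.neg | with_reducible_and_instances apply IntF.smul | with_reducible apply Int.fin | with_reducible apply IntF.sep | with_reducible apply IntF.lam | with_reducible apply IntF.insert | with_reducible apply IntF.singleton | with_reducible apply IntF.union | with_reducible apply IntF.iimage | with_reducible apply IntF.ite | with_reducible apply IntF.the | with_reducible apply IntF.irec | with_reducible apply IntF.succ | with_reducible apply IntF.val | with_reducible apply IntF.mk | (with_reducible refine Int.comp ?_ ?_; assumption) | (with_reducible refine Int.comp₂ ?_ ?_ ?_; assumption) | (with_reducible refine Int.comp₃ ?_ ?_ ?_ ?_; assumption) | (with_reducible refine Int.comp₄ ?_ ?_ ?_ ?_ ?_; assumption) | (with_reducible refine IntF.comp ?_ ?_; assumption) | (with_reducible refine IntF.comp₂ ?_ ?_ ?_; assumption) | (with_reducible refine IntF.comp₃ ?_ ?_ ?_ ?_; assumption) | with_reducible apply IntF.pair)))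
    fun c => hW c.1 c.2
  have hball : ∀ (i : El j) (a : INat N × (S × (Y × INat N))) (ε : El r),
      CO p C (i, sep N fun b => D (i, (a, b)) < ε) := fun i a ε => ball_open (hQ i) hr a ε
  have hbI : ∀ (i : El j) (a : INat N × (S × (Y × INat N))) (ε : El r),
      Int N (fun b => D (i, (a, b)) < ε) := by
    intro i a ε
    (repeat' (first | with_reducible apply memPE | with_reducible apply memPE' | with_reducible apply memPE'' | with_reducible apply memCode | with_reducible apply memCodeP | with_reducible apply memCode₂ | with_reducible apply eqPE | with_reducible apply eqPE' | with_reducible exact IntF.id | with_reducible exact IntF.fst' | with_reducible exact IntF.snd' | with_reducible exact IntF.const _ | with_reducible exact Int.const _ | assumption | with_reducible apply Int.and | with_reducible apply Int.or | with_reducible apply Int.not | with_reducible apply Int.imp | with_reducible apply Int.iff | with_reducible apply Int.ne | with_reducible apply Int.eq | with_reducible apply Int.mem | with_reducible apply Int.subset | with_reducible apply Int.ltN | with_reducible apply Int.leN | with_reducible_and_instances apply Int.le | with_reducible_and_instances apply Int.lt | with_reducible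 apply Int.all | with_reducible apply Int.ex | with_reducible apply IntF.fst | with_reducible apply IntF.snd | with_reducible apply IntF.app | with_reducible apply IntF.inl | with_reducible apply IntF.inr | with_reducible_and_instances apply IntF.mul | with_reducible_and_instances apply IntF.inv | with_reducible_and_instances apply IntF.add | with_reducible_and_instances apply IntF.sub | with_reducible_and_instances apply IntF.neg | with_reducible_and_instances apply IntF.smul | with_reducible apply Int.fin | with_reducible apply IntF.sep | with_reducible apply IntF.lam | with_reducible apply IntF.insert | with_reducible apply IntF.singleton | with_reducible apply IntF.union | with_reducible apply IntF.iimage | with_reducible apply IntF.ite | with_reducible apply IntF.the | with_reducible apply IntF.irec | with_reducible apply IntF.succ | with_reducible apply IntF.val | with_reducible apply IntF.mk | (with_reducible refine Int.comp ?_ ?_; assumption) | (with_reducible refine Int.comp₂ ?_ ?_ ?_; assumption) | (with_reducible refine Int.comp₃ ?_ ?_ ?_ ?_; assumption) | (with_reducible refine Int.comp₄ ?_ ?_ ?_ ?_ ?_; assumption) | (with_reducible refine IntF.comp ?_ ?_; assumption) |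 (with_reducible refine IntF.comp₂ ?_ ?_ ?_; assumption) | (with_reducible refine IntF.comp₃ ?_ ?_ ?_ ?_; assumption) | with_reducible apply IntF.pair))
  have hself : ∀ (i : El j) (a : INat N × (S × (Y × INat N))), D (i, (a, a)) = 0 :=
    fun i a => (hQ i).self a
  obtain ⟨a, ha, ha1⟩ := exists_mu (γ := El j × S) (R := fun c m => ∀ y : Y,
    m ≤ p (c.1, (c.2, y)) → D (c.1, ((0, (c.2, (y0, 0))), (INat.succ 0, (s0, (y, 0))))) <
      q (ν c).succ) (by (repeat' (first | with_reducible apply memPE | with_reducible apply memPE' | with_reducible apply memPE'' | with_reducible apply memCode | with_reducible apply memCodeP | with_reducible apply memCode₂ | with_reducible apply eqPE | with_reducible apply eqPE' | with_reducible exact IntF.id | with_reducible exact IntF.fst' | with_reducible exact IntF.snd' | with_reducible exact IntF.const _ | with_reducible exact Int.const _ | assumption | with_reducible apply Int.and | with_reducible apply Int.or | with_reducible apply Int.not | with_reducible apply Int.imp | with_reducible apply Int.iff | with_reducible apply Int.ne | with_reducible apply Int.eq | with_reducible apply Int.mem | with_reducible apply Int.subset | with_reducible apply Int.ltN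 | with_reducible apply Int.leN | with_reducible_and_instances apply Int.le | with_reducible_and_instances apply Int.lt | with_reducible apply Int.all | with_reducible apply Int.ex | with_reducible apply IntF.fst | with_reducible apply IntF.snd | with_reducible apply IntF.app | with_reducible apply IntF.inl | with_reducible apply IntF.inr | with_reducible_and_instances apply IntF.mul | with_reducible_and_instances apply IntF.inv | with_reducible_and_instances apply IntF.add | with_reducible_and_instances apply IntF.sub | with_reducible_and_instances apply IntF.neg | with_reducible_and_instances apply IntF.smul | with_reducible apply Int.fin | with_reducible apply IntF.sep | with_reducible apply IntF.lam | with_reducible apply IntF.insert | with_reducible apply IntF.singleton | with_reducible apply IntF.union | with_reducible apply IntF.iimage | with_reducible apply IntF.ite | with_reducible apply IntF.the | with_reducible apply IntF.irec | with_reducible apply IntF.succ | with_reducible apply IntF.val | with_reducible apply IntF.mk | (with_reducible refine Int.comp ?_ ?_; assumption) | (with_reducible refine Int.comp₂ ?_ ?_ ?_; assumption) | (with_reducible refine Int.comp₃ ?_ ?_ ?_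 ?_; assumption) | (with_reducible refine Int.comp₄ ?_ ?_ ?_ ?_ ?_; assumption) | (with_reducible refine IntF.comp ?_ ?_; assumption) | (with_reducible refine IntF.comp₂ ?_ ?_ ?_; assumption) | (with_reducible refine IntF.comp₃ ?_ ?_ ?_ ?_; assumption) | with_reducible apply IntF.pair))) fun c => by
        obtain ⟨m, hm⟩ := (hball c.1 (0, (c.2, (y0, 0))) (q (ν c).succ)).1 (0, (c.2, (y0, 0)))
          ((mem_sep (hbI _ _ _)).2 (by rw [hself]; exact hq.pos _)) rfl
        exact ⟨m, fun y hy => (mem_sep (hbI _ _ _)).1 (hm (INat.succ 0, (s0, (y, 0))) hy
          (Or.inl rfl))⟩
  obtain ⟨b, hb, hb1⟩ := exists_mu (γ := El j × (Y × INat N)) (R := fun c m => ∀ k,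
    m ≤ k → D (c.1, ((INat.succ 0, (s0, (c.2.1, 0))),
      (INat.succ (INat.succ 0), (s0, (c.2.1, k))))) < q c.2.2.succ) (by (repeat' (first | with_reducible apply memPE | with_reducible apply memPE' | with_reducible apply memPE'' | with_reducible apply memCode | with_reducible apply memCodeP | with_reducible apply memCode₂ | with_reducible apply eqPE | with_reducible apply eqPE' | with_reducible exact IntF.id | with_reducible exact IntF.fst' | with_reducible exact IntF.snd' | with_reducible exact IntF.const _ | with_reducible exact Int.const _ | assumption | with_reducible apply Int.and | with_reducible apply Int.or | with_reducible apply Int.not | with_reducible apply Int.imp | with_reducible apply Int.iff | with_reducible apply Int.ne | with_reducible apply Int.eq | with_reducible apply Int.mem | with_reducible apply Int.subset | with_reducible apply Int.ltN | with_reducible apply Int.leN | with_reducible_and_instances apply Int.le | with_reducible_and_instances apply Int.lt | with_reducible apply Int.all | with_reducible apply Int.ex | with_reducible apply IntF.fst | with_reducible apply IntF.snd | with_reducible apply IntF.app | with_reducible apply IntF.inl | with_reducible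 apply IntF.inr | with_reducible_and_instances apply IntF.mul | with_reducible_and_instances apply IntF.inv | with_reducible_and_instances apply IntF.add | with_reducible_and_instances apply IntF.sub | with_reducible_and_instances apply IntF.neg | with_reducible_and_instances apply IntF.smul | with_reducible apply Int.fin | with_reducible apply IntF.sep | with_reducible apply IntF.lam | with_reducible apply IntF.insert | with_reducible apply IntF.singleton | with_reducible apply IntF.union | with_reducible apply IntF.iimage | with_reducible apply IntF.ite | with_reducible apply IntF.the | with_reducible apply IntF.irec | with_reducible apply IntF.succ | with_reducible apply IntF.val | with_reducible apply IntF.mk | (with_reducible refine Int.comp ?_ ?_; assumption) | (with_reducible refine Int.comp₂ ?_ ?_ ?_; assumption) | (with_reducible refine Int.comp₃ ?_ ?_ ?_ ?_; assumption) | (with_reducible refine Int.comp₄ ?_ ?_ ?_ ?_ ?_; assumption) | (with_reducible refine IntF.comp ?_ ?_; assumption) | (with_reducible refine IntF.comp₂ ?_ ?_ ?_; assumption) | (with_reducible refine IntF.comp₃ ?_ ?_ ?_ ?_; assumption) | with_reducible apply IntF.pair))) fun c => by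
        obtain ⟨m, hm⟩ := (hball c.1 (INat.succ 0, (s0, (c.2.1, 0))) (q c.2.2.succ)).2
          (INat.succ 0, (s0, (c.2.1, 0)))
          ((mem_sep (hbI _ _ _)).2 (by rw [hself]; exact hq.pos _)) rfl
        exact ⟨m, fun k hk => (mem_sep (hbI _ _ _)).1 (hm (INat.succ (INat.succ 0),
          (s0, (c.2.1, k))) rfl rfl hk)⟩
  refine ⟨ν, a, b, hν, ha, hb, fun i y n n' hn => (hb1 (i, (y, n))).2 _ fun k hk => ?_,
    fun i s y hy => ?_⟩
  · refine ((hb1 (i, (y, n'))).1 k hk).trans_le (hq.anti hr ?_)
    exact INat.succ_le_iff.2 (INat.lt_succ_iff.2 hn)
  · have h1 := (ha1 (i, s)).1 y hy
    have h2 := (hb1 (i, (y, ν (i, s)))).1 _ le_rfl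
    have h3 := (hQ i).tri (0, (s, (y0, 0))) (INat.succ 0, (s0, (y, 0)))
      (INat.succ (INat.succ 0), (s0, (y, b (i, (y, ν (i, s))))))
    have h4 := hq.succ (ν (i, s))
    have h5 := (hν1 (i, s)).1 (INat.succ (INat.succ 0), (s0, (y, b (i, (y, ν (i, s)))))) (by
      dsimp only at h1 h2 h3 ⊢
      linarith)
    rcases h5 with h5 | ⟨h5, -⟩ | ⟨-, h5⟩
    · exact absurd (congrArg Prod.fst h5) e2
    · exact absurd h5 e3
    · exact h5

/-- **Canonical solutions of pairwise constraints.** -/
theorem pairwise (hr : IsReals r) (hc : CPQM r) (hj : IsCountable j)
    {G : El j × ((S × S) × (INat N × INat N)) → Prop} (hG : Int N G)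
    (up : ∀ i s s' a b a' b', a ≤ a' → b ≤ b' → G (i, ((s, s'), (a, b))) →
      G (i, ((s, s'), (a', b'))))
    (sy : ∀ i s s' a b, G (i, ((s, s'), (a, b))) → G (i, ((s', s), (b, a))))
    (h : ∀ i, ∃ f : S → INat N, IntF N f ∧ ∀ s s', G (i, ((s, s'), (f s, f s')))) :
    ∃ H : El j × S → INat N, IntF N H ∧ ∀ i s s', G (i, ((s, s'), (H (i, s), H (i, s')))) := by
  obtain ⟨Δ, hΔ, hΔ1⟩ := exists_mu (γ := El j × (S × S)) (R := fun c m =>
    G (c.1, (c.2, (m, m)))) (by (repeat' (first | with_reducible apply memPE | with_reducible apply memPE' | with_reducible apply memPE'' | with_reducible apply memCode | with_reducible apply memCodeP | with_reducible apply memCode₂ | with_reducible apply eqPE | with_reducible apply eqPE' | with_reducible exact IntF.id | with_reducible exact IntF.fst' | with_reducible exact IntF.snd' | with_reducible exact IntF.const _ | with_reducible exact Int.const _ | assumption | with_reducible apply Int.and | with_reducible apply Int.or | with_reducible apply Int.not | with_reducible apply Int.imp | with_reducible apply Int.iff | with_reducible apply Int.ne | with_reducible apply Int.eq | with_reducible apply Int.mem | with_reducible apply Int.subset | with_reducible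 apply Int.ltN | with_reducible apply Int.leN | with_reducible_and_instances apply Int.le | with_reducible_and_instances apply Int.lt | with_reducible apply Int.all | with_reducible apply Int.ex | with_reducible apply IntF.fst | with_reducible apply IntF.snd | with_reducible apply IntF.app | with_reducible apply IntF.inl | with_reducible apply IntF.inr | with_reducible_and_instances apply IntF.mul | with_reducible_and_instances apply IntF.inv | with_reducible_and_instances apply IntF.add | with_reducible_and_instances apply IntF.sub | with_reducible_and_instances apply IntF.neg | with_reducible_and_instances apply IntF.smul | with_reducible apply Int.fin | with_reducible apply IntF.sep | with_reducible apply IntF.lam | with_reducible apply IntF.insert | with_reducible apply IntF.singleton | with_reducible apply IntF.union | with_reducible apply IntF.iimage | with_reducible apply IntF.ite | with_reducible apply IntF.the | with_reducible apply IntF.irec | with_reducible apply IntF.succ | with_reducible apply IntF.val | with_reducible apply IntF.mk | (with_reducible refine Int.comp ?_ ?_; assumption) | (with_reducible refine Int.comp₂ ?_ ?_ ?_; assumption) | (with_reducible refine Int.comp₃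 ?_ ?_ ?_ ?_; assumption) | (with_reducible refine Int.comp₄ ?_ ?_ ?_ ?_ ?_; assumption) | (with_reducible refine IntF.comp ?_ ?_; assumption) | (with_reducible refine IntF.comp₂ ?_ ?_ ?_; assumption) | (with_reducible refine IntF.comp₃ ?_ ?_ ?_ ?_; assumption) | with_reducible apply IntF.pair))) fun c => by
      obtain ⟨f, -, hf⟩ := h c.1
      exact ⟨max (f c.2.1) (f c.2.2), up _ _ _ _ _ _ _ (le_max_left _ _) (le_max_right _ _)
        (hf c.2.1 c.2.2)⟩
  have hΔs : ∀ i s s', Δ (i, (s, s')) = Δ (i, (s', s)) := fun i s s' =>
    le_antisymm ((hΔ1 (i, (s, s'))).2 _ (sy _ _ _ _ _ (hΔ1 (i, (s', s))).1))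
      ((hΔ1 (i, (s', s))).2 _ (sy _ _ _ _ _ (hΔ1 (i, (s, s'))).1))
  -- the first application
  obtain ⟨ν, a, b, hν, ha, hb, hbm, hab⟩ := corner hr hc hj (S := S) (Y := S) (p := Δ)
    (C := fun c => Δ (c.1, c.2.1) ≤ c.2.2) hΔ (by (repeat' (first | with_reducible apply memPE | with_reducible apply memPE' | with_reducible apply memPE'' | with_reducible apply memCode | with_reducible apply memCodeP | with_reducible apply memCode₂ | with_reducible apply eqPE | with_reducible apply eqPE' | with_reducible exact IntF.id | with_reducible exact IntF.fst' | with_reducible exact IntF.snd' | with_reducible exact IntF.const _ | with_reducible exact Int.const _ | assumption | with_reducible apply Int.and | with_reducible apply Int.or | with_reducible apply Int.not | with_reducible apply Int.imp | with_reducible apply Int.iff | with_reducible apply Int.ne | with_reducible apply Int.eq | with_reducible apply Int.mem | with_reducible apply Int.subset | with_reducible apply Int.ltN | with_reducible apply Int.leN | with_reducible_and_instances apply Int.le | with_reducible_and_instances apply Int.lt | with_reducible apply Int.all | with_reducible apply Int.ex | with_reducible apply IntF.fst | with_reducible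 apply IntF.snd | with_reducible apply IntF.app | with_reducible apply IntF.inl | with_reducible apply IntF.inr | with_reducible_and_instances apply IntF.mul | with_reducible_and_instances apply IntF.inv | with_reducible_and_instances apply IntF.add | with_reducible_and_instances apply IntF.sub | with_reducible_and_instances apply IntF.neg | with_reducible_and_instances apply IntF.smul | with_reducible apply Int.fin | with_reducible apply IntF.sep | with_reducible apply IntF.lam | with_reducible apply IntF.insert | with_reducible apply IntF.singleton | with_reducible apply IntF.union | with_reducible apply IntF.iimage | with_reducible apply IntF.ite | with_reducible apply IntF.the | with_reducible apply IntF.irec | with_reducible apply IntF.succ | with_reducible apply IntF.val | with_reducible apply IntF.mk | (with_reducible refine Int.comp ?_ ?_; assumption) | (with_reducible refine Int.comp₂ ?_ ?_ ?_; assumption) | (with_reducible refine Int.comp₃ ?_ ?_ ?_ ?_; assumption) | (with_reducible refine Int.comp₄ ?_ ?_ ?_ ?_ ?_; assumption) | (with_reducible refine IntF.comp ?_ ?_; assumption) | (with_reducible refine IntF.comp₂ ?_ ?_ ?_; assumption) | (with_reducible refine IntF.comp₃ ?_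 ?_ ?_ ?_; assumption) | with_reducible apply IntF.pair))) (fun i s y k k' hk h1 => h1.trans hk)
    fun i => by
      obtain ⟨f, hf, hf1⟩ := h i
      refine ⟨fun s => (f s).succ, f, by (repeat' (first | with_reducible apply memPE | with_reducible apply memPE' | with_reducible apply memPE'' | with_reducible apply memCode | with_reducible apply memCodeP | with_reducible apply memCode₂ | with_reducible apply eqPE | with_reducible apply eqPE' | with_reducible exact IntF.id | with_reducible exact IntF.fst' | with_reducible exact IntF.snd' | with_reducible exact IntF.const _ | with_reducible exact Int.const _ | assumption | with_reducible apply Int.and | with_reducible apply Int.or | with_reducible apply Int.not | with_reducible apply Int.imp | with_reducible apply Int.iff | with_reducible apply Int.ne | with_reducible apply Int.eq | with_reducible apply Int.mem | with_reducible apply Int.subset | with_reducible apply Int.ltN | with_reducible apply Int.leN | with_reducible_and_instances apply Int.le | with_reducible_and_instances apply Int.lt | with_reducible apply Int.all | with_reducible apply Int.ex | with_reducible apply IntF.fst | with_reducible apply IntF.snd | with_reducible apply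 IntF.app | with_reducible apply IntF.inl | with_reducible apply IntF.inr | with_reducible_and_instances apply IntF.mul | with_reducible_and_instances apply IntF.inv | with_reducible_and_instances apply IntF.add | with_reducible_and_instances apply IntF.sub | with_reducible_and_instances apply IntF.neg | with_reducible_and_instances apply IntF.smul | with_reducible apply Int.fin | with_reducible apply IntF.sep | with_reducible apply IntF.lam | with_reducible apply IntF.insert | with_reducible apply IntF.singleton | with_reducible apply IntF.union | with_reducible apply IntF.iimage | with_reducible apply IntF.ite | with_reducible apply IntF.the | with_reducible apply IntF.irec | with_reducible apply IntF.succ | with_reducible apply IntF.val | with_reducible apply IntF.mk | (with_reducible refine Int.comp ?_ ?_; assumption) | (with_reducible refine Int.comp₂ ?_ ?_ ?_; assumption) | (with_reducible refine Int.comp₃ ?_ ?_ ?_ ?_; assumption) | (with_reducible refine Int.comp₄ ?_ ?_ ?_ ?_ ?_; assumption) | (with_reducible refine IntF.comp ?_ ?_; assumption) | (with_reducible refine IntF.comp₂ ?_ ?_ ?_; assumption) | (with_reducible refine IntF.comp₃ ?_ ?_ ?_ ?_; assumption) | with_reducible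 apply IntF.pair)), hf, fun s y h1 => ?_⟩
      by_contra h2
      have h2 := not_le.1 h2
      have h3 : max (f s) (f y) < Δ (i, (s, y)) := max_lt (INat.succ_le_iff.1 h1) h2
      exact absurd ((hΔ1 (i, (s, y))).2 _ (up _ _ _ _ _ _ _ (le_max_left _ _) (le_max_right _ _)
        (hf1 s y))) (not_le.2 h3)
  obtain ⟨g, hg, hg1⟩ := exists_mu (γ := El j × S) (R := fun c m =>
    a c ≤ m ∧ b (c.1, (c.2, ν c)) ≤ m) (by (repeat' (first | with_reducible apply memPE | with_reducible apply memPE' | with_reducible apply memPE'' | with_reducible apply memCode | with_reducible apply memCodeP | with_reducible apply memCode₂ | with_reducible apply eqPE | with_reducible apply eqPE' | with_reducible exact IntF.id | with_reducible exact IntF.fst' | with_reducible exact IntF.snd' | with_reducible exact IntF.const _ | with_reducible exact Int.const _ | assumption | with_reducible apply Int.and | with_reducible apply Int.or | with_reducible apply Int.not | with_reducible apply Int.imp | with_reducible apply Int.iff | with_reducible apply Int.ne | with_reducible apply Int.eq | with_reducible apply Int.mem | with_reducible apply Int.subset | with_reducible apply Int.ltN | with_reducible apply Int.leN | with_reducible_and_instances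 apply Int.le | with_reducible_and_instances apply Int.lt | with_reducible apply Int.all | with_reducible apply Int.ex | with_reducible apply IntF.fst | with_reducible apply IntF.snd | with_reducible apply IntF.app | with_reducible apply IntF.inl | with_reducible apply IntF.inr | with_reducible_and_instances apply IntF.mul | with_reducible_and_instances apply IntF.inv | with_reducible_and_instances apply IntF.add | with_reducible_and_instances apply IntF.sub | with_reducible_and_instances apply IntF.neg | with_reducible_and_instances apply IntF.smul | with_reducible apply Int.fin | with_reducible apply IntF.sep | with_reducible apply IntF.lam | with_reducible apply IntF.insert | with_reducible apply IntF.singleton | with_reducible apply IntF.union | with_reducible apply IntF.iimage | with_reducible apply IntF.ite | with_reducible apply IntF.the | with_reducible apply IntF.irec | with_reducible apply IntF.succ | with_reducible apply IntF.val | with_reducible apply IntF.mk | (with_reducible refine Int.comp ?_ ?_; assumption) | (with_reducible refine Int.comp₂ ?_ ?_ ?_; assumption) | (with_reducible refine Int.comp₃ ?_ ?_ ?_ ?_; assumption) | (with_reducible refine Int.comp₄ ?_ ?_ ?_ ?_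 ?_; assumption) | (with_reducible refine IntF.comp ?_ ?_; assumption) | (with_reducible refine IntF.comp₂ ?_ ?_ ?_; assumption) | (with_reducible refine IntF.comp₃ ?_ ?_ ?_ ?_; assumption) | with_reducible apply IntF.pair))) fun c =>
      ⟨max (a c) (b (c.1, (c.2, ν c))), le_max_left _ _, le_max_right _ _⟩
  have hgd : ∀ i s y, Δ (i, (s, y)) ≤ max (g (i, s)) (g (i, y)) := by
    have aux : ∀ i s y, ν (i, s) ≤ ν (i, y) → Δ (i, (s, y)) ≤ max (g (i, s)) (g (i, y)) := by
      intro i s y hn
      rcases le_or_gt (a (i, s)) (Δ (i, (s, y))) with h1 | h1
      · have h2 : Δ (i, (s, y)) ≤ b (i, (y, ν (i, s))) := hab i s y h1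
        exact (h2.trans ((hbm i y _ _ hn).trans (hg1 (i, y)).1.2)).trans (le_max_right _ _)
      · exact (h1.le.trans (hg1 (i, s)).1.1).trans (le_max_left _ _)
    intro i s y
    rcases le_total (ν (i, s)) (ν (i, y)) with h1 | h1
    · exact aux i s y h1
    · rw [hΔs, max_comm]
      exact aux i y s h1
  -- the second application
  obtain ⟨ν', a', b', hν', ha', hb', hbm', hab'⟩ := corner hr hc hj (S := S) (Y := INat N × S)
    (p := fun c => c.2.2.1) (C := fun c => G (c.1, ((c.2.1.1, c.2.1.2.2), (c.2.1.2.1, c.2.2))))
    (by (repeat' (first | with_reducible apply memPE | with_reducible apply memPE' | with_reducible apply memPE'' | with_reducible apply memCode | with_reducible apply memCodeP | with_reducible apply memCode₂ | with_reducible apply eqPE | with_reducible apply eqPE' | with_reducible exact IntF.id | with_reducible exact IntF.fst' | with_reducible exact IntF.snd' | with_reducible exact IntF.const _ | with_reducible exact Int.const _ | assumption | with_reducible apply Int.and | with_reducible apply Int.or | with_reducible apply Int.not | with_reducible apply Int.imp | with_reducible apply Int.iff | with_reducible apply Int.ne | with_reducible apply Int.eq | with_reducible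 apply Int.mem | with_reducible apply Int.subset | with_reducible apply Int.ltN | with_reducible apply Int.leN | with_reducible_and_instances apply Int.le | with_reducible_and_instances apply Int.lt | with_reducible apply Int.all | with_reducible apply Int.ex | with_reducible apply IntF.fst | with_reducible apply IntF.snd | with_reducible apply IntF.app | with_reducible apply IntF.inl | with_reducible apply IntF.inr | with_reducible_and_instances apply IntF.mul | with_reducible_and_instances apply IntF.inv | with_reducible_and_instances apply IntF.add | with_reducible_and_instances apply IntF.sub | with_reducible_and_instances apply IntF.neg | with_reducible_and_instances apply IntF.smul | with_reducible apply Int.fin | with_reducible apply IntF.sep | with_reducible apply IntF.lam | with_reducible apply IntF.insert | with_reducible apply IntF.singleton | with_reducible apply IntF.union | with_reducible apply IntF.iimage | with_reducible apply IntF.ite | with_reducible apply IntF.the | with_reducible apply IntF.irec | with_reducible apply IntF.succ | with_reducible apply IntF.val | with_reducible apply IntF.mk | (with_reducible refine Int.comp ?_ ?_; assumption) | (with_reducible refine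 Int.comp₂ ?_ ?_ ?_; assumption) | (with_reducible refine Int.comp₃ ?_ ?_ ?_ ?_; assumption) | (with_reducible refine Int.comp₄ ?_ ?_ ?_ ?_ ?_; assumption) | (with_reducible refine IntF.comp ?_ ?_; assumption) | (with_reducible refine IntF.comp₂ ?_ ?_ ?_; assumption) | (with_reducible refine IntF.comp₃ ?_ ?_ ?_ ?_; assumption) | with_reducible apply IntF.pair))) (by (repeat' (first | with_reducible apply memPE | with_reducible apply memPE' | with_reducible apply memPE'' | with_reducible apply memCode | with_reducible apply memCodeP | with_reducible apply memCode₂ | with_reducible apply eqPE | with_reducible apply eqPE' | with_reducible exact IntF.id | with_reducible exact IntF.fst' | with_reducible exact IntF.snd' | with_reducible exact IntF.const _ | with_reducible exact Int.const _ | assumption | with_reducible apply Int.and | with_reducible apply Int.or | with_reducible apply Int.not | with_reducible apply Int.imp | with_reducible apply Int.iff | with_reducible apply Int.ne | with_reducible apply Int.eq | with_reducible apply Int.mem | with_reducible apply Int.subset | with_reducible apply Int.ltN | with_reducible apply Int.leN | with_reducible_and_instances apply Int.le | with_reducible_and_instances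 apply Int.lt | with_reducible apply Int.all | with_reducible apply Int.ex | with_reducible apply IntF.fst | with_reducible apply IntF.snd | with_reducible apply IntF.app | with_reducible apply IntF.inl | with_reducible apply IntF.inr | with_reducible_and_instances apply IntF.mul | with_reducible_and_instances apply IntF.inv | with_reducible_and_instances apply IntF.add | with_reducible_and_instances apply IntF.sub | with_reducible_and_instances apply IntF.neg | with_reducible_and_instances apply IntF.smul | with_reducible apply Int.fin | with_reducible apply IntF.sep | with_reducible apply IntF.lam | with_reducible apply IntF.insert | with_reducible apply IntF.singleton | with_reducible apply IntF.union | with_reducible apply IntF.iimage | with_reducible apply IntF.ite | with_reducible apply IntF.the | with_reducible apply IntF.irec | with_reducible apply IntF.succ | with_reducible apply IntF.val | with_reducible apply IntF.mk | (with_reducible refine Int.comp ?_ ?_; assumption) | (with_reducible refine Int.comp₂ ?_ ?_ ?_; assumption) | (with_reducible refine Int.comp₃ ?_ ?_ ?_ ?_; assumption) | (with_reducible refine Int.comp₄ ?_ ?_ ?_ ?_ ?_; assumption) | (with_reducible refine IntF.comp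 ?_ ?_; assumption) | (with_reducible refine IntF.comp₂ ?_ ?_ ?_; assumption) | (with_reducible refine IntF.comp₃ ?_ ?_ ?_ ?_; assumption) | with_reducible apply IntF.pair))) (fun i s y k k' hk h1 => up _ _ _ _ _ _ _ le_rfl hk h1) fun i => by
      obtain ⟨f, hf, hf1⟩ := h i
      exact ⟨f, fun c => f c.2, hf, by (repeat' (first | with_reducible apply memPE | with_reducible apply memPE' | with_reducible apply memPE'' | with_reducible apply memCode | with_reducible apply memCodeP | with_reducible apply memCode₂ | with_reducible apply eqPE | with_reducible apply eqPE' | with_reducible exact IntF.id | with_reducible exact IntF.fst' | with_reducible exact IntF.snd' | with_reducible exact IntF.const _ | with_reducible exact Int.const _ | assumption | with_reducible apply Int.and | with_reducible apply Int.or | with_reducible apply Int.not | with_reducible apply Int.imp | with_reducible apply Int.iff | with_reducible apply Int.ne | with_reducible apply Int.eq | with_reducible apply Int.mem | with_reducible apply Int.subset | with_reducible apply Int.ltN | with_reducible apply Int.leN | with_reducible_and_instances apply Int.le | with_reducible_and_instances apply Int.lt | with_reducible apply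 Int.all | with_reducible apply Int.ex | with_reducible apply IntF.fst | with_reducible apply IntF.snd | with_reducible apply IntF.app | with_reducible apply IntF.inl | with_reducible apply IntF.inr | with_reducible_and_instances apply IntF.mul | with_reducible_and_instances apply IntF.inv | with_reducible_and_instances apply IntF.add | with_reducible_and_instances apply IntF.sub | with_reducible_and_instances apply IntF.neg | with_reducible_and_instances apply IntF.smul | with_reducible apply Int.fin | with_reducible apply IntF.sep | with_reducible apply IntF.lam | with_reducible apply IntF.insert | with_reducible apply IntF.singleton | with_reducible apply IntF.union | with_reducible apply IntF.iimage | with_reducible apply IntF.ite | with_reducible apply IntF.the | with_reducible apply IntF.irec | with_reducible apply IntF.succ | with_reducible apply IntF.val | with_reducible apply IntF.mk | (with_reducible refine Int.comp ?_ ?_; assumption) | (with_reducible refine Int.comp₂ ?_ ?_ ?_; assumption) | (with_reducible refine Int.comp₃ ?_ ?_ ?_ ?_; assumption) | (with_reducible refine Int.comp₄ ?_ ?_ ?_ ?_ ?_; assumption) | (with_reducible refine IntF.comp ?_ ?_; assumption) | (with_reducible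 refine IntF.comp₂ ?_ ?_ ?_; assumption) | (with_reducible refine IntF.comp₃ ?_ ?_ ?_ ?_; assumption) | with_reducible apply IntF.pair)), fun s y h1 => up _ _ _ _ _ _ _ h1 le_rfl (hf1 _ _)⟩
  obtain ⟨H, hH, hH1⟩ := exists_mu (γ := El j × S) (R := fun c m =>
    g c ≤ m ∧ a' c ≤ m ∧ ν' c ≤ m ∧ ∀ k, k < g c → b' (c.1, ((k, c.2), k)) ≤ m) (by (repeat' (first | with_reducible apply memPE | with_reducible apply memPE' | with_reducible apply memPE'' | with_reducible apply memCode | with_reducible apply memCodeP | with_reducible apply memCode₂ | with_reducible apply eqPE | with_reducible apply eqPE' | with_reducible exact IntF.id | with_reducible exact IntF.fst' | with_reducible exact IntF.snd' | with_reducible exact IntF.const _ | with_reducible exact Int.const _ | assumption | with_reducible apply Int.and | with_reducible apply Int.or | with_reducible apply Int.not | with_reducible apply Int.imp | with_reducible apply Int.iff | with_reducible apply Int.ne | with_reducible apply Int.eq | with_reducible apply Int.mem | with_reducible apply Int.subset | with_reducible apply Int.ltN | with_reducible apply Int.leN | with_reducible_and_instances apply Int.le | with_reducible_and_instances apply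 Int.lt | with_reducible apply Int.all | with_reducible apply Int.ex | with_reducible apply IntF.fst | with_reducible apply IntF.snd | with_reducible apply IntF.app | with_reducible apply IntF.inl | with_reducible apply IntF.inr | with_reducible_and_instances apply IntF.mul | with_reducible_and_instances apply IntF.inv | with_reducible_and_instances apply IntF.add | with_reducible_and_instances apply IntF.sub | with_reducible_and_instances apply IntF.neg | with_reducible_and_instances apply IntF.smul | with_reducible apply Int.fin | with_reducible apply IntF.sep | with_reducible apply IntF.lam | with_reducible apply IntF.insert | with_reducible apply IntF.singleton | with_reducible apply IntF.union | with_reducible apply IntF.iimage | with_reducible apply IntF.ite | with_reducible apply IntF.the | with_reducible apply IntF.irec | with_reducible apply IntF.succ | with_reducible apply IntF.val | with_reducible apply IntF.mk | (with_reducible refine Int.comp ?_ ?_; assumption) | (with_reducible refine Int.comp₂ ?_ ?_ ?_; assumption) | (with_reducible refine Int.comp₃ ?_ ?_ ?_ ?_; assumption) | (with_reducible refine Int.comp₄ ?_ ?_ ?_ ?_ ?_; assumption) | (with_reducible refine IntF.comp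 ?_ ?_; assumption) | (with_reducible refine IntF.comp₂ ?_ ?_ ?_; assumption) | (with_reducible refine IntF.comp₃ ?_ ?_ ?_ ?_; assumption) | with_reducible apply IntF.pair)))
    fun c => by
      obtain ⟨B, hB⟩ := exists_bd (f := fun k => b' (c.1, ((k, c.2), k))) (by (repeat' (first | with_reducible apply memPE | with_reducible apply memPE' | with_reducible apply memPE'' | with_reducible apply memCode | with_reducible apply memCodeP | with_reducible apply memCode₂ | with_reducible apply eqPE | with_reducible apply eqPE' | with_reducible exact IntF.id | with_reducible exact IntF.fst' | with_reducible exact IntF.snd' | with_reducible exact IntF.const _ | with_reducible exact Int.const _ | assumption | with_reducible apply Int.and | with_reducible apply Int.or | with_reducible apply Int.not | with_reducible apply Int.imp | with_reducible apply Int.iff | with_reducible apply Int.ne | with_reducible apply Int.eq | with_reducible apply Int.mem | with_reducible apply Int.subset | with_reducible apply Int.ltN | with_reducible apply Int.leN | with_reducible_and_instances apply Int.le | with_reducible_and_instances apply Int.lt | with_reducible apply Int.all | with_reducible apply Int.ex | with_reducible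 apply IntF.fst | with_reducible apply IntF.snd | with_reducible apply IntF.app | with_reducible apply IntF.inl | with_reducible apply IntF.inr | with_reducible_and_instances apply IntF.mul | with_reducible_and_instances apply IntF.inv | with_reducible_and_instances apply IntF.add | with_reducible_and_instances apply IntF.sub | with_reducible_and_instances apply IntF.neg | with_reducible_and_instances apply IntF.smul | with_reducible apply Int.fin | with_reducible apply IntF.sep | with_reducible apply IntF.lam | with_reducible apply IntF.insert | with_reducible apply IntF.singleton | with_reducible apply IntF.union | with_reducible apply IntF.iimage | with_reducible apply IntF.ite | with_reducible apply IntF.the | with_reducible apply IntF.irec | with_reducible apply IntF.succ | with_reducible apply IntF.val | with_reducible apply IntF.mk | (with_reducible refine Int.comp ?_ ?_; assumption) | (with_reducible refine Int.comp₂ ?_ ?_ ?_; assumption) | (with_reducible refine Int.comp₃ ?_ ?_ ?_ ?_; assumption) | (with_reducible refine Int.comp₄ ?_ ?_ ?_ ?_ ?_; assumption) | (with_reducible refine IntF.comp ?_ ?_; assumption) | (with_reducible refine IntF.comp₂ ?_ ?_ ?_; assumption) | (with_reducible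 refine IntF.comp₃ ?_ ?_ ?_ ?_; assumption) | with_reducible apply IntF.pair))) (g c)
      exact ⟨max (max (g c) (a' c)) (max (ν' c) B), (le_max_left _ _).trans (le_max_left _ _),
        (le_max_right _ _).trans (le_max_left _ _), (le_max_left _ _).trans (le_max_right _ _),
        fun k hk => (hB k hk).trans ((le_max_right _ _).trans (le_max_right _ _))⟩
  refine ⟨H, hH, ?_⟩
  have aux : ∀ i s y, H (i, s) ≤ H (i, y) → G (i, ((s, y), (H (i, s), H (i, y)))) := by
    intro i s y hsy
    obtain ⟨k1, k2, k3, k4⟩ := (hH1 (i, s)).1
    obtain ⟨l1, l2, l3, l4⟩ := (hH1 (i, y)).1
    rcases le_or_gt (g (i, y)) (H (i, s)) with h1 | h1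
    · have h2 := (hgd i s y).trans (max_le k1 h1)
      exact up _ _ _ _ _ _ _ h2 (h2.trans hsy) (hΔ1 (i, (s, y))).1
    · have h2 := hab' i s (H (i, s), y) k2
      refine up _ _ _ _ _ _ _ le_rfl ?_ h2
      exact (hbm' i _ _ _ k3).trans (l4 _ h1)
  intro i s y
  rcases le_total (H (i, s)) (H (i, y)) with h1 | h1
  · exact aux i s y h1
  · exact sy _ _ _ _ _ (aux i y s h1)

end

end Pool.Agent.Q257.ZQ
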