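import Pool.Agent.Q301.QM.Prod

/-!
# Countable products of quasi-metrizable, bitopological and metrizable spaces: the statements

`IsQuasiMetric`, `IsTau`, `QuasiMetrizable`, `Metrizable`, `IsFam`, `IsProduct` and
`IsProductTopology` are from `Pool.Agent.Q301.QM.Defs` and `Pool.Agent.Q301.QM.Prod`,
`IsCountable` is from `Pool.Agent.Q301.TM.Defs`.
-/

namespace Pool.Agent.Q257.ZQ

open FirstOrder FirstOrder.Language
open Pool.Agent.Helper672.Plain (LSet Mem IsOrdPair El)
open Pool.Agent.Q301.TM (IsCountable)
open Pool.Agent.Q301.QM (IsFam IsProduct IsProductTopology IsTau IsQuasiMetric QuasiMetrizable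
  Metrizable)

universe u

variable {M : Type u} [LSet.Structure M] (r : M) [Field (El r)] [LinearOrder (El r)]

/-- Every countable product of quasi-metrizable spaces is quasi-metrizable. -/
def CPQM : Prop := ∀ (j : M) (X t : El j → M) (P T : M), IsCountable j → IsFam X → IsFam t →
  (∀ i, QuasiMetrizable r (t i) (X i)) → IsProduct P X → IsProductTopology T P t →
    QuasiMetrizable r T P

/-- The bitopological space `x` with the topologies `t₁` and `t₂` is quasi-metrizable: there is one
quasi-metric `d` such that `t₁` is the topology of `d` and `t₂` the topology of the conjugate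
quasi-metric. -/
def BiQuasiMetrizable (t₁ t₂ x : M) : Prop :=
  ∃ d : El x → El x → El r, (IsQuasiMetric d ∧ ∀ a b, d a b = 0 → a = b) ∧ IsTau d t₁ ∧
    IsTau (fun a b => d b a) t₂

/-- Every countable product of quasi-metrizable bitopological spaces is quasi-metrizable. -/
def CPQMBi : Prop := ∀ (j : M) (X t₁ t₂ : El j → M) (P T₁ T₂ : M), IsCountable j → IsFam X →
  IsFam t₁ → IsFam t₂ → (∀ i, BiQuasiMetrizable r (t₁ i) (t₂ i) (X i)) → IsProduct P X →
    IsProductTopology T₁ P t₁ → IsProductTopology T₂ P t₂ → BiQuasiMetrizable r T₁ T₂ P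

/-- Every countable product of metrizable spaces is metrizable. -/
def CPMle : Prop := ∀ (j : M) (X t : El j → M) (P T : M), IsCountable j → IsFam X → IsFam t →
  (∀ i, Metrizable r (t i) (X i)) → IsProduct P X → IsProductTopology T P t → Metrizable r T P

end Pool.Agent.Q257.ZQ
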