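import Pool.Agent.Q301.QM.Prod

/-!
# Families and products of spaces in a model, as internal objects
-/

set_option maxHeartbeats 1000000
set_option linter.all false
set_option synthInstance.maxSize 2000

namespace Pool.Agent.Q257.ZQ

open FirstOrder FirstOrder.Language
open Pool.Agent.Helper672.ZFA hiding Mem El IsOrdPair IsPair
open Pool.Agent.Helper672.Plain (LSet Mem IsOrdPair El)
open Pool.Agent.Helper672.ZFA.H635 (toL plainN_ordPair plainN_graph plainN_opGraph)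
open Pool.Agent.H635Amen (IsReals)
open Pool.Agent.H310Cards (App)
open Pool.Agent.H310Top (IsTopology)
open Pool.Agent.H310 (appN mem_cp extN instPEl)
open Pool.Agent.Q301.TM
open Pool.Agent.Q301.BM (TpO tp mem_tp mem_tp' isTopology_tp mem_cp' mem_domP exists_codeα exists_enum)
open Pool.Agent.Q301.QM (IsFam IsProduct IsProductTopology)

universe u u₁

attribute [local instance] toL instPEl

section

variable {N : Type u} [LSet.Structure N] [hM : IsModel N] {j : N} {α : Type u} [ITy N α]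

theorem isFam_code {F : El j → α} (hF : IntF N F) : IsFam (fun i => code (M := N) (F i)) := by
  have hI : Int N (fun q : El j × α => F q.1 = q.2) := hF
  refine ⟨hI.small.elt, fun i y => ⟨?_, ?_⟩⟩
  · rintro rfl
    exact ⟨_, plainN_ordPair.2 rfl, hI.small.mem.2 ⟨(i, F i), rfl, rfl⟩⟩
  · rintro ⟨p, hp, hpg⟩
    obtain ⟨⟨i', b⟩, h1, h2⟩ := hI.small.mem.1 hpg
    obtain ⟨h3, h4⟩ := op_inj ((h2 : op (code i') (code b) = p).trans (plainN_ordPair.1 hp))
    obtain rfl : i' = i := ITy.inj (M := N) h3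
    rw [← h4, ← (h1 : F i' = b)]

theorem exists_sup {X : El j → N} (hX : IsFam X) : ∃ u, ∀ i z, Mem z (X i) → Mem z u := by
  obtain ⟨g, hg⟩ := hX
  obtain ⟨u1, -, h1⟩ := hM.union g
  obtain ⟨u2, -, h2⟩ := hM.union u1
  obtain ⟨u3, -, h3⟩ := hM.union u2
  refine ⟨u3, fun i z hz => (h3 z).2 ⟨X i, (h2 _).2 ⟨up i.1 (X i), (h1 _).2
    ⟨op i.1 (X i), ?_, mem_up.2 (Or.inr rfl)⟩, mem_up.2 (Or.inr rfl)⟩, hz⟩⟩
  obtain ⟨p, hp, hpg⟩ := (hg i (X i)).1 rfl
  rw [plainN_ordPair] at hp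
  subst hp
  exact hpg

theorem int_fam {X : El j → N} (hX : IsFam X) {β : Type u} [ITy N β] :
    Int N (fun q : El j × β => Mem (code (M := N) q.2) (X q.1)) := by
  obtain ⟨g, hg⟩ := hX
  refine Int.of_D₂ (S := fun v => ∃ y, Helper672.ZFA.Mem (op (v 0) y) g ∧
    Helper672.ZFA.Mem (v 1) y) (D.ex (D.and (D.memf (DF.op (DF.var _) (DF.var _)) (DF.const _))
      (D.memf (DF.var _) (DF.var _)))) fun i b => ⟨?_, ?_⟩
  · rintro ⟨y, h1, h2⟩
    have h3 : X i = y := (hg i y).2 ⟨_, plainN_ordPair.2 rfl, h1⟩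
    change Mem (code (M := N) b) (X i)
    rw [h3]
    exact h2
  · intro h
    obtain ⟨p, hp, hpg⟩ := (hg i (X i)).1 rfl
    rw [plainN_ordPair] at hp
    subst hp
    exact ⟨X i, hpg, h⟩

theorem code_ifun (h : IFun N (El j) α) {z : N} :
    Mem z (code (M := N) h) ↔ ∃ i : El j, z = op i.1 (code (h i)) := by
  refine (mem_cp (s := h.graph)).trans ⟨?_, ?_⟩
  · rintro ⟨⟨i, a⟩, h1, rfl⟩
    exact ⟨i, by rw [(h1 : h i = a)]; rfl⟩
  · rintro ⟨i, rfl⟩
    exact ⟨(i, h i), rfl, rfl⟩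

theorem app_code (h : IFun N (El j) α) (i : El j) {y : N} :
    App (code (M := N) h) i.1 y ↔ y = code (h i) := by
  refine appN.trans ((code_ifun h).trans ?_)
  constructor
  · rintro ⟨i', h1⟩
    obtain ⟨h2, h3⟩ := op_inj h1
    obtain rfl : i = i' := Subtype.ext h2
    exact h3
  · rintro rfl
    exact ⟨i, rfl⟩

theorem ifun_iff {f : N} : (∃ h : IFun N (El j) α, code h = f) ↔
    (∀ q, Mem q f → ∃ (i : El j) (a : α), q = op i.1 (code a)) ∧
      ∀ i : El j, ∃! y, App f i.1 y := by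
  constructor
  · rintro ⟨h, rfl⟩
    refine ⟨fun q hq => ?_, fun i => ⟨code (h i), (app_code h i).2 rfl,
      fun y hy => (app_code h i).1 hy⟩⟩
    obtain ⟨i, rfl⟩ := (code_ifun h).1 hq
    exact ⟨i, h i, rfl⟩
  · rintro ⟨h1, h2⟩
    obtain ⟨U, rfl, hU⟩ := exists_codeα (N := N) (α := El j × α) (u := f) fun z hz => by
      obtain ⟨i, a, rfl⟩ := h1 z hz
      exact mem_domP.2 ⟨(i, a), rfl⟩
    have h3 : ∀ i, ∃ a, (i, a) ∈ U ∧ ∀ b, (i, b) ∈ U → a = b := by
      intro i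
      obtain ⟨y, hy, hu⟩ := h2 i
      have hy' := appN.1 hy
      obtain ⟨i', a, h4⟩ := h1 _ hy'
      obtain ⟨h5, rfl⟩ := op_inj h4
      refine ⟨a, (hU _).2 hy', fun b hb => ITy.inj (M := N) ?_⟩
      exact (hu _ (appN.2 ((hU (i, b)).1 hb))).symm
    choose g hg hgu using h3
    have hgI : IntF N g := U.int.congr fun q => ⟨fun h => hgu _ _ h, fun h => by
      have h4 := hg q.1
      rw [h] at h4
      exact h4⟩
    refine ⟨⟨g, hgI⟩, ?_⟩
    change code (IFun.graph ⟨g, hgI⟩) = code U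
    congr 1
    refine IPow.ext' fun q => ⟨fun h => ?_, fun h => hgu _ _ h⟩
    have h4 : g q.1 = q.2 := h
    have h5 := hg q.1
    rw [h4] at h5
    exact h5

/-- The points of a product. -/
theorem prod_iff {X : El j → N} {P : N} (hP : IsProduct P X)
    (hX : ∀ i z, Mem z (X i) → ∃ a : α, code a = z) {f : N} :
    Mem f P ↔ ∃ h : IFun N (El j) α, (∀ i, Mem (code (M := N) (h i)) (X i)) ∧ code h = f := by
  rw [hP f]
  constructor
  · rintro ⟨h1, h2⟩
    obtain ⟨h, rfl⟩ := (ifun_iff (α := α) (f := f)).2 ⟨fun q hq => by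
      obtain ⟨i, y, h3, h4⟩ := h1 q hq
      obtain ⟨a, rfl⟩ := hX i y h3
      exact ⟨i, a, plainN_ordPair.1 h4⟩, h2⟩
    refine ⟨h, fun i => ?_, rfl⟩
    obtain ⟨i', y, h3, h4⟩ := h1 _ ((code_ifun h).2 ⟨i, rfl⟩)
    obtain ⟨h5, h6⟩ := op_inj (plainN_ordPair.1 h4)
    obtain rfl : i = i' := Subtype.ext h5
    rw [h6]
    exact h3
  · rintro ⟨h, h1, rfl⟩
    refine ⟨fun q hq => ?_, ((ifun_iff (α := α)).1 ⟨h, rfl⟩).2⟩
    obtain ⟨i, rfl⟩ := (code_ifun h).1 hq
    exact ⟨i, _, h1 i, plainN_ordPair.2 rfl⟩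

end

end Pool.Agent.Q257.ZQ
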