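import Pool.Agent.Q257.ZQ.App

/-!
# Countable products of quasi-metrizable bitopological spaces
-/

set_option maxHeartbeats 1000000
set_option linter.all false
set_option synthInstance.maxSize 2000

namespace Pool.Agent.Q257.ZQ

open FirstOrder FirstOrder.Language
open Pool.Agent.Helper672.ZFA hiding Mem El IsOrdPair IsPair
open Pool.Agent.Helper672.Plain (LSet Mem IsOrdPair El)
open Pool.Agent.Helper672.ZFA.H635 (toL plainN_ordPair plainN_graph plainN_opGraph)
open Pool.Agent.H635Amen (IsReals)
open Pool.Agent.H310Cards (App)
open Pool.Agent.H310Top (IsTopology)
open Pool.Agent.H310Metric (IsMetric)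
open Pool.Agent.H310 (appN mem_cp extN instPEl exists_code)
open Pool.Agent.Q301.TM
open Pool.Agent.Q301.BM (TpO tp mem_tp mem_tp' isTopology_tp mem_cp' mem_domP exists_codeα exists_enum)
open Pool.Agent.Q301.QM (HS exists_hs IsFam IsProduct IsProductTopology IsTau IsQuasiMetric
  QuasiMetrizable Metrizable Induces IsBall tau_of_induces isTopology_of_tau)

universe u u₁

attribute [local instance] toL instPEl

section

variable {N : Type u} [LSet.Structure N] [hM : IsModel N] {j : N}
variable {r : N} [Field (El r)] [LinearOrder (El r)] [IsStrictOrderedRing (El r)]

/-- The inclusion. -/
def inc {x v : N} (hxv : ∀ z, Mem z x → Mem z v) (a : El x) : El v := ⟨a.1, hxv a.1 a.2⟩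

omit hM in
theorem inc_surj {x v : N} (hxv : ∀ z, Mem z x → Mem z v) {a : El v} (h : Mem a.1 x) :
    ∃ a' : El x, inc hxv a' = a := ⟨⟨a.1, h⟩, rfl⟩

omit hM in
theorem inc_inj {x v : N} (hxv : ∀ z, Mem z x → Mem z v) {a b : El x} (h : inc hxv a = inc hxv b) :
    a = b := by
  have h1 : (inc hxv a).1 = (inc hxv b).1 := by rw [h]
  exact Subtype.ext h1

open Classical in
theorem ext_dist {x v : N} (hxv : ∀ z, Mem z x → Mem z v) {d : El x → El x → El r}
    (hd : IntF N (fun c : El x × El x => d c.1 c.2)) : ∃ m : El v × El v → El r, IntF N m ∧
      ∀ a b : El x, m (inc hxv a, inc hxv b) = d a b := by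
  by_cases hne : Nonempty (El x)
  swap
  · exact ⟨fun _ => 0, IntF.const _, fun a => absurd ⟨a⟩ hne⟩
  obtain ⟨x0⟩ := hne
  let R : El v → El x := fun a => if h : Mem a.1 x then ⟨a.1, h⟩ else x0
  have hR1 : ∀ (a : El v) (h : Mem a.1 x), R a = ⟨a.1, h⟩ := fun a h => dif_pos h
  have hR2 : ∀ a : El v, ¬ Mem a.1 x → R a = x0 := fun a h => dif_neg h
  have hR : IntF N R := by
    refine IntF.of_rel (r := fun (a : El v) (z : El x) => a.1 = z.1 ∨ (¬ Mem a.1 x ∧ z = x0))
      (by (repeat' (first | with_reducible apply memPE | with_reducible apply memPE' | with_reducible apply memPE'' | with_reducible apply memCode | with_reducible apply memCodeP | with_reducible apply memCode₂ | with_reducible apply eqPE | with_reducible apply eqPE' | with_reducible exact IntF.id | with_reducible exact IntF.fst' | with_reducible exact IntF.snd' | with_reducible exact IntF.const _ | with_reducible exact Int.const _ | assumption | with_reducible apply Int.and | with_reducible apply Int.or | with_reducible apply Int.not | with_reducible apply Int.imp | with_reducible apply Int.iff | with_reducible apply Int.ne | with_reducible apply Int.eq | with_reducible apply Int.mem | with_reducible apply Int.subset | with_reducible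 apply Int.ltN | with_reducible apply Int.leN | with_reducible_and_instances apply Int.le | with_reducible_and_instances apply Int.lt | with_reducible apply Int.all | with_reducible apply Int.ex | with_reducible apply IntF.fst | with_reducible apply IntF.snd | with_reducible apply IntF.app | with_reducible apply IntF.inl | with_reducible apply IntF.inr | with_reducible_and_instances apply IntF.mul | with_reducible_and_instances apply IntF.inv | with_reducible_and_instances apply IntF.add | with_reducible_and_instances apply IntF.sub | with_reducible_and_instances apply IntF.neg | with_reducible_and_instances apply IntF.smul | with_reducible apply Int.fin | with_reducible apply IntF.sep | with_reducible apply IntF.lam | with_reducible apply IntF.insert | with_reducible apply IntF.singleton | with_reducible apply IntF.union | with_reducible apply IntF.iimage | with_reducible apply IntF.ite | with_reducible apply IntF.the | with_reducible apply IntF.irec | with_reducible apply IntF.succ | with_reducible apply IntF.val | with_reducible apply IntF.mk | (with_reducible refine Int.comp ?_ ?_; assumption) | (with_reducible refine Int.comp₂ ?_ ?_ ?_; assumption) | (with_reducible refine Int.comp₃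 ?_ ?_ ?_ ?_; assumption) | (with_reducible refine Int.comp₄ ?_ ?_ ?_ ?_ ?_; assumption) | (with_reducible refine IntF.comp ?_ ?_; assumption) | (with_reducible refine IntF.comp₂ ?_ ?_ ?_; assumption) | (with_reducible refine IntF.comp₃ ?_ ?_ ?_ ?_; assumption) | with_reducible apply IntF.pair))) fun a z => ?_
    by_cases h : Mem a.1 x
    · rw [hR1 a h]
      constructor
      · rintro (h1 | ⟨h1, -⟩)
        · exact Subtype.ext h1
        · exact absurd h h1
      · rintro rfl
        exact Or.inl rfl
    · rw [hR2 a h]
      constructor
      · rintro (h1 | ⟨-, h1⟩)
        · exact absurd (h1 ▸ z.2) h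
        · exact h1.symm
      · rintro rfl
        exact Or.inr ⟨h, rfl⟩
  refine ⟨fun p => d (R p.1) (R p.2), by (repeat' (first | with_reducible apply memPE | with_reducible apply memPE' | with_reducible apply memPE'' | with_reducible apply memCode | with_reducible apply memCodeP | with_reducible apply memCode₂ | with_reducible apply eqPE | with_reducible apply eqPE' | with_reducible exact IntF.id | with_reducible exact IntF.fst' | with_reducible exact IntF.snd' | with_reducible exact IntF.const _ | with_reducible exact Int.const _ | assumption | with_reducible apply Int.and | with_reducible apply Int.or | with_reducible apply Int.not | with_reducible apply Int.imp | with_reducible apply Int.iff | with_reducible apply Int.ne | with_reducible apply Int.eq | with_reducible apply Int.mem | with_reducible apply Int.subset | with_reducible apply Int.ltN | with_reducible apply Int.leN | with_reducible_and_instances apply Int.le | with_reducible_and_instances apply Int.lt | with_reducible apply Int.all | with_reducible apply Int.ex | with_reducible apply IntF.fst | with_reducible apply IntF.snd | with_reducible apply IntF.app | with_reducible apply IntF.inl | with_reducible apply IntF.inr |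 with_reducible_and_instances apply IntF.mul | with_reducible_and_instances apply IntF.inv | with_reducible_and_instances apply IntF.add | with_reducible_and_instances apply IntF.sub | with_reducible_and_instances apply IntF.neg | with_reducible_and_instances apply IntF.smul | with_reducible apply Int.fin | with_reducible apply IntF.sep | with_reducible apply IntF.lam | with_reducible apply IntF.insert | with_reducible apply IntF.singleton | with_reducible apply IntF.union | with_reducible apply IntF.iimage | with_reducible apply IntF.ite | with_reducible apply IntF.the | with_reducible apply IntF.irec | with_reducible apply IntF.succ | with_reducible apply IntF.val | with_reducible apply IntF.mk | (with_reducible refine Int.comp ?_ ?_; assumption) | (with_reducible refine Int.comp₂ ?_ ?_ ?_; assumption) | (with_reducible refine Int.comp₃ ?_ ?_ ?_ ?_; assumption) | (with_reducible refine Int.comp₄ ?_ ?_ ?_ ?_ ?_; assumption) | (with_reducible refine IntF.comp ?_ ?_; assumption) | (with_reducible refine IntF.comp₂ ?_ ?_ ?_; assumption) | (with_reducible refine IntF.comp₃ ?_ ?_ ?_ ?_; assumption) | with_reducible apply IntF.pair)), fun a b => ?_⟩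
  have h1 : ∀ a : El x, R (inc hxv a) = a := fun a => hR1 (inc hxv a) a.2
  change d (R (inc hxv a)) (R (inc hxv b)) = d a b
  rw [h1, h1]

open Classical in
/-- The extension of a distance by isolated points. -/
noncomputable def rho (x : N) {v : N} (m : El v × El v → El r) (p : El v × El v) : El r :=
  if p.1 = p.2 then 0 else if Mem p.1.1 x ∧ Mem p.2.1 x then (if m p ≤ 1 then m p else 1) else 1

omit hM [IsStrictOrderedRing (El r)] in
theorem rho_self (x : N) {v : N} (m : El v × El v → El r) (a : El v) : rho x m (a, a) = 0 :=
  if_pos rfl

open Classical in
omit hM [IsStrictOrderedRing (El r)] in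
theorem rho_in (x : N) {v : N} (m : El v × El v → El r) {a b : El v} (hab : a ≠ b)
    (h : Mem a.1 x ∧ Mem b.1 x) : rho x m (a, b) = if m (a, b) ≤ 1 then m (a, b) else 1 :=
  (if_neg hab).trans (if_pos h)

omit hM [IsStrictOrderedRing (El r)] in
theorem rho_out (x : N) {v : N} (m : El v × El v → El r) {a b : El v} (hab : a ≠ b)
    (h : ¬ (Mem a.1 x ∧ Mem b.1 x)) : rho x m (a, b) = 1 :=
  (if_neg hab).trans (if_neg h)

omit hM [IsStrictOrderedRing (El r)] in
theorem rho_symm (x : N) {v : N} (m : El v × El v → El r) :
    rho x (fun p => m (p.2, p.1)) = fun p => rho x m (p.2, p.1) := by
  classical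
  funext p
  obtain ⟨a, b⟩ := p
  by_cases h1 : a = b
  · subst h1
    exact (rho_self x _ _).trans (rho_self x _ _).symm
  · by_cases h2 : Mem a.1 x ∧ Mem b.1 x
    · exact (rho_in x _ h1 h2).trans (rho_in x m (fun h => h1 h.symm) h2.symm).symm
    · exact (rho_out x _ h1 h2).trans (rho_out x m (fun h => h1 h.symm) fun h => h2 h.symm).symm

/-- The open sets of the extended space. -/
def OO (x t : N) {v : N} (U : IPow N (El v)) : Prop :=
  ∃ V : IPow N (El v), Mem (code (M := N) V) t ∧ ∀ a, a ∈ V ↔ a ∈ U ∧ Mem a.1 x

theorem ext_QD (hr : IsReals r) {x t v : N} (hxv : ∀ z, Mem z x → Mem z v)
    {d : El x → El x → El r} (hd : IsQuasiMetric d) (hds : ∀ a b, d a b = 0 → a = b)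
    (ht : IsTau d t) {m : El v × El v → El r} (hm : IntF N m)
    (hmd : ∀ a b : El x, m (inc hxv a, inc hxv b) = d a b) :
    QD (OO x t) (rho x m) := by
  classical
  have hle := int_le hr
  have h1 : ∀ a b : El x, rho x m (inc hxv a, inc hxv b) = if d a b ≤ 1 then d a b else 1 := by
    intro a b
    by_cases hab : a = b
    · subst hab
      rw [rho_self, hd.self, if_pos zero_le_one]
    · rw [rho_in x m (fun h => hab (inc_inj hxv h)) ⟨a.2, b.2⟩, hmd]
  have h3 : ∀ a b : El x, rho x m (inc hxv a, inc hxv b) ≤ d a b := by
    intro a b
    rw [h1]
    split_ifs with h
    · exact le_rfl
    · exact (not_le.1 h).le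
  have hnl : ∀ a b, 0 ≤ rho x m (a, b) ∧ rho x m (a, b) ≤ 1 := by
    intro a b
    by_cases hab : a = b
    · subst hab
      rw [rho_self]
      exact ⟨le_rfl, zero_le_one⟩
    · by_cases hx : Mem a.1 x ∧ Mem b.1 x
      · obtain ⟨a', rfl⟩ := inc_surj hxv hx.1
        obtain ⟨b', rfl⟩ := inc_surj hxv hx.2
        rw [h1]
        split_ifs with h
        · exact ⟨hd.nonneg _ _, h⟩
        · exact ⟨zero_le_one, le_rfl⟩
      · rw [rho_out x m hab hx]
        exact ⟨zero_le_one, le_rfl⟩
  refine ⟨?_, fun a b => (hnl a b).1, rho_self x m, fun a b c => ?_, fun a b hab => ?_,
    fun U => ⟨?_, ?_⟩⟩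
  · unfold rho
    (repeat' (first | with_reducible apply memPE | with_reducible apply memPE' | with_reducible apply memPE'' | with_reducible apply memCode | with_reducible apply memCodeP | with_reducible apply memCode₂ | with_reducible apply eqPE | with_reducible apply eqPE' | with_reducible exact IntF.id | with_reducible exact IntF.fst' | with_reducible exact IntF.snd' | with_reducible exact IntF.const _ | with_reducible exact Int.const _ | assumption | with_reducible apply Int.and | with_reducible apply Int.or | with_reducible apply Int.not | with_reducible apply Int.imp | with_reducible apply Int.iff | with_reducible apply Int.ne | with_reducible apply Int.eq | with_reducible apply Int.mem | with_reducible apply Int.subset | with_reducible apply Int.ltN | with_reducible apply Int.leN | with_reducible_and_instances apply Int.le | with_reducible_and_instances apply Int.lt | with_reducible apply Int.all | with_reducible apply Int.ex | with_reducible apply IntF.fst | with_reducible apply IntF.snd | with_reducible apply IntF.app | with_reducible apply IntF.inl | with_reducible apply IntF.inr | with_reducible_and_instances apply IntF.mul | with_reducible_and_instances apply IntF.inv | with_reducible_and_instances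 apply IntF.add | with_reducible_and_instances apply IntF.sub | with_reducible_and_instances apply IntF.neg | with_reducible_and_instances apply IntF.smul | with_reducible apply Int.fin | with_reducible apply IntF.sep | with_reducible apply IntF.lam | with_reducible apply IntF.insert | with_reducible apply IntF.singleton | with_reducible apply IntF.union | with_reducible apply IntF.iimage | with_reducible apply IntF.ite | with_reducible apply IntF.the | with_reducible apply IntF.irec | with_reducible apply IntF.succ | with_reducible apply IntF.val | with_reducible apply IntF.mk | (with_reducible refine Int.comp ?_ ?_; assumption) | (with_reducible refine Int.comp₂ ?_ ?_ ?_; assumption) | (with_reducible refine Int.comp₃ ?_ ?_ ?_ ?_; assumption) | (with_reducible refine Int.comp₄ ?_ ?_ ?_ ?_ ?_; assumption) | (with_reducible refine IntF.comp ?_ ?_; assumption) | (with_reducible refine IntF.comp₂ ?_ ?_ ?_; assumption) | (with_reducible refine IntF.comp₃ ?_ ?_ ?_ ?_; assumption) | with_reducible apply IntF.pair))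
  · by_cases hab : a = b
    · subst hab
      rw [rho_self, zero_add]
    by_cases hbc : b = c
    · subst hbc
      rw [rho_self, add_zero]
    have k1 := hnl a b
    have k2 := hnl b c
    have k3 := hnl a c
    by_cases h4 : Mem a.1 x ∧ Mem b.1 x
    · by_cases h5 : Mem b.1 x ∧ Mem c.1 x
      · obtain ⟨a', rfl⟩ := inc_surj hxv h4.1
        obtain ⟨b', rfl⟩ := inc_surj hxv h4.2
        obtain ⟨c', rfl⟩ := inc_surj hxv h5.2
        have g4 := hd.tri a' b' c'
        have g5 := hd.nonneg a' b'
        have g6 := hd.nonneg b' c'
        rw [h1, h1, h1]
        split_ifs <;> linarith
      · rw [rho_out x m hbc h5]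
        linarith
    · rw [rho_out x m hab h4]
      linarith
  · by_contra hne
    by_cases hx : Mem a.1 x ∧ Mem b.1 x
    · obtain ⟨a', rfl⟩ := inc_surj hxv hx.1
      obtain ⟨b', rfl⟩ := inc_surj hxv hx.2
      rw [h1] at hab
      split_ifs at hab with g2
      · exact hne (congrArg _ (hds _ _ hab))
      · exact one_ne_zero hab
    · rw [rho_out x m hne hx] at hab
      exact one_ne_zero hab
  · rintro ⟨V, hV, hVU⟩ a ha
    by_cases hax : Mem a.1 x
    · obtain ⟨a', rfl⟩ := inc_surj hxv hax
      obtain ⟨ε, g1, g2⟩ := ((ht _).1 hV).2 a'
        ((mem_cp' (N := N) (U := V) (a := inc hxv a')).2 ((hVU _).2 ⟨ha, hax⟩))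
      refine ⟨min ε 1, lt_min g1 one_pos, fun b hb => ?_⟩
      by_cases hab : inc hxv a' = b
      · exact hab ▸ ha
      · by_cases hbx : Mem b.1 x
        · obtain ⟨b', rfl⟩ := inc_surj hxv hbx
          rw [h1] at hb
          have g4 : d a' b' < ε := by
            split_ifs at hb with g5
            · exact hb.trans_le (min_le_left _ _)
            · exact absurd hb (not_lt.2 (min_le_right _ _))
          exact ((hVU _).1 ((mem_cp' (N := N) (U := V) (a := inc hxv b')).1 (g2 _ g4))).1
        · rw [rho_out x m hab fun h => hbx h.2] at hb
          exact absurd hb (not_lt.2 (min_le_right _ _))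
    · refine ⟨1, one_pos, fun b hb => ?_⟩
      by_cases hab : a = b
      · exact hab ▸ ha
      · rw [rho_out x m hab fun h => hax h.1] at hb
        exact absurd hb (lt_irrefl _)
  · intro hU
    have hI : Int N (fun a : El v => a ∈ U ∧ Mem a.1 x) := by (repeat' (first | with_reducible apply memPE | with_reducible apply memPE' | with_reducible apply memPE'' | with_reducible apply memCode | with_reducible apply memCodeP | with_reducible apply memCode₂ | with_reducible apply eqPE | with_reducible apply eqPE' | with_reducible exact IntF.id | with_reducible exact IntF.fst' | with_reducible exact IntF.snd' | with_reducible exact IntF.const _ | with_reducible exact Int.const _ | assumption | with_reducible apply Int.and | with_reducible apply Int.or | with_reducible apply Int.not | with_reducible apply Int.imp | with_reducible apply Int.iff | with_reducible apply Int.ne | with_reducible apply Int.eq | with_reducible apply Int.mem | with_reducible apply Int.subset | with_reducible apply Int.ltN | with_reducible apply Int.leN | with_reducible_and_instances apply Int.le | with_reducible_and_instances apply Int.lt | with_reducible apply Int.all | with_reducible apply Int.ex | with_reducible apply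 IntF.fst | with_reducible apply IntF.snd | with_reducible apply IntF.app | with_reducible apply IntF.inl | with_reducible apply IntF.inr | with_reducible_and_instances apply IntF.mul | with_reducible_and_instances apply IntF.inv | with_reducible_and_instances apply IntF.add | with_reducible_and_instances apply IntF.sub | with_reducible_and_instances apply IntF.neg | with_reducible_and_instances apply IntF.smul | with_reducible apply Int.fin | with_reducible apply IntF.sep | with_reducible apply IntF.lam | with_reducible apply IntF.insert | with_reducible apply IntF.singleton | with_reducible apply IntF.union | with_reducible apply IntF.iimage | with_reducible apply IntF.ite | with_reducible apply IntF.the | with_reducible apply IntF.irec | with_reducible apply IntF.succ | with_reducible apply IntF.val | with_reducible apply IntF.mk | (with_reducible refine Int.comp ?_ ?_; assumption) | (with_reducible refine Int.comp₂ ?_ ?_ ?_; assumption) | (with_reducible refine Int.comp₃ ?_ ?_ ?_ ?_; assumption) | (with_reducible refine Int.comp₄ ?_ ?_ ?_ ?_ ?_; assumption) | (with_reducible refine IntF.comp ?_ ?_; assumption) | (with_reducible refine IntF.comp₂ ?_ ?_ ?_; assumption) | (with_reducible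 refine IntF.comp₃ ?_ ?_ ?_ ?_; assumption) | with_reducible apply IntF.pair))
    refine ⟨sep N fun a : El v => a ∈ U ∧ Mem a.1 x, (ht _).2 ⟨fun z hz => ?_, fun a ha => ?_⟩,
      fun a => mem_sep hI⟩
    · obtain ⟨a, ha, rfl⟩ := mem_cp.1 hz
      exact ((mem_sep hI).1 ha).2
    · obtain ⟨ε, g1, g2⟩ := hU (inc hxv a) ((mem_sep hI).1 ((mem_cp' (N := N)
        (a := inc hxv a)).1 ha)).1
      refine ⟨ε, g1, fun b hb => ?_⟩
      exact (mem_cp' (N := N) (a := inc hxv b)).2 ((mem_sep hI).2
        ⟨g2 _ ((h3 a b).trans_lt hb), b.2⟩)

/-- The product topology and the distance. -/
theorem tau_prod (hr : IsReals r) {q : INat N → El r} (hq : HS q) {X t : El j → N} {P T v : N}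
    (hXt : ∀ i w, Mem w (t i) → ∀ z, Mem z w → Mem z (X i)) (hv : ∀ i z, Mem z (X i) → Mem z v)
    (hX : IsFam X)
    (hT : IsProductTopology T P t) {F : El P → IFun N (El j) (El v)} (hF : IntF N F)
    (hFP : ∀ f, code (M := N) (F f) = f.1) (hFX : ∀ f i, Mem (F f i).1 (X i))
    {E : El j → INat N} (hE : IntF N E) (hEi : ∀ i i', E i = E i' → i = i')
    {W : El j × (INat N × (El v × El v)) → Prop} (hW : Int N W) (hW1 : ∀ i n a, W (i, (n, (a, a))))
    (hW2 : ∀ i (n : INat N) a b c e, W (i, (n.succ, (a, b))) → W (i, (n.succ, (b, c))) →
      W (i, (n.succ, (c, e))) → W (i, (n, (a, e))))
    (hW3 : ∀ i (U : IPow N (El v)), OO (X i) (t i) U ↔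
      ∀ a, a ∈ U → ∃ n, ∀ b, W (i, (n, (a, b))) → b ∈ U)
    {d : IFun N (El j) (El v) → IFun N (El j) (El v) → El r}
    (hd : IntF N (fun c : IFun N (El j) (El v) × IFun N (El j) (El v) => d c.1 c.2))
    (hd0 : ∀ a, d a a = 0) (hd1 : ∀ a b c, d a c ≤ d a b + d b c)
    (hd2 : ∀ (n : INat N) f g, (∀ i, E i < n → W (i, (n, (f i, g i)))) → d f g ≤ q n)
    (hd3 : ∀ (n : INat N) f g, d f g < q n.succ → ∀ i, E i < n.succ → W (i, (n.succ, (f i, g i)))) :
    IsTau (fun f g : El P => d (F f) (F g)) T := by
  have hlt := int_lt hr
  have hmono : ∀ i m n a b, m ≤ n → W (i, (n, (a, b))) → W (i, (m, (a, b))) := by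
    intro i m n a b
    refine INat.ind (p := fun n => m ≤ n → W (i, (n, (a, b))) → W (i, (m, (a, b))))
      (by (repeat' (first | with_reducible apply memPE | with_reducible apply memPE' | with_reducible apply memPE'' | with_reducible apply memCode | with_reducible apply memCodeP | with_reducible apply memCode₂ | with_reducible apply eqPE | with_reducible apply eqPE' | with_reducible exact IntF.id | with_reducible exact IntF.fst' | with_reducible exact IntF.snd' | with_reducible exact IntF.const _ | with_reducible exact Int.const _ | assumption | with_reducible apply Int.and | with_reducible apply Int.or | with_reducible apply Int.not | with_reducible apply Int.imp | with_reducible apply Int.iff | with_reducible apply Int.ne | with_reducible apply Int.eq | with_reducible apply Int.mem | with_reducible apply Int.subset | with_reducible apply Int.ltN | with_reducible apply Int.leN | with_reducible_and_instances apply Int.le | with_reducible_and_instances apply Int.lt | with_reducible apply Int.all | with_reducible apply Int.ex | with_reducible apply IntF.fst | with_reducible apply IntF.snd | with_reducible apply IntF.app | with_reducible apply IntF.inl | with_reducible apply IntF.inr |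 with_reducible_and_instances apply IntF.mul | with_reducible_and_instances apply IntF.inv | with_reducible_and_instances apply IntF.add | with_reducible_and_instances apply IntF.sub | with_reducible_and_instances apply IntF.neg | with_reducible_and_instances apply IntF.smul | with_reducible apply Int.fin | with_reducible apply IntF.sep | with_reducible apply IntF.lam | with_reducible apply IntF.insert | with_reducible apply IntF.singleton | with_reducible apply IntF.union | with_reducible apply IntF.iimage | with_reducible apply IntF.ite | with_reducible apply IntF.the | with_reducible apply IntF.irec | with_reducible apply IntF.succ | with_reducible apply IntF.val | with_reducible apply IntF.mk | (with_reducible refine Int.comp ?_ ?_; assumption) | (with_reducible refine Int.comp₂ ?_ ?_ ?_; assumption) | (with_reducible refine Int.comp₃ ?_ ?_ ?_ ?_; assumption) | (with_reducible refine Int.comp₄ ?_ ?_ ?_ ?_ ?_; assumption) | (with_reducible refine IntF.comp ?_ ?_; assumption) | (with_reducible refine IntF.comp₂ ?_ ?_ ?_; assumption) | (with_reducible refine IntF.comp₃ ?_ ?_ ?_ ?_; assumption) | with_reducible apply IntF.pair))) ?_ ?_ n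
    · intro h h1
      rcases h.lt_or_eq with h2 | rfl
      · exact absurd h2 INat.not_lt_zero
      · exact h1
    · intro n ih h h1
      rcases h.lt_or_eq with h2 | rfl
      · exact ih (INat.lt_succ_iff.1 h2) (hW2 i n a a a b (hW1 _ _ _) (hW1 _ _ _) h1)
      · exact h1
  have happ : ∀ (f : El P) (i : El j) (y : N), App f.1 i.1 y ↔ y = (F f i).1 := fun f i y => by
    rw [← hFP f]
    exact app_code _ _
  refine tau_of_induces hr (by (repeat' (first | with_reducible apply memPE | with_reducible apply memPE' | with_reducible apply memPE'' | with_reducible apply memCode | with_reducible apply memCodeP | with_reducible apply memCode₂ | with_reducible apply eqPE | with_reducible apply eqPE' | with_reducible exact IntF.id | with_reducible exact IntF.fst' | with_reducible exact IntF.snd' | with_reducible exact IntF.const _ | with_reducible exact Int.const _ | assumption | with_reducible apply Int.and | with_reducible apply Int.or | with_reducible apply Int.not | with_reducible apply Int.imp | with_reducible apply Int.iff | with_reducible apply Int.ne | with_reducible apply Int.eq | with_reducible apply Int.mem | with_reducible apply Int.subset | with_reducible apply Int.ltN | with_reducible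 apply Int.leN | with_reducible_and_instances apply Int.le | with_reducible_and_instances apply Int.lt | with_reducible apply Int.all | with_reducible apply Int.ex | with_reducible apply IntF.fst | with_reducible apply IntF.snd | with_reducible apply IntF.app | with_reducible apply IntF.inl | with_reducible apply IntF.inr | with_reducible_and_instances apply IntF.mul | with_reducible_and_instances apply IntF.inv | with_reducible_and_instances apply IntF.add | with_reducible_and_instances apply IntF.sub | with_reducible_and_instances apply IntF.neg | with_reducible_and_instances apply IntF.smul | with_reducible apply Int.fin | with_reducible apply IntF.sep | with_reducible apply IntF.lam | with_reducible apply IntF.insert | with_reducible apply IntF.singleton | with_reducible apply IntF.union | with_reducible apply IntF.iimage | with_reducible apply IntF.ite | with_reducible apply IntF.the | with_reducible apply IntF.irec | with_reducible apply IntF.succ | with_reducible apply IntF.val | with_reducible apply IntF.mk | (with_reducible refine Int.comp ?_ ?_; assumption) | (with_reducible refine Int.comp₂ ?_ ?_ ?_; assumption) | (with_reducible refine Int.comp₃ ?_ ?_ ?_ ?_; assumption) | (with_reducible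 refine Int.comp₄ ?_ ?_ ?_ ?_ ?_; assumption) | (with_reducible refine IntF.comp ?_ ?_; assumption) | (with_reducible refine IntF.comp₂ ?_ ?_ ?_; assumption) | (with_reducible refine IntF.comp₃ ?_ ?_ ?_ ?_; assumption) | with_reducible apply IntF.pair))) (fun a => hd0 _) (fun a b c => hd1 _ _ _)
    ⟨hT.1, fun u a ε hε hb => open_of_local hT.1 fun z₀ hz₀ => ?_, fun t' ht' hb =>
      hT.2.2 t' ht' fun i u w hu hw => open_of_local ht' fun z₀ hz₀ => ?_⟩
  · obtain ⟨z, rfl⟩ : ∃ z : El P, z.1 = z₀ := ⟨⟨z₀, hb.1 _ hz₀⟩, rfl⟩
    have hz : d (F a) (F z) < ε := (hb.2 z).1 hz₀
    obtain ⟨n, hn⟩ := hq.lim (ε - d (F a) (F z)) (by linarith)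
    -- the open kernels
    have hoI : Int N (fun c : El j × El v => ∃ m, ∀ e, W (c.1, (m, (c.2, e))) →
        W (c.1, (n, (F z c.1, e)))) := by (repeat' (first | with_reducible apply memPE | with_reducible apply memPE' | with_reducible apply memPE'' | with_reducible apply memCode | with_reducible apply memCodeP | with_reducible apply memCode₂ | with_reducible apply eqPE | with_reducible apply eqPE' | with_reducible exact IntF.id | with_reducible exact IntF.fst' | with_reducible exact IntF.snd' | with_reducible exact IntF.const _ | with_reducible exact Int.const _ | assumption | with_reducible apply Int.and | with_reducible apply Int.or | with_reducible apply Int.not | with_reducible apply Int.imp | with_reducible apply Int.iff | with_reducible apply Int.ne | with_reducible apply Int.eq | with_reducible apply Int.mem | with_reducible apply Int.subset | with_reducible apply Int.ltN | with_reducible apply Int.leN | with_reducible_and_instances apply Int.le | with_reducible_and_instances apply Int.lt | with_reducible apply Int.all | with_reducible apply Int.ex | with_reducible apply IntF.fst | with_reducible apply IntF.snd | with_reducible apply IntF.app | with_reducible apply IntF.inl |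 with_reducible apply IntF.inr | with_reducible_and_instances apply IntF.mul | with_reducible_and_instances apply IntF.inv | with_reducible_and_instances apply IntF.add | with_reducible_and_instances apply IntF.sub | with_reducible_and_instances apply IntF.neg | with_reducible_and_instances apply IntF.smul | with_reducible apply Int.fin | with_reducible apply IntF.sep | with_reducible apply IntF.lam | with_reducible apply IntF.insert | with_reducible apply IntF.singleton | with_reducible apply IntF.union | with_reducible apply IntF.iimage | with_reducible apply IntF.ite | with_reducible apply IntF.the | with_reducible apply IntF.irec | with_reducible apply IntF.succ | with_reducible apply IntF.val | with_reducible apply IntF.mk | (with_reducible refine Int.comp ?_ ?_; assumption) | (with_reducible refine Int.comp₂ ?_ ?_ ?_; assumption) | (with_reducible refine Int.comp₃ ?_ ?_ ?_ ?_; assumption) | (with_reducible refine Int.comp₄ ?_ ?_ ?_ ?_ ?_; assumption) | (with_reducible refine IntF.comp ?_ ?_; assumption) | (with_reducible refine IntF.comp₂ ?_ ?_ ?_; assumption) | (with_reducible refine IntF.comp₃ ?_ ?_ ?_ ?_; assumption) | with_reducible apply IntF.pair))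
    have hoI' : ∀ i, Int N (fun c : El v => ∃ m, ∀ e, W (i, (m, (c, e))) →
        W (i, (n, (F z i, e)))) := by
      intro i
      (repeat' (first | with_reducible apply memPE | with_reducible apply memPE' | with_reducible apply memPE'' | with_reducible apply memCode | with_reducible apply memCodeP | with_reducible apply memCode₂ | with_reducible apply eqPE | with_reducible apply eqPE' | with_reducible exact IntF.id | with_reducible exact IntF.fst' | with_reducible exact IntF.snd' | with_reducible exact IntF.const _ | with_reducible exact Int.const _ | assumption | with_reducible apply Int.and | with_reducible apply Int.or | with_reducible apply Int.not | with_reducible apply Int.imp | with_reducible apply Int.iff | with_reducible apply Int.ne | with_reducible apply Int.eq | with_reducible apply Int.mem | with_reducible apply Int.subset | with_reducible apply Int.ltN | with_reducible apply Int.leN | with_reducible_and_instances apply Int.le | with_reducible_and_instances apply Int.lt | with_reducible apply Int.all | with_reducible apply Int.ex | with_reducible apply IntF.fst | with_reducible apply IntF.snd | with_reducible apply IntF.app | with_reducible apply IntF.inl | with_reducible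 apply IntF.inr | with_reducible_and_instances apply IntF.mul | with_reducible_and_instances apply IntF.inv | with_reducible_and_instances apply IntF.add | with_reducible_and_instances apply IntF.sub | with_reducible_and_instances apply IntF.neg | with_reducible_and_instances apply IntF.smul | with_reducible apply Int.fin | with_reducible apply IntF.sep | with_reducible apply IntF.lam | with_reducible apply IntF.insert | with_reducible apply IntF.singleton | with_reducible apply IntF.union | with_reducible apply IntF.iimage | with_reducible apply IntF.ite | with_reducible apply IntF.the | with_reducible apply IntF.irec | with_reducible apply IntF.succ | with_reducible apply IntF.val | with_reducible apply IntF.mk | (with_reducible refine Int.comp ?_ ?_; assumption) | (with_reducible refine Int.comp₂ ?_ ?_ ?_; assumption) | (with_reducible refine Int.comp₃ ?_ ?_ ?_ ?_; assumption) | (with_reducible refine Int.comp₄ ?_ ?_ ?_ ?_ ?_; assumption) | (with_reducible refine IntF.comp ?_ ?_; assumption) | (with_reducible refine IntF.comp₂ ?_ ?_ ?_; assumption) | (with_reducible refine IntF.comp₃ ?_ ?_ ?_ ?_; assumption) | with_reducible apply IntF.pair))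
    obtain ⟨o, ho, ho1⟩ : ∃ o : El j → IPow N (El v), IntF N o ∧ ∀ i c, c ∈ o i ↔
        ∃ m, ∀ e, W (i, (m, (c, e))) → W (i, (n, (F z i, e))) :=
      ⟨fun i => sep N fun c : El v => ∃ m, ∀ e, W (i, (m, (c, e))) → W (i, (n, (F z i, e))),
        IntF.sep hoI, fun i c => mem_sep (hoI' i)⟩
    have hopen : ∀ i, OO (X i) (t i) (o i) := by
      intro i
      refine (hW3 i _).2 fun b hb => ?_
      obtain ⟨m, hm⟩ := (ho1 i b).1 hb
      refine ⟨m.succ, fun c hc => (ho1 i c).2 ⟨m.succ, fun e he => hm e ?_⟩⟩
      exact hW2 i m b b c e (hW1 _ _ _) hc he
    have hA : ∀ i, Mem (code (M := N) (sep N fun g : El P => F g i ∈ o i)) T := by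
      intro i
      obtain ⟨V, hV, hV1⟩ := hopen i
      have hI : Int N (fun g : El P => F g i ∈ o i) := by (repeat' (first | with_reducible apply memPE | with_reducible apply memPE' | with_reducible apply memPE'' | with_reducible apply memCode | with_reducible apply memCodeP | with_reducible apply memCode₂ | with_reducible apply eqPE | with_reducible apply eqPE' | with_reducible exact IntF.id | with_reducible exact IntF.fst' | with_reducible exact IntF.snd' | with_reducible exact IntF.const _ | with_reducible exact Int.const _ | assumption | with_reducible apply Int.and | with_reducible apply Int.or | with_reducible apply Int.not | with_reducible apply Int.imp | with_reducible apply Int.iff | with_reducible apply Int.ne | with_reducible apply Int.eq | with_reducible apply Int.mem | with_reducible apply Int.subset | with_reducible apply Int.ltN | with_reducible apply Int.leN | with_reducible_and_instances apply Int.le | with_reducible_and_instances apply Int.lt | with_reducible apply Int.all | with_reducible apply Int.ex | with_reducible apply IntF.fst | with_reducible apply IntF.snd | with_reducible apply IntF.app | with_reducible apply IntF.inl | with_reducible apply IntF.inr | with_reducible_and_instances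 apply IntF.mul | with_reducible_and_instances apply IntF.inv | with_reducible_and_instances apply IntF.add | with_reducible_and_instances apply IntF.sub | with_reducible_and_instances apply IntF.neg | with_reducible_and_instances apply IntF.smul | with_reducible apply Int.fin | with_reducible apply IntF.sep | with_reducible apply IntF.lam | with_reducible apply IntF.insert | with_reducible apply IntF.singleton | with_reducible apply IntF.union | with_reducible apply IntF.iimage | with_reducible apply IntF.ite | with_reducible apply IntF.the | with_reducible apply IntF.irec | with_reducible apply IntF.succ | with_reducible apply IntF.val | with_reducible apply IntF.mk | (with_reducible refine Int.comp ?_ ?_; assumption) | (with_reducible refine Int.comp₂ ?_ ?_ ?_; assumption) | (with_reducible refine Int.comp₃ ?_ ?_ ?_ ?_; assumption) | (with_reducible refine Int.comp₄ ?_ ?_ ?_ ?_ ?_; assumption) | (with_reducible refine IntF.comp ?_ ?_; assumption) | (with_reducible refine IntF.comp₂ ?_ ?_ ?_; assumption) | (with_reducible refine IntF.comp₃ ?_ ?_ ?_ ?_; assumption) | with_reducible apply IntF.pair))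
      refine hT.2.1 i (code V) _ hV fun f => ?_
      rw [show Mem f (code (sep N fun g : El P => F g i ∈ o i)) ↔ _ from mem_cpE]
      constructor
      · rintro ⟨hf, h1⟩
        refine ⟨hf, _, (happ ⟨f, hf⟩ i _).2 rfl, ?_⟩
        exact (mem_cp' (N := N)).2 ((hV1 _).2 ⟨(mem_sep hI).1 h1, hFX _ _⟩)
      · rintro ⟨hf, y, h1, h2⟩
        refine ⟨hf, (mem_sep hI).2 ?_⟩
        rw [(happ ⟨f, hf⟩ i y).1 h1] at h2
        exact ((hV1 _).1 ((mem_cp' (N := N)).1 h2)).1
    have hBI : ∀ k : INat N, Int N (fun g : El P => ∀ i, E i < k → F g i ∈ o i) := by
      intro k
      (repeat' (first | with_reducible apply memPE | with_reducible apply memPE' | with_reducible apply memPE'' | with_reducible apply memCode | with_reducible apply memCodeP | with_reducible apply memCode₂ | with_reducible apply eqPE | with_reducible apply eqPE' | with_reducible exact IntF.id | with_reducible exact IntF.fst' | with_reducible exact IntF.snd' | with_reducible exact IntF.const _ | with_reducible exact Int.const _ | assumption | with_reducible apply Int.and | with_reducible apply Int.or | with_reducible apply Int.not | with_reducible apply Int.imp | with_reducible apply Int.iff | with_reducible apply Int.ne | with_reducible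 apply Int.eq | with_reducible apply Int.mem | with_reducible apply Int.subset | with_reducible apply Int.ltN | with_reducible apply Int.leN | with_reducible_and_instances apply Int.le | with_reducible_and_instances apply Int.lt | with_reducible apply Int.all | with_reducible apply Int.ex | with_reducible apply IntF.fst | with_reducible apply IntF.snd | with_reducible apply IntF.app | with_reducible apply IntF.inl | with_reducible apply IntF.inr | with_reducible_and_instances apply IntF.mul | with_reducible_and_instances apply IntF.inv | with_reducible_and_instances apply IntF.add | with_reducible_and_instances apply IntF.sub | with_reducible_and_instances apply IntF.neg | with_reducible_and_instances apply IntF.smul | with_reducible apply Int.fin | with_reducible apply IntF.sep | with_reducible apply IntF.lam | with_reducible apply IntF.insert | with_reducible apply IntF.singleton | with_reducible apply IntF.union | with_reducible apply IntF.iimage | with_reducible apply IntF.ite | with_reducible apply IntF.the | with_reducible apply IntF.irec | with_reducible apply IntF.succ | with_reducible apply IntF.val | with_reducible apply IntF.mk | (with_reducible refine Int.comp ?_ ?_; assumption)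 | (with_reducible refine Int.comp₂ ?_ ?_ ?_; assumption) | (with_reducible refine Int.comp₃ ?_ ?_ ?_ ?_; assumption) | (with_reducible refine Int.comp₄ ?_ ?_ ?_ ?_ ?_; assumption) | (with_reducible refine IntF.comp ?_ ?_; assumption) | (with_reducible refine IntF.comp₂ ?_ ?_ ?_; assumption) | (with_reducible refine IntF.comp₃ ?_ ?_ ?_ ?_; assumption) | with_reducible apply IntF.pair))
    have hB : ∀ k : INat N, Mem (code (M := N) (sep N fun g : El P => ∀ i, E i < k → F g i ∈ o i))
        T := by
      refine INat.ind (by (repeat' (first | with_reducible apply memPE | with_reducible apply memPE' | with_reducible apply memPE'' | with_reducible apply memCode | with_reducible apply memCodeP | with_reducible apply memCode₂ | with_reducible apply eqPE | with_reducible apply eqPE' | with_reducible exact IntF.id | with_reducible exact IntF.fst' | with_reducible exact IntF.snd' | with_reducible exact IntF.const _ | with_reducible exact Int.const _ | assumption | with_reducible apply Int.and | with_reducible apply Int.or | with_reducible apply Int.not | with_reducible apply Int.imp | with_reducible apply Int.iff | with_reducible apply Int.ne | with_reducible apply Int.eq | with_reducible apply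 Int.mem | with_reducible apply Int.subset | with_reducible apply Int.ltN | with_reducible apply Int.leN | with_reducible_and_instances apply Int.le | with_reducible_and_instances apply Int.lt | with_reducible apply Int.all | with_reducible apply Int.ex | with_reducible apply IntF.fst | with_reducible apply IntF.snd | with_reducible apply IntF.app | with_reducible apply IntF.inl | with_reducible apply IntF.inr | with_reducible_and_instances apply IntF.mul | with_reducible_and_instances apply IntF.inv | with_reducible_and_instances apply IntF.add | with_reducible_and_instances apply IntF.sub | with_reducible_and_instances apply IntF.neg | with_reducible_and_instances apply IntF.smul | with_reducible apply Int.fin | with_reducible apply IntF.sep | with_reducible apply IntF.lam | with_reducible apply IntF.insert | with_reducible apply IntF.singleton | with_reducible apply IntF.union | with_reducible apply IntF.iimage | with_reducible apply IntF.ite | with_reducible apply IntF.the | with_reducible apply IntF.irec | with_reducible apply IntF.succ | with_reducible apply IntF.val | with_reducible apply IntF.mk | (with_reducible refine Int.comp ?_ ?_; assumption) | (with_reducible refine Int.comp₂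 ?_ ?_ ?_; assumption) | (with_reducible refine Int.comp₃ ?_ ?_ ?_ ?_; assumption) | (with_reducible refine Int.comp₄ ?_ ?_ ?_ ?_ ?_; assumption) | (with_reducible refine IntF.comp ?_ ?_; assumption) | (with_reducible refine IntF.comp₂ ?_ ?_ ?_; assumption) | (with_reducible refine IntF.comp₃ ?_ ?_ ?_ ?_; assumption) | with_reducible apply IntF.pair))) ?_ ?_
      · have h1 : code (M := N) (sep N fun g : El P => ∀ i, E i < 0 → F g i ∈ o i) = P := by
          refine extN fun z => ?_
          rw [show Mem z (code (sep N fun g : El P => ∀ i, E i < 0 → F g i ∈ o i)) ↔ _ from mem_cpE]
          exact ⟨fun ⟨h, _⟩ => h, fun h => ⟨h, (mem_sep (hBI 0)).2 fun i hi =>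
            absurd hi INat.not_lt_zero⟩⟩
        rw [h1]
        exact hT.1.univ
      · intro k ih
        by_cases hk : ∃ i, E i = k
        · obtain ⟨i, hi⟩ := hk
          have hI : Int N (fun g : El P => F g i ∈ o i) := by (repeat' (first | with_reducible apply memPE | with_reducible apply memPE' | with_reducible apply memPE'' | with_reducible apply memCode | with_reducible apply memCodeP | with_reducible apply memCode₂ | with_reducible apply eqPE | with_reducible apply eqPE' | with_reducible exact IntF.id | with_reducible exact IntF.fst' | with_reducible exact IntF.snd' | with_reducible exact IntF.const _ | with_reducible exact Int.const _ | assumption | with_reducible apply Int.and | with_reducible apply Int.or | with_reducible apply Int.not | with_reducible apply Int.imp | with_reducible apply Int.iff | with_reducible apply Int.ne | with_reducible apply Int.eq | with_reducible apply Int.mem | with_reducible apply Int.subset | with_reducible apply Int.ltN | with_reducible apply Int.leN | with_reducible_and_instances apply Int.le | with_reducible_and_instances apply Int.lt | with_reducible apply Int.all | with_reducible apply Int.ex | with_reducible apply IntF.fst | with_reducible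 apply IntF.snd | with_reducible apply IntF.app | with_reducible apply IntF.inl | with_reducible apply IntF.inr | with_reducible_and_instances apply IntF.mul | with_reducible_and_instances apply IntF.inv | with_reducible_and_instances apply IntF.add | with_reducible_and_instances apply IntF.sub | with_reducible_and_instances apply IntF.neg | with_reducible_and_instances apply IntF.smul | with_reducible apply Int.fin | with_reducible apply IntF.sep | with_reducible apply IntF.lam | with_reducible apply IntF.insert | with_reducible apply IntF.singleton | with_reducible apply IntF.union | with_reducible apply IntF.iimage | with_reducible apply IntF.ite | with_reducible apply IntF.the | with_reducible apply IntF.irec | with_reducible apply IntF.succ | with_reducible apply IntF.val | with_reducible apply IntF.mk | (with_reducible refine Int.comp ?_ ?_; assumption) | (with_reducible refine Int.comp₂ ?_ ?_ ?_; assumption) | (with_reducible refine Int.comp₃ ?_ ?_ ?_ ?_; assumption) | (with_reducible refine Int.comp₄ ?_ ?_ ?_ ?_ ?_; assumption) | (with_reducible refine IntF.comp ?_ ?_; assumption) | (with_reducible refine IntF.comp₂ ?_ ?_ ?_; assumption) | (with_reducible refine IntF.comp₃ ?_ ?_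 ?_ ?_; assumption) | with_reducible apply IntF.pair))
          refine hT.1.inter _ _ _ ih (hA i) fun z => ?_
          rw [show Mem z (code (sep N fun g : El P => ∀ i, E i < k.succ → F g i ∈ o i)) ↔ _
            from mem_cpE, show Mem z (code (sep N fun g : El P => ∀ i, E i < k → F g i ∈ o i)) ↔ _
            from mem_cpE, show Mem z (code (sep N fun g : El P => F g i ∈ o i)) ↔ _ from mem_cpE]
          constructor
          · rintro ⟨h, h1⟩
            rw [mem_sep (hBI _)] at h1
            refine ⟨⟨h, (mem_sep (hBI _)).2 fun i' hi' => h1 i' (hi'.trans
              (INat.lt_succ_self _))⟩, h, (mem_sep hI).2 (h1 i ?_)⟩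
            rw [hi]
            exact INat.lt_succ_self _
          · rintro ⟨⟨h, h1⟩, _, h2⟩
            rw [mem_sep (hBI _)] at h1
            rw [mem_sep hI] at h2
            refine ⟨h, (mem_sep (hBI _)).2 fun i' hi' => ?_⟩
            rcases (INat.lt_succ_iff.1 hi').lt_or_eq with h3 | h3
            · exact h1 i' h3
            · obtain rfl : i' = i := hEi _ _ (h3.trans hi.symm)
              exact h2
        · have h1 : (sep N fun g : El P => ∀ i, E i < k.succ → F g i ∈ o i) =
              sep N fun g : El P => ∀ i, E i < k → F g i ∈ o i := by
            refine IPow.ext' fun g => ?_
            rw [mem_sep (hBI _), mem_sep (hBI _)]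
            refine forall_congr' fun i => imp_congr_left ⟨fun h => ?_,
              fun h => h.trans (INat.lt_succ_self _)⟩
            rcases (INat.lt_succ_iff.1 h).lt_or_eq with h3 | h3
            · exact h3
            · exact absurd ⟨i, h3⟩ hk
          rw [h1]
          exact ih
    refine ⟨_, hB n, mem_cpE'.2 ((mem_sep (hBI n)).2 fun i _ => (ho1 _ _).2 ⟨n, fun e he => he⟩),
      fun g₀ hg₀ => ?_⟩
    obtain ⟨hg, h1⟩ := mem_cpE.1 hg₀
    rw [mem_sep (hBI n)] at h1
    refine (hb.2 ⟨g₀, hg⟩).2 ?_
    have h2 := hd2 n (F z) (F ⟨g₀, hg⟩) fun i hi => by
      obtain ⟨m, hm⟩ := (ho1 _ _).1 (h1 i hi)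
      exact hm _ (hW1 _ _ _)
    have h3 := hd1 (F a) (F z) (F ⟨g₀, hg⟩)
    change d (F a) (F ⟨g₀, hg⟩) < ε
    linarith
  · obtain ⟨hzP, y, hy, hyu⟩ := (hw z₀).1 hz₀
    obtain ⟨z, rfl⟩ : ∃ z : El P, z.1 = z₀ := ⟨⟨z₀, hzP⟩, rfl⟩
    rw [happ] at hy
    subst hy
    obtain ⟨U, rfl, hU⟩ := exists_code (a := v) (u := u) fun z hz => hv i z (hXt i u hu z hz)
    have hO : OO (X i) (t i) U := ⟨U, hu, fun a => ⟨fun ha => ⟨ha, hXt i _ hu _ ((hU a).1 ha)⟩,
      fun ha => ha.1⟩⟩
    obtain ⟨n, hn⟩ := (hW3 i U).1 hO (F z i) ((hU _).2 hyu)
    obtain ⟨s, hs⟩ := exists_set (p := fun g : El P => d (F z) (F g) < q (max n (E i)).succ)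
      (by (repeat' (first | with_reducible apply memPE | with_reducible apply memPE' | with_reducible apply memPE'' | with_reducible apply memCode | with_reducible apply memCodeP | with_reducible apply memCode₂ | with_reducible apply eqPE | with_reducible apply eqPE' | with_reducible exact IntF.id | with_reducible exact IntF.fst' | with_reducible exact IntF.snd' | with_reducible exact IntF.const _ | with_reducible exact Int.const _ | assumption | with_reducible apply Int.and | with_reducible apply Int.or | with_reducible apply Int.not | with_reducible apply Int.imp | with_reducible apply Int.iff | with_reducible apply Int.ne | with_reducible apply Int.eq | with_reducible apply Int.mem | with_reducible apply Int.subset | with_reducible apply Int.ltN | with_reducible apply Int.leN | with_reducible_and_instances apply Int.le | with_reducible_and_instances apply Int.lt | with_reducible apply Int.all | with_reducible apply Int.ex | with_reducible apply IntF.fst | with_reducible apply IntF.snd | with_reducible apply IntF.app | with_reducible apply IntF.inl | with_reducible apply IntF.inr | with_reducible_and_instances apply IntF.mul | with_reducible_and_instances apply IntF.inv | with_reducible_and_instances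 apply IntF.add | with_reducible_and_instances apply IntF.sub | with_reducible_and_instances apply IntF.neg | with_reducible_and_instances apply IntF.smul | with_reducible apply Int.fin | with_reducible apply IntF.sep | with_reducible apply IntF.lam | with_reducible apply IntF.insert | with_reducible apply IntF.singleton | with_reducible apply IntF.union | with_reducible apply IntF.iimage | with_reducible apply IntF.ite | with_reducible apply IntF.the | with_reducible apply IntF.irec | with_reducible apply IntF.succ | with_reducible apply IntF.val | with_reducible apply IntF.mk | (with_reducible refine Int.comp ?_ ?_; assumption) | (with_reducible refine Int.comp₂ ?_ ?_ ?_; assumption) | (with_reducible refine Int.comp₃ ?_ ?_ ?_ ?_; assumption) | (with_reducible refine Int.comp₄ ?_ ?_ ?_ ?_ ?_; assumption) | (with_reducible refine IntF.comp ?_ ?_; assumption) | (with_reducible refine IntF.comp₂ ?_ ?_ ?_; assumption) | (with_reducible refine IntF.comp₃ ?_ ?_ ?_ ?_; assumption) | with_reducible apply IntF.pair)))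
    refine ⟨s, hb s z _ (hq.pos (max n (E i)).succ) ⟨fun w hw => ((hs w).1 hw).1, fun b => ?_⟩,
      (hs z.1).2 ⟨z.2, ?_⟩, fun g₀ hg₀ => ?_⟩
    · rw [hs b.1]
      exact ⟨fun ⟨_, h3⟩ => h3, fun h3 => ⟨b.2, h3⟩⟩
    · have h4 : d (F z) (F z) < q (max n (E i)).succ := by
        rw [hd0]
        exact hq.pos _
      exact h4
    · obtain ⟨hg, h1⟩ := (hs g₀).1 hg₀
      have h2 := hd3 _ _ _ h1 i (INat.lt_succ_iff.2 (le_max_right _ _))
      have h3 := hn _ (hmono i n _ _ _ ((le_max_left _ _).trans (INat.le_succ_self _)) h2)
      exact (hw g₀).2 ⟨hg, _, (happ ⟨g₀, hg⟩ i _).2 rfl, (hU _).1 h3⟩

/-- Countable products of quasi-metrizable bitopological spaces. -/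
theorem cpqmbi_of (hr : IsReals r) (h : CPQM r) : CPQMBi r := by
  intro j X t₁ t₂ P T₁ T₂ hj hX ht₁ ht₂ hb hP hT₁ hT₂
  obtain ⟨v, hv⟩ := exists_sup hX
  obtain ⟨E, hE, hEi⟩ := exists_enum hj
  obtain ⟨q, hq⟩ := exists_hs hr
  have hXI : Int N (fun c : El j × El v => Mem c.2.1 (X c.1)) := int_fam hX (β := El v)
  have hOI : ∀ {t : El j → N}, IsFam t → Int N (fun c : El j × IPow N (El v) =>
      OO (X c.1) (t c.1) c.2) := by
    intro t ht
    have h1 : Int N (fun c : El j × IPow N (El v) => Mem (code (M := N) c.2) (t c.1)) :=
      int_fam ht
    obtain ⟨A, hA, hA1⟩ : ∃ A : El j × El v → Prop, Int N A ∧ ∀ c, A c ↔ Mem c.2.1 (X c.1) :=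
      ⟨_, hXI, fun _ => Iff.rfl⟩
    obtain ⟨B, hB, hB1⟩ : ∃ B : El j × IPow N (El v) → Prop, Int N B ∧
      ∀ c, B c ↔ Mem (code (M := N) c.2) (t c.1) := ⟨_, h1, fun _ => Iff.rfl⟩
    refine Int.congr (p := fun c : El j × IPow N (El v) => ∃ V : IPow N (El v), B (c.1, V) ∧
      ∀ a, (a ∈ V ↔ a ∈ c.2 ∧ A (c.1, a))) (by (repeat' (first | with_reducible apply memPE | with_reducible apply memPE' | with_reducible apply memPE'' | with_reducible apply memCode | with_reducible apply memCodeP | with_reducible apply memCode₂ | with_reducible apply eqPE | with_reducible apply eqPE' | with_reducible exact IntF.id | with_reducible exact IntF.fst' | with_reducible exact IntF.snd' | with_reducible exact IntF.const _ | with_reducible exact Int.const _ | assumption | with_reducible apply Int.and | with_reducible apply Int.or | with_reducible apply Int.not | with_reducible apply Int.imp | with_reducible apply Int.iff | with_reducible apply Int.ne | with_reducible apply Int.eq | with_reducible apply Int.mem | with_reducible apply Int.subset | with_reducible apply Int.ltN | with_reducible apply Int.leN | with_reducible_and_instances apply Int.le | with_reducible_and_instances apply Int.lt | with_reducible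 apply Int.all | with_reducible apply Int.ex | with_reducible apply IntF.fst | with_reducible apply IntF.snd | with_reducible apply IntF.app | with_reducible apply IntF.inl | with_reducible apply IntF.inr | with_reducible_and_instances apply IntF.mul | with_reducible_and_instances apply IntF.inv | with_reducible_and_instances apply IntF.add | with_reducible_and_instances apply IntF.sub | with_reducible_and_instances apply IntF.neg | with_reducible_and_instances apply IntF.smul | with_reducible apply Int.fin | with_reducible apply IntF.sep | with_reducible apply IntF.lam | with_reducible apply IntF.insert | with_reducible apply IntF.singleton | with_reducible apply IntF.union | with_reducible apply IntF.iimage | with_reducible apply IntF.ite | with_reducible apply IntF.the | with_reducible apply IntF.irec | with_reducible apply IntF.succ | with_reducible apply IntF.val | with_reducible apply IntF.mk | (with_reducible refine Int.comp ?_ ?_; assumption) | (with_reducible refine Int.comp₂ ?_ ?_ ?_; assumption) | (with_reducible refine Int.comp₃ ?_ ?_ ?_ ?_; assumption) | (with_reducible refine Int.comp₄ ?_ ?_ ?_ ?_ ?_; assumption) | (with_reducible refine IntF.comp ?_ ?_; assumption) | (with_reducible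 refine IntF.comp₂ ?_ ?_ ?_; assumption) | (with_reducible refine IntF.comp₃ ?_ ?_ ?_ ?_; assumption) | with_reducible apply IntF.pair))) fun c => ?_
    refine exists_congr fun V => and_congr (hB1 (c.1, V)) (forall_congr' fun a => ?_)
    rw [hA1]
  obtain ⟨W, hW, hW1⟩ := exists_base hr h hj (hOI ht₁) (hOI ht₂) fun i => by
    obtain ⟨d, ⟨hd, hds⟩, g1, g2⟩ := hb i
    obtain ⟨m, hm, hm1⟩ := ext_dist (hv i) (isMap₂_iff.1 hd.graph)
    refine ⟨rho (X i) m, ext_QD hr (hv i) hd hds g1 hm hm1, ?_⟩
    have hdi := isMap₂_iff.1 hd.graph
    have hd' : IsQuasiMetric (fun a b => d b a) := ⟨isMap₂_iff.2 (by (repeat' (first | with_reducible apply memPE | with_reducible apply memPE' | with_reducible apply memPE'' | with_reducible apply memCode | with_reducible apply memCodeP | with_reducible apply memCode₂ | with_reducible apply eqPE | with_reducible apply eqPE' | with_reducible exact IntF.id | with_reducible exact IntF.fst' | with_reducible exact IntF.snd' | with_reducible exact IntF.const _ | with_reducible exact Int.const _ | assumption | with_reducible apply Int.and | with_reducible apply Int.or | with_reducible apply Int.not | with_reducible apply Int.imp | with_reducible apply Int.iff | with_reducible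 apply Int.ne | with_reducible apply Int.eq | with_reducible apply Int.mem | with_reducible apply Int.subset | with_reducible apply Int.ltN | with_reducible apply Int.leN | with_reducible_and_instances apply Int.le | with_reducible_and_instances apply Int.lt | with_reducible apply Int.all | with_reducible apply Int.ex | with_reducible apply IntF.fst | with_reducible apply IntF.snd | with_reducible apply IntF.app | with_reducible apply IntF.inl | with_reducible apply IntF.inr | with_reducible_and_instances apply IntF.mul | with_reducible_and_instances apply IntF.inv | with_reducible_and_instances apply IntF.add | with_reducible_and_instances apply IntF.sub | with_reducible_and_instances apply IntF.neg | with_reducible_and_instances apply IntF.smul | with_reducible apply Int.fin | with_reducible apply IntF.sep | with_reducible apply IntF.lam | with_reducible apply IntF.insert | with_reducible apply IntF.singleton | with_reducible apply IntF.union | with_reducible apply IntF.iimage | with_reducible apply IntF.ite | with_reducible apply IntF.the | with_reducible apply IntF.irec | with_reducible apply IntF.succ | with_reducible apply IntF.val | with_reducible apply IntF.mk | (with_reducible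 refine Int.comp ?_ ?_; assumption) | (with_reducible refine Int.comp₂ ?_ ?_ ?_; assumption) | (with_reducible refine Int.comp₃ ?_ ?_ ?_ ?_; assumption) | (with_reducible refine Int.comp₄ ?_ ?_ ?_ ?_ ?_; assumption) | (with_reducible refine IntF.comp ?_ ?_; assumption) | (with_reducible refine IntF.comp₂ ?_ ?_ ?_; assumption) | (with_reducible refine IntF.comp₃ ?_ ?_ ?_ ?_; assumption) | with_reducible apply IntF.pair))), fun a b => hd.nonneg b a,
      hd.self, fun a b c => by
        have := hd.tri c b a
        linarith, fun a b h1 h2 => hd.sep a b h2 h1⟩
    have h1 := ext_QD hr (hv i) hd' (fun a b hab => (hds _ _ hab).symm) g2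
      (m := fun p => m (p.2, p.1)) (by (repeat' (first | with_reducible apply memPE | with_reducible apply memPE' | with_reducible apply memPE'' | with_reducible apply memCode | with_reducible apply memCodeP | with_reducible apply memCode₂ | with_reducible apply eqPE | with_reducible apply eqPE' | with_reducible exact IntF.id | with_reducible exact IntF.fst' | with_reducible exact IntF.snd' | with_reducible exact IntF.const _ | with_reducible exact Int.const _ | assumption | with_reducible apply Int.and | with_reducible apply Int.or | with_reducible apply Int.not | with_reducible apply Int.imp | with_reducible apply Int.iff | with_reducible apply Int.ne | with_reducible apply Int.eq | with_reducible apply Int.mem | with_reducible apply Int.subset | with_reducible apply Int.ltN | with_reducible apply Int.leN | with_reducible_and_instances apply Int.le | with_reducible_and_instances apply Int.lt | with_reducible apply Int.all | with_reducible apply Int.ex | with_reducible apply IntF.fst | with_reducible apply IntF.snd | with_reducible apply IntF.app | with_reducible apply IntF.inl | with_reducible apply IntF.inr | with_reducible_and_instances apply IntF.mul | with_reducible_and_instances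 apply IntF.inv | with_reducible_and_instances apply IntF.add | with_reducible_and_instances apply IntF.sub | with_reducible_and_instances apply IntF.neg | with_reducible_and_instances apply IntF.smul | with_reducible apply Int.fin | with_reducible apply IntF.sep | with_reducible apply IntF.lam | with_reducible apply IntF.insert | with_reducible apply IntF.singleton | with_reducible apply IntF.union | with_reducible apply IntF.iimage | with_reducible apply IntF.ite | with_reducible apply IntF.the | with_reducible apply IntF.irec | with_reducible apply IntF.succ | with_reducible apply IntF.val | with_reducible apply IntF.mk | (with_reducible refine Int.comp ?_ ?_; assumption) | (with_reducible refine Int.comp₂ ?_ ?_ ?_; assumption) | (with_reducible refine Int.comp₃ ?_ ?_ ?_ ?_; assumption) | (with_reducible refine Int.comp₄ ?_ ?_ ?_ ?_ ?_; assumption) | (with_reducible refine IntF.comp ?_ ?_; assumption) | (with_reducible refine IntF.comp₂ ?_ ?_ ?_; assumption) | (with_reducible refine IntF.comp₃ ?_ ?_ ?_ ?_; assumption) | with_reducible apply IntF.pair))) fun a b => hm1 b a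
    rw [rho_symm] at h1
    exact h1
  have hU : US (fun c : INat N × (IFun N (El j) (El v) × IFun N (El j) (El v)) =>
      ∀ i, E i < c.1 → W (i, (c.1, (c.2.1 i, c.2.2 i)))) := by
    refine ⟨by (repeat' (first | with_reducible apply memPE | with_reducible apply memPE' | with_reducible apply memPE'' | with_reducible apply memCode | with_reducible apply memCodeP | with_reducible apply memCode₂ | with_reducible apply eqPE | with_reducible apply eqPE' | with_reducible exact IntF.id | with_reducible exact IntF.fst' | with_reducible exact IntF.snd' | with_reducible exact IntF.const _ | with_reducible exact Int.const _ | assumption | with_reducible apply Int.and | with_reducible apply Int.or | with_reducible apply Int.not | with_reducible apply Int.imp | with_reducible apply Int.iff | with_reducible apply Int.ne | with_reducible apply Int.eq | with_reducible apply Int.mem | with_reducible apply Int.subset | with_reducible apply Int.ltN | with_reducible apply Int.leN | with_reducible_and_instances apply Int.le | with_reducible_and_instances apply Int.lt | with_reducible apply Int.all | with_reducible apply Int.ex | with_reducible apply IntF.fst | with_reducible apply IntF.snd | with_reducible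 apply IntF.app | with_reducible apply IntF.inl | with_reducible apply IntF.inr | with_reducible_and_instances apply IntF.mul | with_reducible_and_instances apply IntF.inv | with_reducible_and_instances apply IntF.add | with_reducible_and_instances apply IntF.sub | with_reducible_and_instances apply IntF.neg | with_reducible_and_instances apply IntF.smul | with_reducible apply Int.fin | with_reducible apply IntF.sep | with_reducible apply IntF.lam | with_reducible apply IntF.insert | with_reducible apply IntF.singleton | with_reducible apply IntF.union | with_reducible apply IntF.iimage | with_reducible apply IntF.ite | with_reducible apply IntF.the | with_reducible apply IntF.irec | with_reducible apply IntF.succ | with_reducible apply IntF.val | with_reducible apply IntF.mk | (with_reducible refine Int.comp ?_ ?_; assumption) | (with_reducible refine Int.comp₂ ?_ ?_ ?_; assumption) | (with_reducible refine Int.comp₃ ?_ ?_ ?_ ?_; assumption) | (with_reducible refine Int.comp₄ ?_ ?_ ?_ ?_ ?_; assumption) | (with_reducible refine IntF.comp ?_ ?_; assumption) | (with_reducible refine IntF.comp₂ ?_ ?_ ?_; assumption) | (with_reducible refine IntF.comp₃ ?_ ?_ ?_ ?_; assumption) | with_reducible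 apply IntF.pair)), fun f g i hi => absurd hi INat.not_lt_zero, fun n f i _ =>
      (hW1 i).2.1 _ _, fun n a b c e g1 g2 g3 i hi => ?_, fun f g hfg => ?_⟩
    · have hi' := hi.trans (INat.lt_succ_self _)
      exact (hW1 i).2.2.1 n _ _ _ _ (g1 i hi') (g2 i hi') (g3 i hi')
    · refine IFun.ext' fun i => (hW1 i).2.2.2.1 _ _ fun n => ?_
      have hdn : ∀ n a b, W (i, (n.succ, (a, b))) → W (i, (n, (a, b))) := fun n a b h1 =>
        (hW1 i).2.2.1 n a a a b ((hW1 i).2.1 _ _) ((hW1 i).2.1 _ _) h1
      have hm : ∀ m, n ≤ m → W (i, (m, (f i, g i))) → W (i, (n, (f i, g i))) := by
        refine INat.ind (by (repeat' (first | with_reducible apply memPE | with_reducible apply memPE' | with_reducible apply memPE'' | with_reducible apply memCode | with_reducible apply memCodeP | with_reducible apply memCode₂ | with_reducible apply eqPE | with_reducible apply eqPE' | with_reducible exact IntF.id | with_reducible exact IntF.fst' | with_reducible exact IntF.snd' | with_reducible exact IntF.const _ | with_reducible exact Int.const _ | assumption | with_reducible apply Int.and | with_reducible apply Int.or | with_reducible apply Int.not | with_reducible apply Int.imp | with_reducible apply Int.iff |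 with_reducible apply Int.ne | with_reducible apply Int.eq | with_reducible apply Int.mem | with_reducible apply Int.subset | with_reducible apply Int.ltN | with_reducible apply Int.leN | with_reducible_and_instances apply Int.le | with_reducible_and_instances apply Int.lt | with_reducible apply Int.all | with_reducible apply Int.ex | with_reducible apply IntF.fst | with_reducible apply IntF.snd | with_reducible apply IntF.app | with_reducible apply IntF.inl | with_reducible apply IntF.inr | with_reducible_and_instances apply IntF.mul | with_reducible_and_instances apply IntF.inv | with_reducible_and_instances apply IntF.add | with_reducible_and_instances apply IntF.sub | with_reducible_and_instances apply IntF.neg | with_reducible_and_instances apply IntF.smul | with_reducible apply Int.fin | with_reducible apply IntF.sep | with_reducible apply IntF.lam | with_reducible apply IntF.insert | with_reducible apply IntF.singleton | with_reducible apply IntF.union | with_reducible apply IntF.iimage | with_reducible apply IntF.ite | with_reducible apply IntF.the | with_reducible apply IntF.irec | with_reducible apply IntF.succ | with_reducible apply IntF.val | with_reducible apply IntF.mk | (with_reducible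 refine Int.comp ?_ ?_; assumption) | (with_reducible refine Int.comp₂ ?_ ?_ ?_; assumption) | (with_reducible refine Int.comp₃ ?_ ?_ ?_ ?_; assumption) | (with_reducible refine Int.comp₄ ?_ ?_ ?_ ?_ ?_; assumption) | (with_reducible refine IntF.comp ?_ ?_; assumption) | (with_reducible refine IntF.comp₂ ?_ ?_ ?_; assumption) | (with_reducible refine IntF.comp₃ ?_ ?_ ?_ ?_; assumption) | with_reducible apply IntF.pair))) ?_ ?_
        · intro h1 h2
          rcases h1.lt_or_eq with h3 | rfl
          · exact absurd h3 INat.not_lt_zero
          · exact h2
        · intro m ih h1 h2
          rcases h1.lt_or_eq with h3 | rfl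
          · exact ih (INat.lt_succ_iff.1 h3) (hdn _ _ _ h2)
          · exact h2
      exact hm (max n (E i)).succ ((le_max_left _ _).trans (INat.le_succ_self _))
        (hfg _ i (INat.lt_succ_iff.2 (le_max_right _ _)))
  obtain ⟨d, hd, hd0, hds, hdt, hdU, hdL⟩ := exists_dist hq hU hr
  have hPi : ∀ f, Mem f P ↔ ∃ g : IFun N (El j) (El v), (∀ i, Mem (code (M := N) (g i)) (X i)) ∧
      code g = f := fun f => prod_iff hP fun i z hz => ⟨⟨z, hv i z hz⟩, rfl⟩
  have hF : ∀ f : El P, ∃ g : IFun N (El j) (El v), (∀ i, Mem (code (M := N) (g i)) (X i)) ∧
      code g = f.1 := fun f => (hPi f.1).1 f.2
  choose F hFX hFP using hF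
  have hFI : IntF N F := IntF.of_D (S := fun v => v 0 = v 1) (D.eqf (DF.var _) (DF.var _))
    fun a b => ⟨fun h => ITy.inj (M := N) ((hFP a).trans h), fun h => h ▸ (hFP a).symm⟩
  have hsub : ∀ {t : El j → N} (i : El j) {d : El (X i) → El (X i) → El r}, IsTau d (t i) →
      ∀ w, Mem w (t i) → ∀ z, Mem z w → Mem z (X i) := fun i d hd w hw => ((hd w).1 hw).1
  refine ⟨fun f g => d (F f) (F g), ⟨⟨isMap₂_iff.2 (by (repeat' (first | with_reducible apply memPE | with_reducible apply memPE' | with_reducible apply memPE'' | with_reducible apply memCode | with_reducible apply memCodeP | with_reducible apply memCode₂ | with_reducible apply eqPE | with_reducible apply eqPE' | with_reducible exact IntF.id | with_reducible exact IntF.fst' | with_reducible exact IntF.snd' | with_reducible exact IntF.const _ | with_reducible exact Int.const _ | assumption | with_reducible apply Int.and | with_reducible apply Int.or | with_reducible apply Int.not | with_reducible apply Int.imp | with_reducible apply Int.iff | with_reducible apply Int.ne | with_reducible apply Int.eq | with_reducible apply Int.mem | with_reducible apply Int.subset | with_reducible apply Int.ltN | with_reducible apply Int.leN | with_reducible_and_instances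 apply Int.le | with_reducible_and_instances apply Int.lt | with_reducible apply Int.all | with_reducible apply Int.ex | with_reducible apply IntF.fst | with_reducible apply IntF.snd | with_reducible apply IntF.app | with_reducible apply IntF.inl | with_reducible apply IntF.inr | with_reducible_and_instances apply IntF.mul | with_reducible_and_instances apply IntF.inv | with_reducible_and_instances apply IntF.add | with_reducible_and_instances apply IntF.sub | with_reducible_and_instances apply IntF.neg | with_reducible_and_instances apply IntF.smul | with_reducible apply Int.fin | with_reducible apply IntF.sep | with_reducible apply IntF.lam | with_reducible apply IntF.insert | with_reducible apply IntF.singleton | with_reducible apply IntF.union | with_reducible apply IntF.iimage | with_reducible apply IntF.ite | with_reducible apply IntF.the | with_reducible apply IntF.irec | with_reducible apply IntF.succ | with_reducible apply IntF.val | with_reducible apply IntF.mk | (with_reducible refine Int.comp ?_ ?_; assumption) | (with_reducible refine Int.comp₂ ?_ ?_ ?_; assumption) | (with_reducible refine Int.comp₃ ?_ ?_ ?_ ?_; assumption) | (with_reducible refine Int.comp₄ ?_ ?_ ?_ ?_ ?_;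 assumption) | (with_reducible refine IntF.comp ?_ ?_; assumption) | (with_reducible refine IntF.comp₂ ?_ ?_ ?_; assumption) | (with_reducible refine IntF.comp₃ ?_ ?_ ?_ ?_; assumption) | with_reducible apply IntF.pair))), fun a b => hd0 _ _, fun a => hds _,
    fun a b c => hdt _ _ _, fun a b h1 _ => ?_⟩, fun a b h1 => ?_⟩, ?_, ?_⟩
  · have h2 : F a = F b := hU.sep _ _ fun n => hU.mono (INat.le_succ_self n) (hdL n _ _ (by
      rw [show d (F a) (F b) = 0 from h1]
      exact hq.pos _))
    exact Subtype.ext (by rw [← hFP a, ← hFP b, h2])
  · have h2 : F a = F b := hU.sep _ _ fun n => hU.mono (INat.le_succ_self n) (hdL n _ _ (by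
      rw [show d (F a) (F b) = 0 from h1]
      exact hq.pos _))
    exact Subtype.ext (by rw [← hFP a, ← hFP b, h2])
  · refine tau_prod hr hq (fun i => ?_) hv hX hT₁ hFI hFP hFX hE hEi hW (fun i => (hW1 i).2.1)
      (fun i => (hW1 i).2.2.1) (fun i => (hW1 i).2.2.2.2.1) hd hds hdt (fun n f g h1 => hdU n f g h1)
      fun n f g h1 => hdL n f g h1
    obtain ⟨d, _, g1, _⟩ := hb i
    exact hsub i g1
  · refine tau_prod (W := fun c => W (c.1, (c.2.1, (c.2.2.2, c.2.2.1)))) (d := fun f g => d g f)
      hr hq (fun i => ?_) hv hX hT₂ hFI hFP hFX hE hEi (by (repeat' (first | with_reducible apply memPE | with_reducible apply memPE' | with_reducible apply memPE'' | with_reducible apply memCode | with_reducible apply memCodeP | with_reducible apply memCode₂ | with_reducible apply eqPE | with_reducible apply eqPE' | with_reducible exact IntF.id | with_reducible exact IntF.fst' | with_reducible exact IntF.snd' | with_reducible exact IntF.const _ | with_reducible exact Int.const _ | assumption | with_reducible apply Int.and | with_reducible apply Int.or | with_reducible apply Int.not | with_reducible apply Int.imp | with_reducible apply Int.iff | with_reducible apply Int.ne | with_reducible apply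 Int.eq | with_reducible apply Int.mem | with_reducible apply Int.subset | with_reducible apply Int.ltN | with_reducible apply Int.leN | with_reducible_and_instances apply Int.le | with_reducible_and_instances apply Int.lt | with_reducible apply Int.all | with_reducible apply Int.ex | with_reducible apply IntF.fst | with_reducible apply IntF.snd | with_reducible apply IntF.app | with_reducible apply IntF.inl | with_reducible apply IntF.inr | with_reducible_and_instances apply IntF.mul | with_reducible_and_instances apply IntF.inv | with_reducible_and_instances apply IntF.add | with_reducible_and_instances apply IntF.sub | with_reducible_and_instances apply IntF.neg | with_reducible_and_instances apply IntF.smul | with_reducible apply Int.fin | with_reducible apply IntF.sep | with_reducible apply IntF.lam | with_reducible apply IntF.insert | with_reducible apply IntF.singleton | with_reducible apply IntF.union | with_reducible apply IntF.iimage | with_reducible apply IntF.ite | with_reducible apply IntF.the | with_reducible apply IntF.irec | with_reducible apply IntF.succ | with_reducible apply IntF.val | with_reducible apply IntF.mk | (with_reducible refine Int.comp ?_ ?_; assumption) |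 (with_reducible refine Int.comp₂ ?_ ?_ ?_; assumption) | (with_reducible refine Int.comp₃ ?_ ?_ ?_ ?_; assumption) | (with_reducible refine Int.comp₄ ?_ ?_ ?_ ?_ ?_; assumption) | (with_reducible refine IntF.comp ?_ ?_; assumption) | (with_reducible refine IntF.comp₂ ?_ ?_ ?_; assumption) | (with_reducible refine IntF.comp₃ ?_ ?_ ?_ ?_; assumption) | with_reducible apply IntF.pair))) (fun i => (hW1 i).2.1)
      (fun i n a b c e g1 g2 g3 => (hW1 i).2.2.1 n _ _ _ _ g3 g2 g1) (fun i => (hW1 i).2.2.2.2.2)
      (by (repeat' (first | with_reducible apply memPE | with_reducible apply memPE' | with_reducible apply memPE'' | with_reducible apply memCode | with_reducible apply memCodeP | with_reducible apply memCode₂ | with_reducible apply eqPE | with_reducible apply eqPE' | with_reducible exact IntF.id | with_reducible exact IntF.fst' | with_reducible exact IntF.snd' | with_reducible exact IntF.const _ | with_reducible exact Int.const _ | assumption | with_reducible apply Int.and | with_reducible apply Int.or | with_reducible apply Int.not | with_reducible apply Int.imp | with_reducible apply Int.iff | with_reducible apply Int.ne | with_reducible apply Int.eq | with_reducible apply Int.mem |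 with_reducible apply Int.subset | with_reducible apply Int.ltN | with_reducible apply Int.leN | with_reducible_and_instances apply Int.le | with_reducible_and_instances apply Int.lt | with_reducible apply Int.all | with_reducible apply Int.ex | with_reducible apply IntF.fst | with_reducible apply IntF.snd | with_reducible apply IntF.app | with_reducible apply IntF.inl | with_reducible apply IntF.inr | with_reducible_and_instances apply IntF.mul | with_reducible_and_instances apply IntF.inv | with_reducible_and_instances apply IntF.add | with_reducible_and_instances apply IntF.sub | with_reducible_and_instances apply IntF.neg | with_reducible_and_instances apply IntF.smul | with_reducible apply Int.fin | with_reducible apply IntF.sep | with_reducible apply IntF.lam | with_reducible apply IntF.insert | with_reducible apply IntF.singleton | with_reducible apply IntF.union | with_reducible apply IntF.iimage | with_reducible apply IntF.ite | with_reducible apply IntF.the | with_reducible apply IntF.irec | with_reducible apply IntF.succ | with_reducible apply IntF.val | with_reducible apply IntF.mk | (with_reducible refine Int.comp ?_ ?_; assumption) | (with_reducible refine Int.comp₂ ?_ ?_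 ?_; assumption) | (with_reducible refine Int.comp₃ ?_ ?_ ?_ ?_; assumption) | (with_reducible refine Int.comp₄ ?_ ?_ ?_ ?_ ?_; assumption) | (with_reducible refine IntF.comp ?_ ?_; assumption) | (with_reducible refine IntF.comp₂ ?_ ?_ ?_; assumption) | (with_reducible refine IntF.comp₃ ?_ ?_ ?_ ?_; assumption) | with_reducible apply IntF.pair))) hds (fun a b c => by
        have := hdt c b a
        linarith) (fun n f g h1 => hdU n g f h1) fun n f g h1 => hdL n g f h1
    obtain ⟨d, _, _, g1⟩ := hb i
    exact hsub i g1

/-- Countable products of metrizable spaces. -/
theorem cpmle_of (hr : IsReals r) (h : CPQMBi r) : CPMle r := by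
  intro j X t P T hj hX ht hb hP hT
  have hlt := int_lt hr
  have hadd := int_add hr
  obtain ⟨d, ⟨hd, hds⟩, h1, h2⟩ := h j X t t P T T hj hX ht ht (fun i => by
    obtain ⟨m, hm, h1⟩ := hb i
    have hnn : ∀ a b, 0 ≤ m a b := fun a b => by
      have h2 := hm.tri a b a
      rw [hm.symm b a, (hm.zero a a).2 rfl] at h2
      linarith
    refine ⟨m, ⟨⟨hm.graph, hnn, fun a => (hm.zero a a).2 rfl, hm.tri,
      fun a b h2 _ => (hm.zero a b).1 h2⟩, fun a b h2 => (hm.zero a b).1 h2⟩, h1, ?_⟩
    have h3 : (fun a b => m b a) = m := funext fun a => funext fun b => hm.symm b a
    rw [h3]
    exact h1) hP hT hT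
  have hdI := isMap₂_iff.1 hd.graph
  refine ⟨fun a b => d a b + d b a, ⟨isMap₂_iff.2 (by (repeat' (first | with_reducible apply memPE | with_reducible apply memPE' | with_reducible apply memPE'' | with_reducible apply memCode | with_reducible apply memCodeP | with_reducible apply memCode₂ | with_reducible apply eqPE | with_reducible apply eqPE' | with_reducible exact IntF.id | with_reducible exact IntF.fst' | with_reducible exact IntF.snd' | with_reducible exact IntF.const _ | with_reducible exact Int.const _ | assumption | with_reducible apply Int.and | with_reducible apply Int.or | with_reducible apply Int.not | with_reducible apply Int.imp | with_reducible apply Int.iff | with_reducible apply Int.ne | with_reducible apply Int.eq | with_reducible apply Int.mem | with_reducible apply Int.subset | with_reducible apply Int.ltN | with_reducible apply Int.leN | with_reducible_and_instances apply Int.le | with_reducible_and_instances apply Int.lt | with_reducible apply Int.all | with_reducible apply Int.ex | with_reducible apply IntF.fst | with_reducible apply IntF.snd | with_reducible apply IntF.app | with_reducible apply IntF.inl | with_reducible apply IntF.inr | with_reducible_and_instances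 apply IntF.mul | with_reducible_and_instances apply IntF.inv | with_reducible_and_instances apply IntF.add | with_reducible_and_instances apply IntF.sub | with_reducible_and_instances apply IntF.neg | with_reducible_and_instances apply IntF.smul | with_reducible apply Int.fin | with_reducible apply IntF.sep | with_reducible apply IntF.lam | with_reducible apply IntF.insert | with_reducible apply IntF.singleton | with_reducible apply IntF.union | with_reducible apply IntF.iimage | with_reducible apply IntF.ite | with_reducible apply IntF.the | with_reducible apply IntF.irec | with_reducible apply IntF.succ | with_reducible apply IntF.val | with_reducible apply IntF.mk | (with_reducible refine Int.comp ?_ ?_; assumption) | (with_reducible refine Int.comp₂ ?_ ?_ ?_; assumption) | (with_reducible refine Int.comp₃ ?_ ?_ ?_ ?_; assumption) | (with_reducible refine Int.comp₄ ?_ ?_ ?_ ?_ ?_; assumption) | (with_reducible refine IntF.comp ?_ ?_; assumption) | (with_reducible refine IntF.comp₂ ?_ ?_ ?_; assumption) | (with_reducible refine IntF.comp₃ ?_ ?_ ?_ ?_; assumption) | with_reducible apply IntF.pair))), fun a b => ⟨fun hab => ?_, ?_⟩,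
    fun a b => add_comm _ _, fun a b c => ?_⟩, fun V => (h1 V).trans (and_congr_right fun hV =>
      ⟨fun hV1 a ha => ?_, fun hV1 a ha => ?_⟩)⟩
  · have h3 := hd.nonneg a b
    have h4 := hd.nonneg b a
    refine hds a b ?_
    change d a b + d b a = 0 at hab
    linarith
  · rintro rfl
    change d a a + d a a = 0
    rw [hd.self, add_zero]
  · have h3 := hd.tri a b c
    have h4 := hd.tri c b a
    change d a c + d c a ≤ d a b + d b a + (d b c + d c b)
    linarith
  · obtain ⟨ε, g1, g2⟩ := hV1 a ha
    refine ⟨ε, g1, fun b hb => g2 b ?_⟩
    have h4 := hd.nonneg b a
    change d a b + d b a < ε at hb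
    linarith
  · obtain ⟨ε, g1, g2⟩ := hV1 a ha
    obtain ⟨s, hs⟩ := exists_set (p := fun b : El P => d b a < ε / 2) (by (repeat' (first | with_reducible apply memPE | with_reducible apply memPE' | with_reducible apply memPE'' | with_reducible apply memCode | with_reducible apply memCodeP | with_reducible apply memCode₂ | with_reducible apply eqPE | with_reducible apply eqPE' | with_reducible exact IntF.id | with_reducible exact IntF.fst' | with_reducible exact IntF.snd' | with_reducible exact IntF.const _ | with_reducible exact Int.const _ | assumption | with_reducible apply Int.and | with_reducible apply Int.or | with_reducible apply Int.not | with_reducible apply Int.imp | with_reducible apply Int.iff | with_reducible apply Int.ne | with_reducible apply Int.eq | with_reducible apply Int.mem | with_reducible apply Int.subset | with_reducible apply Int.ltN | with_reducible apply Int.leN | with_reducible_and_instances apply Int.le | with_reducible_and_instances apply Int.lt | with_reducible apply Int.all | with_reducible apply Int.ex | with_reducible apply IntF.fst | with_reducible apply IntF.snd | with_reducible apply IntF.app | with_reducible apply IntF.inl | with_reducible apply IntF.inr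 | with_reducible_and_instances apply IntF.mul | with_reducible_and_instances apply IntF.inv | with_reducible_and_instances apply IntF.add | with_reducible_and_instances apply IntF.sub | with_reducible_and_instances apply IntF.neg | with_reducible_and_instances apply IntF.smul | with_reducible apply Int.fin | with_reducible apply IntF.sep | with_reducible apply IntF.lam | with_reducible apply IntF.insert | with_reducible apply IntF.singleton | with_reducible apply IntF.union | with_reducible apply IntF.iimage | with_reducible apply IntF.ite | with_reducible apply IntF.the | with_reducible apply IntF.irec | with_reducible apply IntF.succ | with_reducible apply IntF.val | with_reducible apply IntF.mk | (with_reducible refine Int.comp ?_ ?_; assumption) | (with_reducible refine Int.comp₂ ?_ ?_ ?_; assumption) | (with_reducible refine Int.comp₃ ?_ ?_ ?_ ?_; assumption) | (with_reducible refine Int.comp₄ ?_ ?_ ?_ ?_ ?_; assumption) | (with_reducible refine IntF.comp ?_ ?_; assumption) | (with_reducible refine IntF.comp₂ ?_ ?_ ?_; assumption) | (with_reducible refine IntF.comp₃ ?_ ?_ ?_ ?_; assumption) | with_reducible apply IntF.pair)))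
    have hsT : Mem s T := (h2 s).2 ⟨fun z hz => ((hs z).1 hz).1, fun b hb => by
      obtain ⟨_, g3⟩ := (hs b.1).1 hb
      change d b a < ε / 2 at g3
      refine ⟨ε / 2 - d b a, by linarith, fun c hc => (hs c.1).2 ⟨c.2, ?_⟩⟩
      change d c a < ε / 2
      change d c b < ε / 2 - d b a at hc
      have := hd.tri c b a
      linarith⟩
    obtain ⟨δ, g3, g4⟩ := ((h1 s).1 hsT).2 a ((hs a.1).2 ⟨a.2, by
      change d a a < ε / 2
      rw [hd.self]
      linarith⟩)
    refine ⟨min δ (ε / 2), lt_min g3 (by linarith), fun b hb => g2 b ?_⟩
    obtain ⟨_, g5⟩ := (hs b.1).1 (g4 b (hb.trans_le (min_le_left _ _)))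
    have g6 := hb.trans_le (min_le_right _ _)
    change d b a < ε / 2 at g5
    change d a b < ε / 2 at g6
    change d a b + d b a < ε
    linarith

end

end Pool.Agent.Q257.ZQ
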