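import Pool.Agent.Q257.ZQ.Fam
import Pool.Agent.Q257.ZQ.Defs

/-!
# Canonical quasi-metrics from the quasi-metrizability of countable products
-/

set_option maxHeartbeats 1000000
set_option linter.all false
set_option synthInstance.maxSize 2000

namespace Pool.Agent.Q257.ZQ

open FirstOrder FirstOrder.Language
open Pool.Agent.Helper672.ZFA hiding Mem El IsOrdPair IsPair
open Pool.Agent.Helper672.Plain (LSet Mem IsOrdPair El)
open Pool.Agent.Helper672.ZFA.H635 (toL plainN_ordPair plainN_graph plainN_opGraph)
open Pool.Agent.H635Amen (IsReals)
open Pool.Agent.H310Cards (App)
open Pool.Agent.H310Top (IsTopology)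
open Pool.Agent.H310 (appN mem_cp extN instPEl)
open Pool.Agent.Q301.TM
open Pool.Agent.Q301.BM (TpO tp mem_tp mem_tp' isTopology_tp mem_cp' mem_domP exists_codeα exists_enum)
open Pool.Agent.Q301.QM (IsFam IsProduct IsProductTopology IsTau IsQuasiMetric QuasiMetrizable)

universe u u₁

attribute [local instance] toL instPEl

section

variable {N : Type u} [LSet.Structure N] [hM : IsModel N] {j : N} {α : Type u} [ITy N α]

/-- `S` is a topology on the product for which the projections are continuous. -/
def Clo (O : El j × IPow N α → Prop) (S : IPow N (IPow N (IFun N (El j) α))) : Prop :=
  (∀ U : IPow N (IFun N (El j) α), (∀ a, a ∈ U) → U ∈ S) ∧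
  (∀ U V W : IPow N (IFun N (El j) α), U ∈ S → V ∈ S → (∀ a, a ∈ W ↔ a ∈ U ∧ a ∈ V) → W ∈ S) ∧
  (∀ C : IPow N (IPow N (IFun N (El j) α)), (∀ U, U ∈ C → U ∈ S) →
    ∀ W : IPow N (IFun N (El j) α), (∀ a, a ∈ W ↔ ∃ U, U ∈ C ∧ a ∈ U) → W ∈ S) ∧
  ∀ (i : El j) (U : IPow N α), O (i, U) →
    ∀ V : IPow N (IFun N (El j) α), (∀ f : IFun N (El j) α, (f ∈ V ↔ f i ∈ U)) → V ∈ S

/-- The product topology. -/
def TT (O : El j × IPow N α → Prop) (W : IPow N (IFun N (El j) α)) : Prop :=
  ∀ S : IPow N (IPow N (IFun N (El j) α)), Clo O S → W ∈ S

theorem tpO_TT {O : El j × IPow N α → Prop} (hO : Int N O) : TpO (TT O) := by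
  refine ⟨?_, fun U hU S hS => hS.1 U hU,
    fun U V W hU hV hW S hS => hS.2.1 U V W (hU S hS) (hV S hS) hW,
    fun C hC hCO W hW S hS => hS.2.2.1 (sep N C) (fun U hU => hCO U ((mem_sep hC).1 hU) S hS) W
      fun a => (hW a).trans (exists_congr fun U => and_congr_left' (mem_sep hC).symm)⟩
  unfold TT Clo
  (repeat' (first | with_reducible apply memPE | with_reducible apply memPE' | with_reducible apply memPE'' | with_reducible apply memCode | with_reducible apply memCodeP | with_reducible apply memCode₂ | with_reducible apply eqPE | with_reducible apply eqPE' | with_reducible exact IntF.id | with_reducible exact IntF.fst' | with_reducible exact IntF.snd' | with_reducible exact IntF.const _ | with_reducible exact Int.const _ | assumption | with_reducible apply Int.and | with_reducible apply Int.or | with_reducible apply Int.not | with_reducible apply Int.imp | with_reducible apply Int.iff | with_reducible apply Int.ne | with_reducible apply Int.eq | with_reducible apply Int.mem | with_reducible apply Int.subset | with_reducible apply Int.ltN | with_reducible apply Int.leN | with_reducible_and_instances apply Int.le | with_reducible_and_instances apply Int.lt | with_reducible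 apply Int.all | with_reducible apply Int.ex | with_reducible apply IntF.fst | with_reducible apply IntF.snd | with_reducible apply IntF.app | with_reducible apply IntF.inl | with_reducible apply IntF.inr | with_reducible_and_instances apply IntF.mul | with_reducible_and_instances apply IntF.inv | with_reducible_and_instances apply IntF.add | with_reducible_and_instances apply IntF.sub | with_reducible_and_instances apply IntF.neg | with_reducible_and_instances apply IntF.smul | with_reducible apply Int.fin | with_reducible apply IntF.sep | with_reducible apply IntF.lam | with_reducible apply IntF.insert | with_reducible apply IntF.singleton | with_reducible apply IntF.union | with_reducible apply IntF.iimage | with_reducible apply IntF.ite | with_reducible apply IntF.the | with_reducible apply IntF.irec | with_reducible apply IntF.succ | with_reducible apply IntF.val | with_reducible apply IntF.mk | (with_reducible refine Int.comp ?_ ?_; assumption) | (with_reducible refine Int.comp₂ ?_ ?_ ?_; assumption) | (with_reducible refine Int.comp₃ ?_ ?_ ?_ ?_; assumption) | (with_reducible refine Int.comp₄ ?_ ?_ ?_ ?_ ?_; assumption) | (with_reducible refine IntF.comp ?_ ?_; assumption)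 | (with_reducible refine IntF.comp₂ ?_ ?_ ?_; assumption) | (with_reducible refine IntF.comp₃ ?_ ?_ ?_ ?_; assumption) | with_reducible apply IntF.pair))

theorem int_slO {O : El j × IPow N α → Prop} (hO : Int N O) (i : El j) :
    Int N (fun U : IPow N α => O (i, U)) := by (repeat' (first | with_reducible apply memPE | with_reducible apply memPE' | with_reducible apply memPE'' | with_reducible apply memCode | with_reducible apply memCodeP | with_reducible apply memCode₂ | with_reducible apply eqPE | with_reducible apply eqPE' | with_reducible exact IntF.id | with_reducible exact IntF.fst' | with_reducible exact IntF.snd' | with_reducible exact IntF.const _ | with_reducible exact Int.const _ | assumption | with_reducible apply Int.and | with_reducible apply Int.or | with_reducible apply Int.not | with_reducible apply Int.imp | with_reducible apply Int.iff | with_reducible apply Int.ne | with_reducible apply Int.eq | with_reducible apply Int.mem | with_reducible apply Int.subset | with_reducible apply Int.ltN | with_reducible apply Int.leN | with_reducible_and_instances apply Int.le | with_reducible_and_instances apply Int.lt | with_reducible apply Int.all | with_reducible apply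 Int.ex | with_reducible apply IntF.fst | with_reducible apply IntF.snd | with_reducible apply IntF.app | with_reducible apply IntF.inl | with_reducible apply IntF.inr | with_reducible_and_instances apply IntF.mul | with_reducible_and_instances apply IntF.inv | with_reducible_and_instances apply IntF.add | with_reducible_and_instances apply IntF.sub | with_reducible_and_instances apply IntF.neg | with_reducible_and_instances apply IntF.smul | with_reducible apply Int.fin | with_reducible apply IntF.sep | with_reducible apply IntF.lam | with_reducible apply IntF.insert | with_reducible apply IntF.singleton | with_reducible apply IntF.union | with_reducible apply IntF.iimage | with_reducible apply IntF.ite | with_reducible apply IntF.the | with_reducible apply IntF.irec | with_reducible apply IntF.succ | with_reducible apply IntF.val | with_reducible apply IntF.mk | (with_reducible refine Int.comp ?_ ?_; assumption) | (with_reducible refine Int.comp₂ ?_ ?_ ?_; assumption) | (with_reducible refine Int.comp₃ ?_ ?_ ?_ ?_; assumption) | (with_reducible refine Int.comp₄ ?_ ?_ ?_ ?_ ?_; assumption) | (with_reducible refine IntF.comp ?_ ?_; assumption) | (with_reducible refine IntF.comp₂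 ?_ ?_ ?_; assumption) | (with_reducible refine IntF.comp₃ ?_ ?_ ?_ ?_; assumption) | with_reducible apply IntF.pair))

theorem int_codeO {O : El j × IPow N α → Prop} (hO : Int N O) :
    IntF N (fun i : El j => sep N fun U : IPow N α => O (i, U)) := by (repeat' (first | with_reducible apply memPE | with_reducible apply memPE' | with_reducible apply memPE'' | with_reducible apply memCode | with_reducible apply memCodeP | with_reducible apply memCode₂ | with_reducible apply eqPE | with_reducible apply eqPE' | with_reducible exact IntF.id | with_reducible exact IntF.fst' | with_reducible exact IntF.snd' | with_reducible exact IntF.const _ | with_reducible exact Int.const _ | assumption | with_reducible apply Int.and | with_reducible apply Int.or | with_reducible apply Int.not | with_reducible apply Int.imp | with_reducible apply Int.iff | with_reducible apply Int.ne | with_reducible apply Int.eq | with_reducible apply Int.mem | with_reducible apply Int.subset | with_reducible apply Int.ltN | with_reducible apply Int.leN | with_reducible_and_instances apply Int.le | with_reducible_and_instances apply Int.lt | with_reducible apply Int.all | with_reducible apply Int.ex | with_reducible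 apply IntF.fst | with_reducible apply IntF.snd | with_reducible apply IntF.app | with_reducible apply IntF.inl | with_reducible apply IntF.inr | with_reducible_and_instances apply IntF.mul | with_reducible_and_instances apply IntF.inv | with_reducible_and_instances apply IntF.add | with_reducible_and_instances apply IntF.sub | with_reducible_and_instances apply IntF.neg | with_reducible_and_instances apply IntF.smul | with_reducible apply Int.fin | with_reducible apply IntF.sep | with_reducible apply IntF.lam | with_reducible apply IntF.insert | with_reducible apply IntF.singleton | with_reducible apply IntF.union | with_reducible apply IntF.iimage | with_reducible apply IntF.ite | with_reducible apply IntF.the | with_reducible apply IntF.irec | with_reducible apply IntF.succ | with_reducible apply IntF.val | with_reducible apply IntF.mk | (with_reducible refine Int.comp ?_ ?_; assumption) | (with_reducible refine Int.comp₂ ?_ ?_ ?_; assumption) | (with_reducible refine Int.comp₃ ?_ ?_ ?_ ?_; assumption) | (with_reducible refine Int.comp₄ ?_ ?_ ?_ ?_ ?_; assumption) | (with_reducible refine IntF.comp ?_ ?_; assumption) | (with_reducible refine IntF.comp₂ ?_ ?_ ?_; assumption)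 | (with_reducible refine IntF.comp₃ ?_ ?_ ?_ ?_; assumption) | with_reducible apply IntF.pair))

/-- The product topology is the product topology. -/
theorem isProductTopology_TT {O : El j × IPow N α → Prop} (hO : Int N O) :
    IsProductTopology (tp (TT O) (tpO_TT hO).int) (dom N (IFun N (El j) α))
      (fun i : El j => code (M := N) (sep N fun U : IPow N α => O (i, U))) := by
  refine ⟨isTopology_tp (tpO_TT hO), fun i u v hu hv => ?_, fun T' hT' hs u hu => ?_⟩
  · obtain ⟨U, hU, rfl⟩ := mem_cp.1 hu
    obtain ⟨V, rfl, hV⟩ := exists_codeα (N := N) (α := IFun N (El j) α) (u := v)
      fun z hz => ((hv z).1 hz).1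
    refine mem_tp'.2 fun S hS => hS.2.2.2 i U ((mem_sep (int_slO hO i)).1 hU) V fun f => ?_
    rw [hV f, hv]
    constructor
    · rintro ⟨-, y, h1, h2⟩
      rw [app_code] at h1
      subst h1
      exact mem_cp'.1 h2
    · intro h1
      exact ⟨mem_domP.2 ⟨f, rfl⟩, _, (app_code f i).2 rfl, mem_cp'.2 h1⟩
  · obtain ⟨W, hW, rfl⟩ := mem_tp.1 hu
    have hI : Int N (fun U : IPow N (IFun N (El j) α) => Mem (code (M := N) U) T') :=
      ⟨T', fun _ => Iff.rfl⟩
    refine (mem_sep hI).1 (hW (sep N fun U => Mem (code (M := N) U) T') ⟨fun U hU => ?_,
      fun U V W hU hV hW => ?_, fun C hC W hW => ?_, fun i U hU V hV => ?_⟩)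
    · rw [mem_sep hI]
      have h1 : code (M := N) U = dom N (IFun N (El j) α) := extN fun z =>
        mem_cp.trans (Iff.trans ⟨fun ⟨a, _, h⟩ => ⟨a, h⟩, fun ⟨a, h⟩ => ⟨a, hU a, h⟩⟩
          mem_domP.symm)
      rw [h1]
      exact hT'.univ
    · rw [mem_sep hI] at *
      refine hT'.inter _ _ _ hU hV fun z => ?_
      rw [show Mem z (code W) ↔ _ from mem_cp, show Mem z (code U) ↔ _ from mem_cp,
        show Mem z (code V) ↔ _ from mem_cp]
      constructor
      · rintro ⟨a, ha, rfl⟩
        exact ⟨⟨a, ((hW a).1 ha).1, rfl⟩, ⟨a, ((hW a).1 ha).2, rfl⟩⟩
      · rintro ⟨⟨a, ha, rfl⟩, ⟨b, hb, h1⟩⟩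
        obtain rfl : b = a := ITy.inj (M := N) h1
        exact ⟨b, (hW b).2 ⟨ha, hb⟩, rfl⟩
    · rw [mem_sep hI]
      refine hT'.union (code C) (code W) (fun v hv => ?_) fun z => ?_
      · obtain ⟨U, hU, rfl⟩ := mem_cp.1 hv
        exact (mem_sep hI).1 (hC U hU)
      · rw [show Mem z (code W) ↔ _ from mem_cp]
        constructor
        · rintro ⟨a, ha, rfl⟩
          obtain ⟨U, hU, haU⟩ := (hW a).1 ha
          exact ⟨code U, mem_cp'.2 hU, mem_cp'.2 haU⟩
        · rintro ⟨v, hv, hz⟩
          obtain ⟨U, hU, rfl⟩ := mem_cp.1 hv
          obtain ⟨a, ha, rfl⟩ := mem_cp.1 hz
          exact ⟨a, (hW a).2 ⟨U, hU, ha⟩, rfl⟩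
    · rw [mem_sep hI]
      refine hs i (code U) (code V) (mem_cp.2 ⟨U, (mem_sep (int_slO hO i)).2 hU, rfl⟩)
        fun f => ?_
      rw [show Mem f (code V) ↔ _ from mem_cp]
      constructor
      · rintro ⟨f, hf, rfl⟩
        exact ⟨mem_domP.2 ⟨f, rfl⟩, _, (app_code f i).2 rfl, mem_cp'.2 ((hV f).1 hf)⟩
      · rintro ⟨hf, y, h1, h2⟩
        obtain ⟨f, rfl⟩ := mem_domP.1 hf
        rw [app_code] at h1
        subst h1
        exact ⟨f, (hV f).2 (mem_cp'.1 h2), rfl⟩

variable {r : N} [Field (El r)] [LinearOrder (El r)] [IsStrictOrderedRing (El r)]

/-- `D` is a quasi-metric (in the model) with the topology `O`. -/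
structure QD (O : IPow N α → Prop) (D : α × α → El r) : Prop where
  int : IntF N D
  nonneg : ∀ a b, 0 ≤ D (a, b)
  self : ∀ a, D (a, a) = 0
  tri : ∀ a b c, D (a, c) ≤ D (a, b) + D (b, c)
  sep : ∀ a b, D (a, b) = 0 → a = b
  top : ∀ U, O U ↔ ∀ a, a ∈ U → ∃ ε, 0 < ε ∧ ∀ b, D (a, b) < ε → b ∈ U

theorem QD.inter {O : IPow N α → Prop} {D : α × α → El r} (h : QD O D) (U V W : IPow N α)
    (hU : O U) (hV : O V) (hW : ∀ a, a ∈ W ↔ a ∈ U ∧ a ∈ V) : O W := by
  rw [h.top] at *
  intro a ha
  obtain ⟨ε, h1, h2⟩ := hU a ((hW a).1 ha).1
  obtain ⟨δ, h3, h4⟩ := hV a ((hW a).1 ha).2
  exact ⟨min ε δ, lt_min h1 h3, fun b hb => (hW b).2 ⟨h2 b (hb.trans_le (min_le_left _ _)),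
    h4 b (hb.trans_le (min_le_right _ _))⟩⟩

/-- The slices of the product. -/
noncomputable def sl (o : α) (c : El j × α) : IFun N (El j) α :=
  open Classical in lam N fun k : El j => if k = c.1 then c.2 else o

theorem int_sl (o : α) : IntF N (sl (N := N) (j := j) o) := by
  unfold sl
  (repeat' (first | with_reducible apply memPE | with_reducible apply memPE' | with_reducible apply memPE'' | with_reducible apply memCode | with_reducible apply memCodeP | with_reducible apply memCode₂ | with_reducible apply eqPE | with_reducible apply eqPE' | with_reducible exact IntF.id | with_reducible exact IntF.fst' | with_reducible exact IntF.snd' | with_reducible exact IntF.const _ | with_reducible exact Int.const _ | assumption | with_reducible apply Int.and | with_reducible apply Int.or | with_reducible apply Int.not | with_reducible apply Int.imp | with_reducible apply Int.iff | with_reducible apply Int.ne | with_reducible apply Int.eq | with_reducible apply Int.mem | with_reducible apply Int.subset | with_reducible apply Int.ltN | with_reducible apply Int.leN | with_reducible_and_instances apply Int.le | with_reducible_and_instances apply Int.lt | with_reducible apply Int.all | with_reducible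 apply Int.ex | with_reducible apply IntF.fst | with_reducible apply IntF.snd | with_reducible apply IntF.app | with_reducible apply IntF.inl | with_reducible apply IntF.inr | with_reducible_and_instances apply IntF.mul | with_reducible_and_instances apply IntF.inv | with_reducible_and_instances apply IntF.add | with_reducible_and_instances apply IntF.sub | with_reducible_and_instances apply IntF.neg | with_reducible_and_instances apply IntF.smul | with_reducible apply Int.fin | with_reducible apply IntF.sep | with_reducible apply IntF.lam | with_reducible apply IntF.insert | with_reducible apply IntF.singleton | with_reducible apply IntF.union | with_reducible apply IntF.iimage | with_reducible apply IntF.ite | with_reducible apply IntF.the | with_reducible apply IntF.irec | with_reducible apply IntF.succ | with_reducible apply IntF.val | with_reducible apply IntF.mk | (with_reducible refine Int.comp ?_ ?_; assumption) | (with_reducible refine Int.comp₂ ?_ ?_ ?_; assumption) | (with_reducible refine Int.comp₃ ?_ ?_ ?_ ?_; assumption) | (with_reducible refine Int.comp₄ ?_ ?_ ?_ ?_ ?_; assumption) | (with_reducible refine IntF.comp ?_ ?_; assumption) | (with_reducible refine IntF.comp₂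 ?_ ?_ ?_; assumption) | (with_reducible refine IntF.comp₃ ?_ ?_ ?_ ?_; assumption) | with_reducible apply IntF.pair))

theorem sl_self (o : α) (i : El j) (a : α) : sl (N := N) o (i, a) i = a := by
  classical
  unfold sl
  rw [lam_apply (by (repeat' (first | with_reducible apply memPE | with_reducible apply memPE' | with_reducible apply memPE'' | with_reducible apply memCode | with_reducible apply memCodeP | with_reducible apply memCode₂ | with_reducible apply eqPE | with_reducible apply eqPE' | with_reducible exact IntF.id | with_reducible exact IntF.fst' | with_reducible exact IntF.snd' | with_reducible exact IntF.const _ | with_reducible exact Int.const _ | assumption | with_reducible apply Int.and | with_reducible apply Int.or | with_reducible apply Int.not | with_reducible apply Int.imp | with_reducible apply Int.iff | with_reducible apply Int.ne | with_reducible apply Int.eq | with_reducible apply Int.mem | with_reducible apply Int.subset | with_reducible apply Int.ltN | with_reducible apply Int.leN | with_reducible_and_instances apply Int.le | with_reducible_and_instances apply Int.lt | with_reducible apply Int.all | with_reducible apply Int.ex | with_reducible apply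 IntF.fst | with_reducible apply IntF.snd | with_reducible apply IntF.app | with_reducible apply IntF.inl | with_reducible apply IntF.inr | with_reducible_and_instances apply IntF.mul | with_reducible_and_instances apply IntF.inv | with_reducible_and_instances apply IntF.add | with_reducible_and_instances apply IntF.sub | with_reducible_and_instances apply IntF.neg | with_reducible_and_instances apply IntF.smul | with_reducible apply Int.fin | with_reducible apply IntF.sep | with_reducible apply IntF.lam | with_reducible apply IntF.insert | with_reducible apply IntF.singleton | with_reducible apply IntF.union | with_reducible apply IntF.iimage | with_reducible apply IntF.ite | with_reducible apply IntF.the | with_reducible apply IntF.irec | with_reducible apply IntF.succ | with_reducible apply IntF.val | with_reducible apply IntF.mk | (with_reducible refine Int.comp ?_ ?_; assumption) | (with_reducible refine Int.comp₂ ?_ ?_ ?_; assumption) | (with_reducible refine Int.comp₃ ?_ ?_ ?_ ?_; assumption) | (with_reducible refine Int.comp₄ ?_ ?_ ?_ ?_ ?_; assumption) | (with_reducible refine IntF.comp ?_ ?_; assumption) | (with_reducible refine IntF.comp₂ ?_ ?_ ?_; assumption) | (with_reducible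 refine IntF.comp₃ ?_ ?_ ?_ ?_; assumption) | with_reducible apply IntF.pair)))]
  exact if_pos rfl

theorem sl_ne (o : α) {i k : El j} (h : k ≠ i) (a : α) : sl (N := N) o (i, a) k = o := by
  classical
  unfold sl
  rw [lam_apply (by (repeat' (first | with_reducible apply memPE | with_reducible apply memPE' | with_reducible apply memPE'' | with_reducible apply memCode | with_reducible apply memCodeP | with_reducible apply memCode₂ | with_reducible apply eqPE | with_reducible apply eqPE' | with_reducible exact IntF.id | with_reducible exact IntF.fst' | with_reducible exact IntF.snd' | with_reducible exact IntF.const _ | with_reducible exact Int.const _ | assumption | with_reducible apply Int.and | with_reducible apply Int.or | with_reducible apply Int.not | with_reducible apply Int.imp | with_reducible apply Int.iff | with_reducible apply Int.ne | with_reducible apply Int.eq | with_reducible apply Int.mem | with_reducible apply Int.subset | with_reducible apply Int.ltN | with_reducible apply Int.leN | with_reducible_and_instances apply Int.le | with_reducible_and_instances apply Int.lt | with_reducible apply Int.all | with_reducible apply Int.ex | with_reducible apply IntF.fst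 | with_reducible apply IntF.snd | with_reducible apply IntF.app | with_reducible apply IntF.inl | with_reducible apply IntF.inr | with_reducible_and_instances apply IntF.mul | with_reducible_and_instances apply IntF.inv | with_reducible_and_instances apply IntF.add | with_reducible_and_instances apply IntF.sub | with_reducible_and_instances apply IntF.neg | with_reducible_and_instances apply IntF.smul | with_reducible apply Int.fin | with_reducible apply IntF.sep | with_reducible apply IntF.lam | with_reducible apply IntF.insert | with_reducible apply IntF.singleton | with_reducible apply IntF.union | with_reducible apply IntF.iimage | with_reducible apply IntF.ite | with_reducible apply IntF.the | with_reducible apply IntF.irec | with_reducible apply IntF.succ | with_reducible apply IntF.val | with_reducible apply IntF.mk | (with_reducible refine Int.comp ?_ ?_; assumption) | (with_reducible refine Int.comp₂ ?_ ?_ ?_; assumption) | (with_reducible refine Int.comp₃ ?_ ?_ ?_ ?_; assumption) | (with_reducible refine Int.comp₄ ?_ ?_ ?_ ?_ ?_; assumption) | (with_reducible refine IntF.comp ?_ ?_; assumption) | (with_reducible refine IntF.comp₂ ?_ ?_ ?_; assumption) | (with_reducible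 refine IntF.comp₃ ?_ ?_ ?_ ?_; assumption) | with_reducible apply IntF.pair)))]
  exact if_neg h

/-- Open sets of the product have open slices. -/
theorem TT_sl {O : El j × IPow N α → Prop} (hO : Int N O) (o : α) {i : El j} {D : α × α → El r}
    (hD : QD (fun U => O (i, U)) D) {W : IPow N (IFun N (El j) α)} (hW : TT O W) :
    O (i, sep N fun b : α => sl (N := N) o (i, b) ∈ W) := by
  have hsl := int_sl (N := N) (j := j) o
  have hI : ∀ W : IPow N (IFun N (El j) α), Int N (fun b : α => sl (N := N) o (i, b) ∈ W) := by
    intro W
    (repeat' (first | with_reducible apply memPE | with_reducible apply memPE' | with_reducible apply memPE'' | with_reducible apply memCode | with_reducible apply memCodeP | with_reducible apply memCode₂ | with_reducible apply eqPE | with_reducible apply eqPE' | with_reducible exact IntF.id | with_reducible exact IntF.fst' | with_reducible exact IntF.snd' | with_reducible exact IntF.const _ | with_reducible exact Int.const _ | assumption | with_reducible apply Int.and | with_reducible apply Int.or | with_reducible apply Int.not | with_reducible apply Int.imp | with_reducible apply Int.iff | with_reducible apply Int.ne | with_reducible apply Int.eq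 | with_reducible apply Int.mem | with_reducible apply Int.subset | with_reducible apply Int.ltN | with_reducible apply Int.leN | with_reducible_and_instances apply Int.le | with_reducible_and_instances apply Int.lt | with_reducible apply Int.all | with_reducible apply Int.ex | with_reducible apply IntF.fst | with_reducible apply IntF.snd | with_reducible apply IntF.app | with_reducible apply IntF.inl | with_reducible apply IntF.inr | with_reducible_and_instances apply IntF.mul | with_reducible_and_instances apply IntF.inv | with_reducible_and_instances apply IntF.add | with_reducible_and_instances apply IntF.sub | with_reducible_and_instances apply IntF.neg | with_reducible_and_instances apply IntF.smul | with_reducible apply Int.fin | with_reducible apply IntF.sep | with_reducible apply IntF.lam | with_reducible apply IntF.insert | with_reducible apply IntF.singleton | with_reducible apply IntF.union | with_reducible apply IntF.iimage | with_reducible apply IntF.ite | with_reducible apply IntF.the | with_reducible apply IntF.irec | with_reducible apply IntF.succ | with_reducible apply IntF.val | with_reducible apply IntF.mk | (with_reducible refine Int.comp ?_ ?_; assumption)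 | (with_reducible refine Int.comp₂ ?_ ?_ ?_; assumption) | (with_reducible refine Int.comp₃ ?_ ?_ ?_ ?_; assumption) | (with_reducible refine Int.comp₄ ?_ ?_ ?_ ?_ ?_; assumption) | (with_reducible refine IntF.comp ?_ ?_; assumption) | (with_reducible refine IntF.comp₂ ?_ ?_ ?_; assumption) | (with_reducible refine IntF.comp₃ ?_ ?_ ?_ ?_; assumption) | with_reducible apply IntF.pair))
  have hI2 : Int N (fun W : IPow N (IFun N (El j) α) =>
      O (i, sep N fun b : α => sl (N := N) o (i, b) ∈ W)) := by (repeat' (first | with_reducible apply memPE | with_reducible apply memPE' | with_reducible apply memPE'' | with_reducible apply memCode | with_reducible apply memCodeP | with_reducible apply memCode₂ | with_reducible apply eqPE | with_reducible apply eqPE' | with_reducible exact IntF.id | with_reducible exact IntF.fst' | with_reducible exact IntF.snd' | with_reducible exact IntF.const _ | with_reducible exact Int.const _ | assumption | with_reducible apply Int.and | with_reducible apply Int.or | with_reducible apply Int.not | with_reducible apply Int.imp | with_reducible apply Int.iff | with_reducible apply Int.ne | with_reducible apply Int.eq | with_reducible apply Int.mem |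 with_reducible apply Int.subset | with_reducible apply Int.ltN | with_reducible apply Int.leN | with_reducible_and_instances apply Int.le | with_reducible_and_instances apply Int.lt | with_reducible apply Int.all | with_reducible apply Int.ex | with_reducible apply IntF.fst | with_reducible apply IntF.snd | with_reducible apply IntF.app | with_reducible apply IntF.inl | with_reducible apply IntF.inr | with_reducible_and_instances apply IntF.mul | with_reducible_and_instances apply IntF.inv | with_reducible_and_instances apply IntF.add | with_reducible_and_instances apply IntF.sub | with_reducible_and_instances apply IntF.neg | with_reducible_and_instances apply IntF.smul | with_reducible apply Int.fin | with_reducible apply IntF.sep | with_reducible apply IntF.lam | with_reducible apply IntF.insert | with_reducible apply IntF.singleton | with_reducible apply IntF.union | with_reducible apply IntF.iimage | with_reducible apply IntF.ite | with_reducible apply IntF.the | with_reducible apply IntF.irec | with_reducible apply IntF.succ | with_reducible apply IntF.val | with_reducible apply IntF.mk | (with_reducible refine Int.comp ?_ ?_; assumption) | (with_reducible refine Int.comp₂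 ?_ ?_ ?_; assumption) | (with_reducible refine Int.comp₃ ?_ ?_ ?_ ?_; assumption) | (with_reducible refine Int.comp₄ ?_ ?_ ?_ ?_ ?_; assumption) | (with_reducible refine IntF.comp ?_ ?_; assumption) | (with_reducible refine IntF.comp₂ ?_ ?_ ?_; assumption) | (with_reducible refine IntF.comp₃ ?_ ?_ ?_ ?_; assumption) | with_reducible apply IntF.pair))
  have key : ∀ U, O (i, U) ↔ ∀ a, a ∈ U → ∃ ε, 0 < ε ∧ ∀ b, D (a, b) < ε → b ∈ U := hD.top
  refine (mem_sep hI2).1 (hW (sep N _) ⟨fun U hU => ?_, fun U V W hU hV hW => ?_,
    fun C hC W hW => ?_, fun k U hU V hV => ?_⟩)
  · rw [mem_sep hI2]
    exact (key _).2 fun a _ => ⟨1, one_pos, fun b _ => (mem_sep (hI U)).2 (hU _)⟩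
  · rw [mem_sep hI2] at *
    refine hD.inter _ _ _ hU hV fun a => ?_
    rw [mem_sep (hI _), mem_sep (hI _), mem_sep (hI _)]
    exact hW _
  · rw [mem_sep hI2]
    refine (key _).2 fun a ha => ?_
    obtain ⟨U, hU, haU⟩ := (hW _).1 ((mem_sep (hI _)).1 ha)
    obtain ⟨ε, h1, h2⟩ := (key _).1 ((mem_sep hI2).1 (hC U hU)) a ((mem_sep (hI _)).2 haU)
    exact ⟨ε, h1, fun b hb => (mem_sep (hI _)).2 ((hW _).2 ⟨U, hU, (mem_sep (hI _)).1 (h2 b hb)⟩)⟩
  · rw [mem_sep hI2]
    by_cases hk : k = i
    · subst hk
      have h1 : (sep N fun b : α => sl (N := N) o (k, b) ∈ V) = U := IPow.ext' fun b => by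
        rw [mem_sep (hI _), hV, sl_self]
      rw [h1]
      exact hU
    · refine (key _).2 fun a ha => ⟨1, one_pos, fun b _ => ?_⟩
      rw [mem_sep (hI _), hV, sl_ne o hk] at *
      exact ha

/-- **Canonical quasi-metrics.** -/
theorem ucp (hr : IsReals r) (h : CPQM r) (hj : IsCountable j) {O : El j × IPow N α → Prop}
    (hO : Int N O) (hq : ∀ i, ∃ D : α × α → El r, QD (fun U => O (i, U)) D) :
    ∃ D : El j × (α × α) → El r, IntF N D ∧ ∀ i, QD (fun U => O (i, U)) (fun p => D (i, p)) := by
  by_cases hne : Nonempty α
  swap
  · refine ⟨fun _ => 0, IntF.const _, fun i => ⟨IntF.const _, fun _ _ => le_rfl, fun _ => rfl,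
      fun a => absurd ⟨a⟩ hne, fun a => absurd ⟨a⟩ hne, fun U => ?_⟩⟩
    obtain ⟨D, hD⟩ := hq i
    exact ⟨fun _ a => absurd ⟨a⟩ hne, fun _ => (hD.top U).2 fun a => absurd ⟨a⟩ hne⟩
  obtain ⟨o⟩ := hne
  have hlt := int_lt hr
  have hX : ∀ i : El j, (fun _ : El j => dom N α) i = code (M := N) (sep N fun _ : α => True) := by
    intro i
    refine extN fun z => mem_domP.trans (Iff.trans ?_ mem_cp.symm)
    exact ⟨fun ⟨a, ha⟩ => ⟨a, (mem_sep (Int.const True)).2 trivial, ha⟩, fun ⟨a, _, ha⟩ => ⟨a, ha⟩⟩
  have hXF : IsFam (fun _ : El j => dom N α) := by
    have h1 := isFam_code (N := N) (j := j) (F := fun _ : El j => sep N fun _ : α => True)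
      (IntF.const _)
    rwa [← funext hX] at h1
  -- elements of the set of all codes
  let e : α → El (dom N α) := fun a => ⟨code (M := N) a, mem_domP.2 ⟨a, rfl⟩⟩
  have heI : IntF N e := IntF.of_D (S := fun v => v 0 = v 1) (D.eqf (DF.var _) (DF.var _))
    fun a b => ⟨fun h => Subtype.ext h, fun h => h ▸ rfl⟩
  have hes : ∀ z : El (dom N α), ∃ a, e a = z := fun z => by
    obtain ⟨a, ha⟩ := mem_domP.1 z.2
    exact ⟨a, Subtype.ext ha⟩
  choose g hg using hes
  have hge : ∀ a, g (e a) = a := fun a => ITy.inj (M := N) (congrArg Subtype.val (hg (e a)))
  have hgI : IntF N g := IntF.of_D (S := fun v => v 0 = v 1) (D.eqf (DF.var _) (DF.var _))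
    fun a b => ⟨fun h => ITy.inj (M := N) ((congrArg Subtype.val (hg a)).trans h),
      fun h => h ▸ (congrArg Subtype.val (hg a)).symm⟩
  have hqm : ∀ i : El j, QuasiMetrizable r (code (M := N) (sep N fun U : IPow N α => O (i, U)))
      (dom N α) := by
    intro i
    obtain ⟨D, hD⟩ := hq i
    have hDi := hD.int
    refine ⟨fun a b => D (g a, g b), ⟨⟨isMap₂_iff.2 (by (repeat' (first | with_reducible apply memPE | with_reducible apply memPE' | with_reducible apply memPE'' | with_reducible apply memCode | with_reducible apply memCodeP | with_reducible apply memCode₂ | with_reducible apply eqPE | with_reducible apply eqPE' | with_reducible exact IntF.id | with_reducible exact IntF.fst' | with_reducible exact IntF.snd' | with_reducible exact IntF.const _ | with_reducible exact Int.const _ | assumption | with_reducible apply Int.and | with_reducible apply Int.or | with_reducible apply Int.not | with_reducible apply Int.imp | with_reducible apply Int.iff | with_reducible apply Int.ne | with_reducible apply Int.eq | with_reducible apply Int.mem | with_reducible apply Int.subset | with_reducible apply Int.ltN | with_reducible apply Int.leN | with_reducible_and_instances apply Int.le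 | with_reducible_and_instances apply Int.lt | with_reducible apply Int.all | with_reducible apply Int.ex | with_reducible apply IntF.fst | with_reducible apply IntF.snd | with_reducible apply IntF.app | with_reducible apply IntF.inl | with_reducible apply IntF.inr | with_reducible_and_instances apply IntF.mul | with_reducible_and_instances apply IntF.inv | with_reducible_and_instances apply IntF.add | with_reducible_and_instances apply IntF.sub | with_reducible_and_instances apply IntF.neg | with_reducible_and_instances apply IntF.smul | with_reducible apply Int.fin | with_reducible apply IntF.sep | with_reducible apply IntF.lam | with_reducible apply IntF.insert | with_reducible apply IntF.singleton | with_reducible apply IntF.union | with_reducible apply IntF.iimage | with_reducible apply IntF.ite | with_reducible apply IntF.the | with_reducible apply IntF.irec | with_reducible apply IntF.succ | with_reducible apply IntF.val | with_reducible apply IntF.mk | (with_reducible refine Int.comp ?_ ?_; assumption) | (with_reducible refine Int.comp₂ ?_ ?_ ?_; assumption) | (with_reducible refine Int.comp₃ ?_ ?_ ?_ ?_; assumption) | (with_reducible refine Int.comp₄ ?_ ?_ ?_ ?_ ?_;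 assumption) | (with_reducible refine IntF.comp ?_ ?_; assumption) | (with_reducible refine IntF.comp₂ ?_ ?_ ?_; assumption) | (with_reducible refine IntF.comp₃ ?_ ?_ ?_ ?_; assumption) | with_reducible apply IntF.pair))), fun a b => hD.nonneg _ _,
      fun a => hD.self _, fun a b c => hD.tri _ _ _, fun a b h1 _ => ?_⟩, fun a b h1 => ?_⟩,
      fun V => ?_⟩
    · rw [← hg a, ← hg b, hD.sep _ _ h1]
    · rw [← hg a, ← hg b, hD.sep _ _ h1]
    · constructor
      · intro hV
        obtain ⟨U, hU, rfl⟩ := mem_cp.1 hV
        refine ⟨fun z hz => ?_, fun a ha => ?_⟩
        · obtain ⟨a, _, rfl⟩ := mem_cp.1 hz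
          exact mem_domP.2 ⟨a, rfl⟩
        · have h1 : ∀ a : El (dom N α), Mem a.1 (code (M := N) U) ↔ g a ∈ U := fun a => by
            rw [← show (e (g a)).1 = a.1 from congrArg Subtype.val (hg a)]
            exact mem_cp'
          obtain ⟨ε, h2, h3⟩ := (hD.top U).1 ((mem_sep (int_slO hO i)).1 hU) (g a) ((h1 a).1 ha)
          exact ⟨ε, h2, fun b hb => (h1 b).2 (h3 _ hb)⟩
      · rintro ⟨h1, h2⟩
        obtain ⟨U, rfl, hU⟩ := exists_codeα (N := N) (α := α) (u := V) h1
        refine mem_cp'.2 ((mem_sep (int_slO hO i)).2 ((hD.top U).2 fun a ha => ?_))
        obtain ⟨ε, h3, h4⟩ := h2 (e a) ((hU a).1 ha)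
        refine ⟨ε, h3, fun b hb => (hU b).2 (h4 (e b) ?_)⟩
        change D (g (e a), g (e b)) < ε
        rw [hge, hge]
        exact hb
  obtain ⟨d, ⟨hd, hds⟩, hdt⟩ := h j (fun _ => dom N α) _ (dom N (IFun N (El j) α))
    (tp (TT O) (tpO_TT hO).int) hj hXF (isFam_code (int_codeO hO)) hqm (fun f => by
      rw [show Mem f (dom N (IFun N (El j) α)) ↔ _ from mem_domP, ifun_iff]
      refine and_congr_left' (forall_congr' fun q => imp_congr_right fun _ => ⟨?_, ?_⟩)
      · rintro ⟨i, a, rfl⟩
        exact ⟨i, code a, mem_domP.2 ⟨a, rfl⟩, plainN_ordPair.2 rfl⟩
      · rintro ⟨i, y, h1, h2⟩
        obtain ⟨a, rfl⟩ := mem_domP.1 h1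
        exact ⟨i, a, plainN_ordPair.1 h2⟩) (isProductTopology_TT hO)
  have hdI := isMap₂_iff.1 hd.graph
  let em : IFun N (El j) α → El (dom N (IFun N (El j) α)) :=
    fun f => ⟨code (M := N) f, mem_domP.2 ⟨f, rfl⟩⟩
  have hem : IntF N em := IntF.of_D (S := fun v => v 0 = v 1) (D.eqf (DF.var _) (DF.var _))
    fun a b => ⟨fun h => Subtype.ext h, fun h => h ▸ rfl⟩
  have hsl := int_sl (N := N) (j := j) o
  have hDI : IntF N (fun p : El j × (α × α) => d (em (sl (N := N) o (p.1, p.2.1)))
      (em (sl (N := N) o (p.1, p.2.2)))) := by (repeat' (first | with_reducible apply memPE | with_reducible apply memPE' | with_reducible apply memPE'' | with_reducible apply memCode | with_reducible apply memCodeP | with_reducible apply memCode₂ | with_reducible apply eqPE | with_reducible apply eqPE' | with_reducible exact IntF.id | with_reducible exact IntF.fst' | with_reducible exact IntF.snd' | with_reducible exact IntF.const _ | with_reducible exact Int.const _ | assumption | with_reducible apply Int.and | with_reducible apply Int.or | with_reducible apply Int.not | with_reducible apply Int.imp | with_reducible apply Int.iff | with_reducible apply Int.ne | with_reducible apply Int.eq |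 with_reducible apply Int.mem | with_reducible apply Int.subset | with_reducible apply Int.ltN | with_reducible apply Int.leN | with_reducible_and_instances apply Int.le | with_reducible_and_instances apply Int.lt | with_reducible apply Int.all | with_reducible apply Int.ex | with_reducible apply IntF.fst | with_reducible apply IntF.snd | with_reducible apply IntF.app | with_reducible apply IntF.inl | with_reducible apply IntF.inr | with_reducible_and_instances apply IntF.mul | with_reducible_and_instances apply IntF.inv | with_reducible_and_instances apply IntF.add | with_reducible_and_instances apply IntF.sub | with_reducible_and_instances apply IntF.neg | with_reducible_and_instances apply IntF.smul | with_reducible apply Int.fin | with_reducible apply IntF.sep | with_reducible apply IntF.lam | with_reducible apply IntF.insert | with_reducible apply IntF.singleton | with_reducible apply IntF.union | with_reducible apply IntF.iimage | with_reducible apply IntF.ite | with_reducible apply IntF.the | with_reducible apply IntF.irec | with_reducible apply IntF.succ | with_reducible apply IntF.val | with_reducible apply IntF.mk | (with_reducible refine Int.comp ?_ ?_; assumption)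 | (with_reducible refine Int.comp₂ ?_ ?_ ?_; assumption) | (with_reducible refine Int.comp₃ ?_ ?_ ?_ ?_; assumption) | (with_reducible refine Int.comp₄ ?_ ?_ ?_ ?_ ?_; assumption) | (with_reducible refine IntF.comp ?_ ?_; assumption) | (with_reducible refine IntF.comp₂ ?_ ?_ ?_; assumption) | (with_reducible refine IntF.comp₃ ?_ ?_ ?_ ?_; assumption) | with_reducible apply IntF.pair))
  refine ⟨_, hDI, fun i => ⟨by (repeat' (first | with_reducible apply memPE | with_reducible apply memPE' | with_reducible apply memPE'' | with_reducible apply memCode | with_reducible apply memCodeP | with_reducible apply memCode₂ | with_reducible apply eqPE | with_reducible apply eqPE' | with_reducible exact IntF.id | with_reducible exact IntF.fst' | with_reducible exact IntF.snd' | with_reducible exact IntF.const _ | with_reducible exact Int.const _ | assumption | with_reducible apply Int.and | with_reducible apply Int.or | with_reducible apply Int.not | with_reducible apply Int.imp | with_reducible apply Int.iff | with_reducible apply Int.ne | with_reducible apply Int.eq | with_reducible apply Int.mem | with_reducible apply Int.subset | with_reducible apply Int.ltN | with_reducible apply Int.leN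 | with_reducible_and_instances apply Int.le | with_reducible_and_instances apply Int.lt | with_reducible apply Int.all | with_reducible apply Int.ex | with_reducible apply IntF.fst | with_reducible apply IntF.snd | with_reducible apply IntF.app | with_reducible apply IntF.inl | with_reducible apply IntF.inr | with_reducible_and_instances apply IntF.mul | with_reducible_and_instances apply IntF.inv | with_reducible_and_instances apply IntF.add | with_reducible_and_instances apply IntF.sub | with_reducible_and_instances apply IntF.neg | with_reducible_and_instances apply IntF.smul | with_reducible apply Int.fin | with_reducible apply IntF.sep | with_reducible apply IntF.lam | with_reducible apply IntF.insert | with_reducible apply IntF.singleton | with_reducible apply IntF.union | with_reducible apply IntF.iimage | with_reducible apply IntF.ite | with_reducible apply IntF.the | with_reducible apply IntF.irec | with_reducible apply IntF.succ | with_reducible apply IntF.val | with_reducible apply IntF.mk | (with_reducible refine Int.comp ?_ ?_; assumption) | (with_reducible refine Int.comp₂ ?_ ?_ ?_; assumption) | (with_reducible refine Int.comp₃ ?_ ?_ ?_ ?_; assumption) | (with_reducible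 refine Int.comp₄ ?_ ?_ ?_ ?_ ?_; assumption) | (with_reducible refine IntF.comp ?_ ?_; assumption) | (with_reducible refine IntF.comp₂ ?_ ?_ ?_; assumption) | (with_reducible refine IntF.comp₃ ?_ ?_ ?_ ?_; assumption) | with_reducible apply IntF.pair)), fun a b => hd.nonneg _ _, fun a => hd.self _,
    fun a b c => hd.tri _ _ _, fun a b h1 => ?_, fun U => ⟨fun hU a ha => ?_, fun h1 => ?_⟩⟩⟩
  · have h2 : sl (N := N) o (i, a) = sl (N := N) o (i, b) :=
      ITy.inj (M := N) (congrArg Subtype.val (hds _ _ h1))
    rw [← sl_self (N := N) o i a, ← sl_self (N := N) o i b, h2]
  · have hI : Int N (fun f : IFun N (El j) α => f i ∈ U) := by (repeat' (first | with_reducible apply memPE | with_reducible apply memPE' | with_reducible apply memPE'' | with_reducible apply memCode | with_reducible apply memCodeP | with_reducible apply memCode₂ | with_reducible apply eqPE | with_reducible apply eqPE' | with_reducible exact IntF.id | with_reducible exact IntF.fst' | with_reducible exact IntF.snd' | with_reducible exact IntF.const _ | with_reducible exact Int.const _ | assumption | with_reducible apply Int.and | with_reducible apply Int.or | with_reducible apply Int.not | with_reducible apply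 Int.imp | with_reducible apply Int.iff | with_reducible apply Int.ne | with_reducible apply Int.eq | with_reducible apply Int.mem | with_reducible apply Int.subset | with_reducible apply Int.ltN | with_reducible apply Int.leN | with_reducible_and_instances apply Int.le | with_reducible_and_instances apply Int.lt | with_reducible apply Int.all | with_reducible apply Int.ex | with_reducible apply IntF.fst | with_reducible apply IntF.snd | with_reducible apply IntF.app | with_reducible apply IntF.inl | with_reducible apply IntF.inr | with_reducible_and_instances apply IntF.mul | with_reducible_and_instances apply IntF.inv | with_reducible_and_instances apply IntF.add | with_reducible_and_instances apply IntF.sub | with_reducible_and_instances apply IntF.neg | with_reducible_and_instances apply IntF.smul | with_reducible apply Int.fin | with_reducible apply IntF.sep | with_reducible apply IntF.lam | with_reducible apply IntF.insert | with_reducible apply IntF.singleton | with_reducible apply IntF.union | with_reducible apply IntF.iimage | with_reducible apply IntF.ite | with_reducible apply IntF.the | with_reducible apply IntF.irec | with_reducible apply IntF.succ | with_reducible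 apply IntF.val | with_reducible apply IntF.mk | (with_reducible refine Int.comp ?_ ?_; assumption) | (with_reducible refine Int.comp₂ ?_ ?_ ?_; assumption) | (with_reducible refine Int.comp₃ ?_ ?_ ?_ ?_; assumption) | (with_reducible refine Int.comp₄ ?_ ?_ ?_ ?_ ?_; assumption) | (with_reducible refine IntF.comp ?_ ?_; assumption) | (with_reducible refine IntF.comp₂ ?_ ?_ ?_; assumption) | (with_reducible refine IntF.comp₃ ?_ ?_ ?_ ?_; assumption) | with_reducible apply IntF.pair))
    obtain ⟨-, h2⟩ := (hdt (code (M := N) (sep N fun f : IFun N (El j) α => f i ∈ U))).1
      (mem_tp'.2 fun S hS => hS.2.2.2 i U hU _ fun f => mem_sep hI)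
    obtain ⟨ε, h3, h4⟩ := h2 (em (sl (N := N) o (i, a))) (mem_cp'.2 ((mem_sep hI).2 (by
      rw [sl_self]
      exact ha)))
    refine ⟨ε, h3, fun b hb => ?_⟩
    have h5 := (mem_sep hI).1 (mem_cp'.1 (h4 (em (sl (N := N) o (i, b))) hb))
    rwa [sl_self] at h5
  · obtain ⟨D', hD'⟩ := hq i
    refine (hD'.top U).2 fun a ha => ?_
    obtain ⟨ε, h2, h3⟩ := h1 a ha
    have hI : Int N (fun f : IFun N (El j) α => d (em (sl (N := N) o (i, a))) (em f) < ε) := by
      (repeat' (first | with_reducible apply memPE | with_reducible apply memPE' | with_reducible apply memPE'' | with_reducible apply memCode | with_reducible apply memCodeP | with_reducible apply memCode₂ | with_reducible apply eqPE | with_reducible apply eqPE' | with_reducible exact IntF.id | with_reducible exact IntF.fst' | with_reducible exact IntF.snd' | with_reducible exact IntF.const _ | with_reducible exact Int.const _ | assumption | with_reducible apply Int.and | with_reducible apply Int.or | with_reducible apply Int.not | with_reducible apply Int.imp | with_reducible apply Int.iff | with_reducible apply Int.ne | with_reducible apply Int.eq | with_reducible apply Int.mem | with_reducible apply Int.subset | with_reducible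 apply Int.ltN | with_reducible apply Int.leN | with_reducible_and_instances apply Int.le | with_reducible_and_instances apply Int.lt | with_reducible apply Int.all | with_reducible apply Int.ex | with_reducible apply IntF.fst | with_reducible apply IntF.snd | with_reducible apply IntF.app | with_reducible apply IntF.inl | with_reducible apply IntF.inr | with_reducible_and_instances apply IntF.mul | with_reducible_and_instances apply IntF.inv | with_reducible_and_instances apply IntF.add | with_reducible_and_instances apply IntF.sub | with_reducible_and_instances apply IntF.neg | with_reducible_and_instances apply IntF.smul | with_reducible apply Int.fin | with_reducible apply IntF.sep | with_reducible apply IntF.lam | with_reducible apply IntF.insert | with_reducible apply IntF.singleton | with_reducible apply IntF.union | with_reducible apply IntF.iimage | with_reducible apply IntF.ite | with_reducible apply IntF.the | with_reducible apply IntF.irec | with_reducible apply IntF.succ | with_reducible apply IntF.val | with_reducible apply IntF.mk | (with_reducible refine Int.comp ?_ ?_; assumption) | (with_reducible refine Int.comp₂ ?_ ?_ ?_; assumption) | (with_reducible refine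 Int.comp₃ ?_ ?_ ?_ ?_; assumption) | (with_reducible refine Int.comp₄ ?_ ?_ ?_ ?_ ?_; assumption) | (with_reducible refine IntF.comp ?_ ?_; assumption) | (with_reducible refine IntF.comp₂ ?_ ?_ ?_; assumption) | (with_reducible refine IntF.comp₃ ?_ ?_ ?_ ?_; assumption) | with_reducible apply IntF.pair))
    have hW : TT O (sep N fun f : IFun N (El j) α => d (em (sl (N := N) o (i, a))) (em f) < ε) := by
      refine mem_tp'.1 ((hdt _).2 ⟨fun z hz => ?_, fun z hz => ?_⟩)
      · obtain ⟨f, _, rfl⟩ := mem_cp.1 hz
        exact mem_domP.2 ⟨f, rfl⟩
      · obtain ⟨f, hf⟩ : ∃ f, em f = z := by
          obtain ⟨f, hf⟩ := mem_domP.1 z.2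
          exact ⟨f, Subtype.ext hf⟩
        subst hf
        have h4 := (mem_sep hI).1 (mem_cp'.1 hz)
        refine ⟨ε - d (em (sl (N := N) o (i, a))) (em f), by linarith, fun w hw => ?_⟩
        obtain ⟨f', hf'⟩ : ∃ f, em f = w := by
          obtain ⟨f, hf⟩ := mem_domP.1 w.2
          exact ⟨f, Subtype.ext hf⟩
        subst hf'
        refine mem_cp'.2 ((mem_sep hI).2 ?_)
        have h5 := hd.tri (em (sl (N := N) o (i, a))) (em f) (em f')
        linarith
    have h4 := TT_sl hO o hD' hW
    have hI' : Int N (fun b : α => sl (N := N) o (i, b) ∈
        (sep N fun f : IFun N (El j) α => d (em (sl (N := N) o (i, a))) (em f) < ε)) := by (repeat' (first | with_reducible apply memPE | with_reducible apply memPE' | with_reducible apply memPE'' | with_reducible apply memCode | with_reducible apply memCodeP | with_reducible apply memCode₂ | with_reducible apply eqPE | with_reducible apply eqPE' | with_reducible exact IntF.id | with_reducible exact IntF.fst' | with_reducible exact IntF.snd' | with_reducible exact IntF.const _ | with_reducible exact Int.const _ | assumption | with_reducible apply Int.and | with_reducible apply Int.or | with_reducible apply Int.not | with_reducible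 apply Int.imp | with_reducible apply Int.iff | with_reducible apply Int.ne | with_reducible apply Int.eq | with_reducible apply Int.mem | with_reducible apply Int.subset | with_reducible apply Int.ltN | with_reducible apply Int.leN | with_reducible_and_instances apply Int.le | with_reducible_and_instances apply Int.lt | with_reducible apply Int.all | with_reducible apply Int.ex | with_reducible apply IntF.fst | with_reducible apply IntF.snd | with_reducible apply IntF.app | with_reducible apply IntF.inl | with_reducible apply IntF.inr | with_reducible_and_instances apply IntF.mul | with_reducible_and_instances apply IntF.inv | with_reducible_and_instances apply IntF.add | with_reducible_and_instances apply IntF.sub | with_reducible_and_instances apply IntF.neg | with_reducible_and_instances apply IntF.smul | with_reducible apply Int.fin | with_reducible apply IntF.sep | with_reducible apply IntF.lam | with_reducible apply IntF.insert | with_reducible apply IntF.singleton | with_reducible apply IntF.union | with_reducible apply IntF.iimage | with_reducible apply IntF.ite | with_reducible apply IntF.the | with_reducible apply IntF.irec | with_reducible apply IntF.succ | with_reducible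 apply IntF.val | with_reducible apply IntF.mk | (with_reducible refine Int.comp ?_ ?_; assumption) | (with_reducible refine Int.comp₂ ?_ ?_ ?_; assumption) | (with_reducible refine Int.comp₃ ?_ ?_ ?_ ?_; assumption) | (with_reducible refine Int.comp₄ ?_ ?_ ?_ ?_ ?_; assumption) | (with_reducible refine IntF.comp ?_ ?_; assumption) | (with_reducible refine IntF.comp₂ ?_ ?_ ?_; assumption) | (with_reducible refine IntF.comp₃ ?_ ?_ ?_ ?_; assumption) | with_reducible apply IntF.pair))
    obtain ⟨δ, h5, h6⟩ := (hD'.top _).1 h4 a ((mem_sep hI').2 ((mem_sep hI).2 (by
      rw [hd.self]
      exact h2)))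
    exact ⟨δ, h5, fun b hb => h3 b ((mem_sep hI).1 ((mem_sep hI').1 (h6 b hb)))⟩

end

end Pool.Agent.Q257.ZQ
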